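import Pool.Agent.TIW.ZBu

/-!
# ARM2: coarse paths (helper51)

The triangular lattice with mesh `D`; an induced path turns by 0 or +-60 degrees; two segments with one segment between
them are at distance at least `D` (hexagonal norm) from each other.
-/

set_option autoImplicit false

namespace HexObs

namespace AR

open Finset TIW

/-- the vertices of the coarse path, mesh one -/
def ps (e : ℕ → Pt) (i : ℕ) : Pt := ∑ a ∈ range i, e a

/-- induced paths of the triangular lattice with r steps, the first step is up -/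
structure IPath (e : ℕ → Pt) (r : ℕ) : Prop where
  dir : ∀ i, i < r → e i ∈ dirs
  one : 0 < r → e 0 = up
  tur : ∀ i, i + 1 < r → e (i + 1) = e i ∨ e (i + 1) = rotL (e i) ∨ e (i + 1) = rotR (e i)
  ind : ∀ i j, i + 1 < j → j ≤ r → 3 ≤ nrm (ps e j - ps e i)

/-- the vertices of the coarse path, mesh D -/
def pv (e : ℕ → Pt) (D : ℤ) (i : ℕ) : Pt := D • ps e i

/-- the point y is within w of the segment from c to c + D d -/
def NS (c d : Pt) (D w : ℤ) (y : Pt) : Prop := ∃ t : ℤ, 0 ≤ t ∧ t ≤ D ∧ hn (y - (c + t • d)) ≤ w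

/-- the point y is within w of one of the segments j of the path, p ≤ j < q -/
def NSs (e : ℕ → Pt) (D w : ℤ) (p q : ℕ) (y : Pt) : Prop := ∃ j, p ≤ j ∧ j < q ∧ NS (pv e D j) (e j) D w y

lemma ip_smul (t : ℤ) (p q : Pt) : ip (t • p) q = t * ip p q := by
  simp only [ip, Prod.smul_fst, Prod.smul_snd, smul_eq_mul]
  ring

lemma ip_sub_left (p p' q : Pt) : ip (p - p') q = ip p q - ip p' q := by
  simp only [ip, Prod.fst_sub, Prod.snd_sub]
  ring

lemma ps_succ (e : ℕ → Pt) (i : ℕ) : ps e (i + 1) = ps e i + e i := sum_range_succ _ _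

lemma pv_succ (e : ℕ → Pt) (D : ℤ) (i : ℕ) : pv e D (i + 1) = pv e D i + D • e i := by
  unfold pv
  rw [ps_succ, smul_add]

lemma NS.mono {c d : Pt} {D w w' : ℤ} {y : Pt} (h : NS c d D w y) (hw : w ≤ w') : NS c d D w' y := by
  obtain ⟨t, h1, h2, h3⟩ := h
  exact ⟨t, h1, h2, h3.trans hw⟩

lemma NSs.mono {e : ℕ → Pt} {D w w' : ℤ} {p q : ℕ} {y : Pt} (h : NSs e D w p q y) (hw : w ≤ w') : NSs e D w' p q y := by
  obtain ⟨j, h1, h2, h3⟩ := h
  exact ⟨j, h1, h2, h3.mono hw⟩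

lemma NSs.mono' {e : ℕ → Pt} {D w : ℤ} {p p' q q' : ℕ} {y : Pt} (h : NSs e D w p q y) (hp : p' ≤ p) (hq : q ≤ q') :
    NSs e D w p' q' y := by
  obtain ⟨j, h1, h2, h3⟩ := h
  exact ⟨j, by omega, by omega, h3⟩

/-! ### 1. The finite check -/

/-- the separating direction -/
def gd (ei ej a : Pt) : Bool :=
  decide (∃ d ∈ dirs, 1 ≤ ip a d ∧ 1 ≤ ip (a + ei) d ∧ 1 ≤ ip (a - ej) d ∧ 1 ≤ ip (a + ei - ej) d)

/-- the possible differences -/
def hy (ei ej a : Pt) : Bool :=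
  decide (3 ≤ nrm a ∧ 3 ≤ nrm (a + ei) ∧ 3 ≤ nrm (a + ei - ej)) &&
    (decide (3 ≤ nrm (a - ej)) || (decide (a - ej = ej ∨ a - ej = rotL ej ∨ a - ej = rotR ej) &&
      decide (ei = a - ej ∨ ei = rotL (a - ej) ∨ ei = rotR (a - ej))))

lemma sep_check : ∀ ei ∈ dirs, ∀ ej ∈ dirs, ∀ x ∈ Icc (-7 : ℤ) 7, ∀ y ∈ Icc (-7 : ℤ) 7,
    hy ei ej (x, y) = true → gd ei ej (x, y) = true := by
  decide +kernel

lemma sep_check1 : ∀ ej ∈ dirs, ∀ x ∈ Icc (-7 : ℤ) 7, ∀ y ∈ Icc (-7 : ℤ) 7,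
    3 ≤ nrm (x, y) →
    (3 ≤ nrm ((x, y) - ej) ∨ ((x, y) - ej = ej ∨ (x, y) - ej = rotL ej ∨ (x, y) - ej = rotR ej)) →
    ∃ d ∈ dirs, 1 ≤ ip (x, y) d ∧ 1 ≤ ip ((x, y) - ej) d := by
  decide +kernel

lemma ip_dirs {a b : Pt} (ha : a ∈ dirs) (hb : b ∈ dirs) : -2 ≤ ip a b ∧ ip a b ≤ 2 := by
  have key : ∀ a ∈ dirs, ∀ b ∈ dirs, -2 ≤ ip a b ∧ ip a b ≤ 2 := by decide
  exact key a ha b hb

lemma exists_hn (p : Pt) : ∃ d ∈ dirs, ip p d = hn p := by
  unfold hn
  have key : ∀ x d, d ∈ dirs → x = |ip p d| → ∃ d' ∈ dirs, ip p d' = x := by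
    intro x d hd hx
    rcases le_total 0 (ip p d) with h | h
    · exact ⟨d, hd, by rw [hx, abs_of_nonneg h]⟩
    · exact ⟨-d, neg_mem_dirs hd, by rw [hx, abs_of_nonpos h, ip_neg_right]⟩
  rcases max_choice |ip p up| (max |ip p (rotL up)| |ip p (rotR up)|) with h | h
  · rw [h]
    exact key _ _ upd' rfl
  · rw [h]
    rcases max_choice |ip p (rotL up)| |ip p (rotR up)| with h | h
    · rw [h]
      exact key _ _ (rotL_mem upd') rfl
    · rw [h]
      exact key _ _ (rotR_mem upd') rfl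

/-- small or with a large product -/
lemma small_or (p : Pt) : (p.1 ∈ Icc (-7 : ℤ) 7 ∧ p.2 ∈ Icc (-7 : ℤ) 7) ∨ ∃ d ∈ dirs, 7 ≤ ip p d := by
  rcases le_or_gt 7 (hn p) with h | h
  · obtain ⟨d, hd, he⟩ := exists_hn p
    exact Or.inr ⟨d, hd, by rw [he]; exact h⟩
  · left
    have h1 := nrm_le_hn p
    have h2 := hn_nonneg p
    have h3 := abs_le_of_nrm (p := p) (k := 6) (by norm_num) (h1.trans (by nlinarith))
    constructor
    · rw [mem_Icc]
      constructor <;> nlinarith [h3.1]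
    · rw [mem_Icc]
      constructor <;> nlinarith [h3.2]

/-! ### 2. Separation of the segments -/

variable {e : ℕ → Pt} {r : ℕ}

lemma ps_two (i : ℕ) : ps e (i + 2) - ps e (i + 1) = e (i + 1) := by
  rw [ps_succ e (i + 1)]
  abel

/-- two segments, mesh one -/
lemma sep_one (h : IPath e r) {i j : ℕ} (hij : j + 1 < i) (hi : i < r) : ∃ d ∈ dirs,
    1 ≤ ip (ps e i - ps e j) d ∧ 1 ≤ ip (ps e i - ps e j + e i) d ∧ 1 ≤ ip (ps e i - ps e j - e j) d ∧
      1 ≤ ip (ps e i - ps e j + e i - e j) d := by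
  obtain ⟨a, ha⟩ : ∃ a, a = ps e i - ps e j := ⟨_, rfl⟩
  have hei := h.dir i hi
  have hej := h.dir j (by omega)
  have n1 : 3 ≤ nrm a := by
    rw [ha]
    exact h.ind j i hij (by omega)
  have n2 : 3 ≤ nrm (a + e i) := by
    have := h.ind j (i + 1) (by omega) (by omega)
    rw [ps_succ] at this
    rw [ha, show ps e i - ps e j + e i = ps e i + e i - ps e j by abel]
    exact this
  have n3 : 3 ≤ nrm (a + e i - e j) := by
    have := h.ind (j + 1) (i + 1) (by omega) (by omega)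
    rw [ps_succ, ps_succ] at this
    rw [ha, show ps e i - ps e j + e i - e j = ps e i + e i - (ps e j + e j) by abel]
    exact this
  have e4 : a - e j = ps e i - ps e (j + 1) := by
    rw [ha, ps_succ]
    abel
  have n4 : 3 ≤ nrm (a - e j) ∨ ((a - e j = e j ∨ a - e j = rotL (e j) ∨ a - e j = rotR (e j)) ∧
      (e i = a - e j ∨ e i = rotL (a - e j) ∨ e i = rotR (a - e j))) := by
    rcases Nat.lt_or_ge (j + 2) i with h5 | h5
    · left
      rw [e4]
      exact h.ind (j + 1) i (by omega) (by omega)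
    · right
      obtain rfl : i = j + 2 := by omega
      rw [e4, ps_two]
      refine ⟨h.tur j (by omega), ?_⟩
      exact h.tur (j + 1) (by omega)
  rw [← ha]
  rcases small_or a with ⟨h5, h6⟩ | ⟨d, hd, h5⟩
  · have h7 : hy (e i) (e j) (a.1, a.2) = true := by
      unfold hy
      rw [Bool.and_eq_true, Bool.or_eq_true, Bool.and_eq_true, decide_eq_true_eq, decide_eq_true_eq, decide_eq_true_eq,
        decide_eq_true_eq]
      exact ⟨⟨n1, n2, n3⟩, n4⟩
    have h8 := sep_check (e i) hei (e j) hej a.1 h5 a.2 h6 h7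
    unfold gd at h8
    rw [decide_eq_true_eq] at h8
    exact h8
  · refine ⟨d, hd, by linarith, ?_, ?_, ?_⟩
    · rw [ip_add_left]
      linarith [(ip_dirs hei hd).1]
    · rw [ip_sub_left]
      linarith [(ip_dirs hej hd).2]
    · rw [ip_sub_left, ip_add_left]
      linarith [(ip_dirs hei hd).1, (ip_dirs hej hd).2]

/-- a vertex and a segment, mesh one -/
lemma sep_vert (h : IPath e r) {i j : ℕ} (hij : j + 1 < i) (hi : i ≤ r) : ∃ d ∈ dirs,
    1 ≤ ip (ps e i - ps e j) d ∧ 1 ≤ ip (ps e i - ps e j - e j) d := by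
  obtain ⟨a, ha⟩ : ∃ a, a = ps e i - ps e j := ⟨_, rfl⟩
  have hej := h.dir j (by omega)
  have n1 : 3 ≤ nrm a := by
    rw [ha]
    exact h.ind j i hij (by omega)
  have e4 : a - e j = ps e i - ps e (j + 1) := by
    rw [ha, ps_succ]
    abel
  have n4 : 3 ≤ nrm (a - e j) ∨ (a - e j = e j ∨ a - e j = rotL (e j) ∨ a - e j = rotR (e j)) := by
    rcases Nat.lt_or_ge (j + 2) i with h5 | h5
    · left
      rw [e4]
      exact h.ind (j + 1) i (by omega) (by omega)
    · right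
      obtain rfl : i = j + 2 := by omega
      rw [e4, ps_two]
      exact h.tur j (by omega)
  rw [← ha]
  rcases small_or a with ⟨h5, h6⟩ | ⟨d, hd, h5⟩
  · exact sep_check1 (e j) hej a.1 h5 a.2 h6 n1 n4
  · refine ⟨d, hd, by linarith, ?_⟩
    rw [ip_sub_left]
    linarith [(ip_dirs hej hd).2]

/-- bilinear interpolation -/
lemma interp {D A α β t s : ℤ} (h0 : 0 ≤ t) (h1 : t ≤ D) (h2 : 0 ≤ s) (h3 : s ≤ D) (c1 : 1 ≤ A) (c2 : 1 ≤ A + α)
    (c3 : 1 ≤ A - β) (c4 : 1 ≤ A + α - β) : D ≤ D * A + t * α - s * β := by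
  have hD : 0 ≤ D := h0.trans h1
  rcases le_total 0 α with ha | ha <;> rcases le_total 0 β with hb | hb
  · nlinarith [mul_nonneg h0 ha, mul_nonneg (sub_nonneg.2 h3) hb, mul_nonneg hD (by linarith : 0 ≤ A - β - 1)]
  · nlinarith [mul_nonneg h0 ha, mul_nonneg h2 (neg_nonneg.2 hb), mul_nonneg hD (by linarith : 0 ≤ A - 1)]
  · nlinarith [mul_nonneg (sub_nonneg.2 h1) (neg_nonneg.2 ha), mul_nonneg (sub_nonneg.2 h3) hb,
      mul_nonneg hD (by linarith : 0 ≤ A + α - β - 1)]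
  · nlinarith [mul_nonneg (sub_nonneg.2 h1) (neg_nonneg.2 ha), mul_nonneg h2 (neg_nonneg.2 hb),
      mul_nonneg hD (by linarith : 0 ≤ A + α - 1)]

/-- **two segments with a segment between them are at distance D** -/
lemma sep_seg (h : IPath e r) {i j : ℕ} (hij : j + 1 < i) (hi : i < r) {D w w' : ℤ} {x y : Pt}
    (hy : NS (pv e D i) (e i) D w y) (hx : NS (pv e D j) (e j) D w' x) : D - w - w' ≤ hn (y - x) := by
  obtain ⟨d, hd, c1, c2, c3, c4⟩ := sep_one h hij hi
  obtain ⟨t, h1, h2, h3⟩ := hy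
  obtain ⟨s, h4, h5, h6⟩ := hx
  have e1 : y - x = (y - (pv e D i + t • e i)) - (x - (pv e D j + s • e j)) +
      (D • (ps e i - ps e j) + t • e i - s • e j) := by
    unfold pv
    rw [smul_sub]
    abel
  have e2 : ip (D • (ps e i - ps e j) + t • e i - s • e j) d = D * ip (ps e i - ps e j) d + t * ip (e i) d -
      s * ip (e j) d := by
    rw [ip_sub_left, ip_add_left, ip_smul, ip_smul, ip_smul]
  rw [ip_add_left] at c2
  rw [ip_sub_left _ (e j)] at c3
  rw [ip_sub_left _ (e j), ip_add_left] at c4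
  have h7 := interp h1 h2 h4 h5 c1 c2 c3 c4
  refine le_trans ?_ (ip_le_hn _ hd)
  rw [e1, ip_add_left, ip_sub_left, e2]
  have h8 := neg_hn_le_ip (y - (pv e D i + t • e i)) hd
  have h9 := ip_le_hn (x - (pv e D j + s • e j)) hd
  linarith

/-- **a vertex and a segment** -/
lemma sep_pt (h : IPath e r) {i j : ℕ} (hij : j + 1 < i) (hi : i ≤ r) {D w w' : ℤ} {x y : Pt}
    (hy : hn (y - pv e D i) ≤ w) (hx : NS (pv e D j) (e j) D w' x) : D - w - w' ≤ hn (y - x) := by
  obtain ⟨d, hd, c1, c3⟩ := sep_vert h hij hi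
  obtain ⟨s, h4, h5, h6⟩ := hx
  have e1 : y - x = (y - pv e D i) - (x - (pv e D j + s • e j)) + (D • (ps e i - ps e j) - s • e j) := by
    unfold pv
    rw [smul_sub]
    abel
  have e2 : ip (D • (ps e i - ps e j) - s • e j) d = D * ip (ps e i - ps e j) d - s * ip (e j) d := by
    rw [ip_sub_left, ip_smul, ip_smul]
  rw [ip_sub_left _ (e j)] at c3
  have h7 := interp (α := 0) (t := 0) le_rfl (h4.trans h5) h4 h5 c1 (by linarith) c3 (by linarith)
  refine le_trans ?_ (ip_le_hn _ hd)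
  rw [e1, ip_add_left, ip_sub_left, e2]
  have h8 := neg_hn_le_ip (y - pv e D i) hd
  have h9 := ip_le_hn (x - (pv e D j + s • e j)) hd
  linarith

end AR

end HexObs
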