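import Pool.Agent.ARM2.Tube

/-!
# ARM2: tubes along a coarse path, exact end and exact length (helper51)

* **`tubeSt : ARM.TubeSt`**.
-/

set_option autoImplicit false

namespace HexObs

namespace AR

open Finset TIW TS SDN POL

open scoped ENNReal

variable {e : ℕ → Pt} {r i l : ℕ} {D B B' lam Lb X : ℤ} {c : Pt}

/-! ### 1. The end point in the frame of the word -/

/-- the displacement in the frame of the end of A -/
def fr (A : List Bool) (z : Pt) : Pt := mulE (conjE (rt A)) (z - en A)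

lemma mulE_fr (A : List Bool) (z : Pt) : mulE (rt A) (fr A z) = z - en A := by
  unfold fr
  rw [mulE_assoc, mulE_conjE, nrm_rt, mulE_one]

lemma ip_fr (A : List Bool) (z : Pt) : ip (fr A z) up = ip (z - en A) (de A) := by
  rw [← mulE_fr, ip_rt]

lemma Lt_fr (A : List Bool) (z : Pt) : 3 * (fr A z).1 = Lt (de A) (z - en A) := by
  rw [← mulE_fr, Lt_rt]
  simp only [Lt, ip, rotR, rotL, up]
  ring

lemma cl_up' : cl up = 2 := by decide

lemma cl_en (A : List Bool) : cl (en A) = if Even A.length then 0 else 2 := by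
  have h := cl_vx oo up A A.length
  have h0 : cl oo = 0 := by decide
  rw [h0, cl_up', zero_add] at h
  exact h

lemma cl_de (A : List Bool) : cl (de A) = if Even A.length then 2 else 1 := by
  have h := cl_dx up A A.length
  have h1 : (-(2 : ZMod 3)) = 1 := by decide
  rw [cl_up', h1] at h
  exact h

lemma par_of {b : ℕ} {A : List Bool} (h : cl (de A) = if Even b then 2 else 1) : (Even A.length ↔ Even b) := by
  rw [cl_de] at h
  have h12 : (1 : ZMod 3) ≠ 2 := by decide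
  by_cases h1 : Even A.length <;> by_cases h2 : Even b
  · exact ⟨fun _ => h2, fun _ => h1⟩
  · rw [if_pos h1, if_neg h2] at h
    exact absurd h.symm h12
  · rw [if_neg h1, if_pos h2] at h
    exact absurd h h12
  · exact ⟨fun h => absurd h h1, fun h => absurd h h2⟩

lemma three_fr {b : ℕ} {A : List Bool} {z : Pt} (h : (Even A.length ↔ Even b)) (hz : cl z = if Even b then 0 else 2) :
    (3 : ℤ) ∣ ip (fr A z) up := by
  rw [ip_fr]
  have h1 : cl (z - en A) = 0 := by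
    rw [cl_sub, hz, cl_en]
    by_cases h2 : Even b
    · rw [if_pos h2, if_pos (h.2 h2), sub_self]
    · rw [if_neg h2, if_neg (fun h3 => h2 (h.1 h3)), sub_self]
  have h2 := ip_mod (z - en A) (de A)
  rw [h1, zero_mul, neg_zero] at h2
  exact (ZMod.intCast_zmod_eq_zero_iff_dvd _ 3).1 h2

/-- the last part -/
def VL (k : ℕ) (z : Pt) (b : ℕ) (A : List Bool) : Set (List Bool) :=
  {V | V ∈ RP.EndB (ip (fr A z) up / 3).toNat (fr A z).1 ∧ V.length = b - A.length ∧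
    ∀ i, i ≤ V.length → |(lat V i : ℝ)| ≤ 20 * 4 * 2 ^ k}

lemma vl_facts {k b : ℕ} {z : Pt} {A V : List Bool} (h3 : (3 : ℤ) ∣ ip (fr A z) up) (h0 : 0 ≤ ip (fr A z) up)
    (hV : V ∈ VL k z b A) : V ∈ BU ∧ en (A ++ V) = z ∧ 3 * (hgt V : ℤ) = ip (z - en A) (de A) ∧
      ∀ j, j ≤ V.length → |6 * lat V j| ≤ 480 * 2 ^ k := by
  obtain ⟨hV1, hV2, hV3⟩ := hV
  have h4 : ip (fr A z) up = 3 * (((ip (fr A z) up / 3).toNat : ℕ) : ℤ) := by omega
  have h5 := TPF.EndB_ZB h4 hV1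
  refine ⟨h5.1, ?_, ?_, fun j hj => ?_⟩
  · have e1 : en V = fr A z := h5.2
    rw [en_app, e1, mulE_fr]
    abel
  · rw [← ip_fr, h4, hgt_eq hV1.1]
  · have h6 := hV3 j hj
    have h7 : ((|6 * lat V j| : ℤ) : ℝ) ≤ ((480 * 2 ^ k : ℤ) : ℝ) := by
      push_cast
      rw [abs_mul, abs_of_pos (by norm_num : (0 : ℝ) < 6)]
      linarith
    exact_mod_cast h7

/-! ### 2. The last segment -/

lemma conv {b : ℕ} {A0 : ℕ} (h : A0 ≤ b) : ((b - A0 : ℕ) : ℝ) = b - A0 := by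
  rw [Nat.cast_sub h]

/-- from a word with the tip in the middle of the last segment to the end z -/
lemma last_cl (h : IPath e (i + 1)) {k H b : ℕ} {T1 s : ℤ} {z : Pt} (hH : 2 ^ 13 ≤ H) (hT : T1 = 9 * (H * 2 ^ k))
    (hs : s = D - T1) (hD : 18 * (H * 2 ^ k) ≤ D) {AA : Set (List Bool)}
    (hAA : ∀ A ∈ AA, AS e D (2 ^ k) i (pv e D i + s • e i) A) (hz : hn (z - pv e D (i + 1)) ≤ 2 ^ (k + 2))
    (hcz : cl z = if Even b then 0 else 2) (hce : cl (e i) = if Even b then 2 else 1) :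
    (∀ A ∈ AA, BS e D (2 ^ k) (480 * 2 ^ k) (2 * T1 + 5 * 2 ^ k) i (pv e D i + s • e i) A) ∧
    (∀ A ∈ AA, (3 : ℤ) ∣ ip (fr A z) up ∧ 2 * T1 - 5 * 2 ^ k ≤ ip (fr A z) up ∧ ip (fr A z) up ≤ 2 * T1 + 5 * 2 ^ k ∧
      |(fr A z).1| ≤ 4 * 2 ^ k ∧ (Even A.length ↔ Even b)) ∧
    ∀ A ∈ AA, ∀ V ∈ VL k z b A, AS e D (2 ^ (k + 9)) i (pv e D (i + 1)) (A ++ V) ∧ en (A ++ V) = z := by
  have hd := h.dir i (by omega)
  obtain ⟨R, hR⟩ : ∃ R : ℤ, R = 2 ^ k := ⟨_, rfl⟩
  have hR1 : 1 ≤ R := by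
    rw [hR]
    exact one_le_pow₀ (by norm_num)
  have hH' : (8192 : ℤ) ≤ H := by
    have : 8192 ≤ H := hH
    exact_mod_cast this
  have hHR : 8192 * R ≤ H * R := mul_le_mul_of_nonneg_right hH' (by linarith)
  have hk2 : (2 : ℤ) ^ (k + 2) = 4 * R := by rw [hR]; ring
  have hk9 : (2 : ℤ) ^ (k + 9) = 512 * R := by rw [hR]; ring
  rw [hk2] at hz
  rw [← hR] at hT hD hAA
  have hv : pv e D (i + 1) = (pv e D i + s • e i) + T1 • e i := by
    rw [pv_succ, hs, sub_smul]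
    abel
  have c1 : ∀ A ∈ AA, BS e D R (480 * R) (2 * T1 + 5 * R) i (pv e D i + s • e i) A := by
    intro A hA
    refine step_W h (by omega) rfl (kap := 5 * R) (by linarith) (by linarith) (s := s) ?_ ?_ ?_ ?_ (hAA A hA)
    · rw [hs, hT]; linarith
    · rw [hs, hT]; linarith
    · rw [hs]; linarith
    · linarith
  -- the displacement
  have key : ∀ A ∈ AA, 2 * T1 - 5 * R ≤ ip (fr A z) up ∧ ip (fr A z) up ≤ 2 * T1 + 5 * R ∧ |(fr A z).1| ≤ 4 * R ∧
      (Even A.length ↔ Even b) ∧ (3 : ℤ) ∣ ip (fr A z) up ∧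
      |ip (z - en A) (e i) - ip (pv e D i + s • e i + T1 • e i - en A) (e i)| ≤ 4 * R := by
    intro A hA
    have hpos := (hAA A hA).pos
    have hdir := (hAA A hA).dir
    have hpar : (Even A.length ↔ Even b) := par_of (by rw [hdir]; exact hce)
    have e1 : z - en A = (z - pv e D (i + 1)) + T1 • e i - (en A - (pv e D i + s • e i)) := by
      rw [hv]
      abel
    have e2 : ip (fr A z) up = ip (z - pv e D (i + 1)) (e i) + 2 * T1 - ip (en A - (pv e D i + s • e i)) (e i) := by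
      rw [ip_fr, hdir, e1, ip_sub_left, ip_add_left, ip_smul_self hd]
    have a1 := ip_le_hn (z - pv e D (i + 1)) hd
    have a2 := neg_hn_le_ip (z - pv e D (i + 1)) hd
    have a3 := ip_le_hn (en A - (pv e D i + s • e i)) hd
    have a4 := neg_hn_le_ip (en A - (pv e D i + s • e i)) hd
    refine ⟨by rw [e2]; linarith, by rw [e2]; linarith, ?_, hpar, three_fr hpar hcz, ?_⟩
    · have e3 : 3 * (fr A z).1 = Lt (e i) (z - pv e D (i + 1)) - Lt (e i) (en A - (pv e D i + s • e i)) := by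
        rw [Lt_fr, hdir]
        have e4 : z - en A = (z - pv e D (i + 1)) + T1 • e i + -(en A - (pv e D i + s • e i)) := by
          rw [hv]
          abel
        rw [e4, Lt_add, Lt_add, Lt_smul]
        unfold Lt
        rw [ip_neg_left, ip_neg_left]
        ring
      have b1 := Lt_le hd (z - pv e D (i + 1))
      have b2 := Lt_le hd (en A - (pv e D i + s • e i))
      rw [abs_le] at b1 b2 ⊢
      constructor <;> linarith [b1.1, b1.2, b2.1, b2.2]
    · have e5 : ip (z - en A) (e i) - ip (pv e D i + s • e i + T1 • e i - en A) (e i) = ip (z - pv e D (i + 1)) (e i) := by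
        rw [← ip_sub_left, hv]
        congr 1
        abel
      rw [e5, abs_le]
      constructor <;> linarith
  refine ⟨?_, ?_, ?_⟩
  · rw [← hR]
    exact c1
  · rw [← hR]
    exact fun A hA => ⟨(key A hA).2.2.2.2.1, (key A hA).1, (key A hA).2.1, (key A hA).2.2.1, (key A hA).2.2.2.1⟩
  · intro A hA V hV
    obtain ⟨k1, k2, k3, k4, k5, k6⟩ := key A hA
    obtain ⟨v1, v2, v3, v4⟩ := vl_facts k5 (by linarith) hV
    refine ⟨?_, v2⟩
    rw [hk9, hv]
    rw [← hR] at v4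
    have hlat : ∀ j, j ≤ V.length → |3 * lat V j| ≤ 480 * R := by
      intro j hj
      have := v4 j hj
      rw [abs_le] at this ⊢
      constructor <;> linarith
    refine step_S h (by omega) rfl (kap := 4 * R) (mu := 480 * R) ?_ ?_ ?_ (c1 A hA) v1 hlat (hlat _ le_rfl) ?_ ?_ le_rfl
      ?_ ?_
    · rw [hs, hT]; linarith
    · rw [hT]; linarith
    · rw [hs]; linarith
    · rw [v3, (hAA A hA).dir]
      exact k6
    · rw [v3, ← ip_fr]
      exact k2
    · linarith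
    · rw [hT]; linarith

/-! ### 3. The theorem -/

lemma ml_mm : ∃ c C : ℝ, 0 < c ∧ 0 < C ∧ ∀ k : ℕ, c * ARM.ml k ≤ mm k ∧ mm k ≤ C * ARM.ml k := by
  obtain ⟨c, hc, h1⟩ := _root_.VF.mLow VF.sharpZ
  obtain ⟨C, hC, h2⟩ := _root_.VF.mUp VF.sharpZ
  exact ⟨c, C, hc, hC, fun k => ⟨h1 k, h2 k⟩⟩

lemma mm_low (l s : ℕ) : 2 ^ s * mm l ≤ mm (l + s) := by
  refine le_trans ?_ (NTA.mlow_M.low l s)
  refine mul_le_mul_of_nonneg_right ?_ (mm_pos l).le
  rw [← Real.rpow_natCast]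
  exact Real.rpow_le_rpow_of_exponent_le (by norm_num) (by
    have : (0 : ℝ) ≤ s := Nat.cast_nonneg s
    linarith)

/-- **tubes along a coarse path**, exact end and exact length, in terms of the mean length -/
theorem tube (a A : ℝ) (ha : 0 < a) (haA : a ≤ A) : ∃ H0 : ℕ, 2 ^ 13 ≤ H0 ∧ ∀ H : ℕ, H0 ≤ H → ∀ Mx : ℕ,
    ∃ (c : ℝ) (k0 : ℕ), 0 < c ∧ ∀ (k r b : ℕ) (D : ℤ) (e : ℕ → Pt) (z : Pt), k0 ≤ k →
      18 * (H * 2 ^ k) ≤ D → D ≤ 36 * (H * 2 ^ k) → r + 1 ≤ Mx → IPath e (r + 1) →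
      hn (z - pv e D (r + 1)) ≤ 2 ^ (k + 2) → cl z = (if Even b then 0 else 2) →
      cl (e r) = (if Even b then 2 else 1) → a * mm k ≤ b → (b : ℝ) ≤ A * mm k →
      ENNReal.ofReal (c * (Ub k / (4 ^ k * mm k))) ≤
        gf {Q | AS e D (2 ^ (k + 9)) r (pv e D (r + 1)) Q ∧ en Q = z ∧ Q.length = b} := by
  obtain ⟨HL, hHL⟩ := JNT.lowNar_M 4 (a / 2) A (by norm_num) (by linarith) (by linarith)
  obtain ⟨cT, A0, lT, hcT, hA0, hT⟩ := turn_short
  refine ⟨max HL (2 ^ 13), le_max_right _ _, fun H hH Mx => ?_⟩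
  have hH1 : HL ≤ 4 * H := by
    have := (le_max_left _ _).trans hH
    omega
  have hH2 : 2 ^ 13 ≤ H := (le_max_right _ _).trans hH
  obtain ⟨cL, kL, hcL, hL⟩ := hHL (4 * H) hH1
  obtain ⟨N, hN⟩ : ∃ N, N = bq (Mx + 1) := ⟨_, rfl⟩
  -- the scale of the turns
  obtain ⟨s, hs1, hs2⟩ : ∃ s : ℕ, 3 * N + 3 ≤ 2 ^ s ∧ Mx * (A0 + 2) + 1 ≤ a / 2 * 2 ^ s := by
    obtain ⟨s1, hs1⟩ : ∃ s1 : ℕ, (Mx * (A0 + 2) + 1) / (a / 2) ≤ s1 := exists_nat_ge _
    refine ⟨max (3 * N + 3) s1, ?_, ?_⟩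
    · exact (le_max_left _ _).trans Nat.lt_two_pow_self.le
    · rw [div_le_iff₀ (by linarith)] at hs1
      have h1 : (s1 : ℝ) ≤ 2 ^ (max (3 * N + 3) s1) := by
        have : s1 ≤ 2 ^ (max (3 * N + 3) s1) := (le_max_right _ _).trans Nat.lt_two_pow_self.le
        exact_mod_cast this
      nlinarith
  obtain ⟨cS, lS, hcS, hS⟩ := vs_mass (36 * H * 2 ^ s) (one_pos : (0 : ℝ) < 1)
  obtain ⟨Cb, hCb, hb⟩ := UU_scale (3 * N + 3)
  have hCb0 : 0 < Cb := by linarith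
  obtain ⟨ρ, hρ, hρ1, hρ2, hρ3⟩ : ∃ ρ : ℝ, 0 < ρ ∧ ρ * Cb ≤ cS ∧ ρ * Cb * Cb ≤ cS * cT ∧ ρ ≤ 1 := by
    refine ⟨min (cS / Cb) (min (cS * cT / (Cb * Cb)) 1), by positivity, ?_, ?_, ?_⟩
    · rw [← le_div_iff₀ hCb0]
      exact min_le_left _ _
    · rw [mul_assoc, ← le_div_iff₀ (by positivity)]
      exact (min_le_right _ _).trans (min_le_left _ _)
    · exact (min_le_right _ _).trans (min_le_right _ _)
  refine ⟨ρ ^ Mx * cS * cL / Cb, max (lT + s) (max (lS + s) kL), by positivity,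
    fun k r b D e z hk hD1 hD2 hr h hz hcz hce hb1 hb2 => ?_⟩
  have hkT : lT + s ≤ k := (le_max_left _ _).trans hk
  have hkS : lS + s ≤ k := (le_max_left _ _).trans ((le_max_right _ _).trans hk)
  have hkL : kL ≤ k := (le_max_right _ _).trans ((le_max_right _ _).trans hk)
  obtain ⟨l, hl⟩ : ∃ l, k = l + s := ⟨k - s, by omega⟩
  obtain ⟨S, hSt, hSl, hSm⟩ := hT l (by omega)
  have hSS := fun t => hS l t (by omega)
  have hU : 0 < Ub l := Ub_pos l
  have hUk : 0 < Ub k := Ub_pos k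
  have hmml := mm_pos l
  have hmmk := mm_pos k
  have hms : 2 ^ s * mm l ≤ mm k := by
    rw [hl]
    exact mm_low l s
  obtain ⟨R, hR⟩ : ∃ R : ℤ, R = 2 ^ l := ⟨_, rfl⟩
  have hR1 : 1 ≤ R := by
    rw [hR]
    exact one_le_pow₀ (by norm_num)
  have hkR : (2 : ℤ) ^ k = 2 ^ s * R := by
    rw [hl, hR, pow_add]
    ring
  have hs1' : (3 * (N : ℤ) + 3) ≤ 2 ^ s := by exact_mod_cast hs1
  have hNR : (3 * (N : ℤ) + 3) * R ≤ 2 ^ k := by
    rw [hkR]
    exact mul_le_mul_of_nonneg_right hs1' (by linarith)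
  have hH2' : (8192 : ℤ) ≤ H := by
    have : 8192 ≤ H := hH2
    exact_mod_cast this
  have hk0 : (0 : ℤ) < 2 ^ k := by positivity
  have hHk : 8192 * (2 : ℤ) ^ k ≤ H * 2 ^ k := mul_le_mul_of_nonneg_right hH2' hk0.le
  have hNR0 : 0 ≤ (N : ℤ) * R := mul_nonneg (Int.natCast_nonneg _) (by linarith)
  have hNk : 3 * ((N : ℤ) * R) + 3 * R ≤ 2 ^ k := by
    refine le_trans (le_of_eq ?_) hNR
    ring
  obtain ⟨X, hX⟩ : ∃ X : ℤ, X = ((3 * N + 3 : ℕ) + 1) * 2 ^ l := ⟨_, rfl⟩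
  have hX' : X = 3 * (N * R) + 4 * R := by
    rw [hX, hR]
    push_cast
    ring
  -- the chain
  obtain ⟨AA, K, hK, hAA, hDf, hgf⟩ := chain (l := l) (D := D) (X := X) h (N := 3 * N + 3) (H := 36 * H * 2 ^ s)
    (Cb := Cb) (ρ := ρ) (by
      have := bq_mono (show r + 1 ≤ Mx + 1 by omega)
      rw [← hN] at this
      omega) hX (by
      rw [← hR]
      push_cast
      nlinarith) (by
      push_cast
      rw [← hR]
      calc D ≤ 36 * (H * 2 ^ k) := hD2
        _ = _ := by rw [hkR]; ring) hSt hSl hA0.le hcT hcS hCb hSm hSS hb hρ hρ1 hρ2 r (by omega)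
  have hbr : (bq r : ℤ) * R ≤ N * R := by
    have h1 : bq r ≤ N := by
      rw [hN]
      exact bq_mono (by omega)
    have h2 : (bq r : ℤ) ≤ N := by exact_mod_cast h1
    exact mul_le_mul_of_nonneg_right h2 (by linarith)
  have hbr0 : 0 ≤ (bq r : ℤ) * R := mul_nonneg (Int.natCast_nonneg _) (by linarith)
  generalize bq r = N1 at hAA hbr hbr0
  obtain ⟨T1, hT1⟩ : ∃ T1 : ℤ, T1 = 9 * (H * 2 ^ k) := ⟨_, rfl⟩
  obtain ⟨s', hs'⟩ : ∃ s' : ℤ, s' = D - T1 := ⟨_, rfl⟩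
  have hBS : ∀ A ∈ AA, BS e D (N1 * 2 ^ l) (2 ^ l) (2 * D + X) r (pv e D r) A := fun A hA => (hAA A hA).1
  have hRk : R ≤ 2 ^ k := by linarith
  -- the narrow part of the last segment
  have c1 := cl_SB (ε := 1) (t1 := s') (B' := 2 ^ k) h (by omega) hBS (by rw [← hR]; linarith)
    (by rw [← hR]; linarith) (by rw [← hR]; linarith) (by linarith) (by linarith)
  have m1 := ms_SB (ε := 1) (t1 := s') (c := cS * Ub l) (H := 36 * H * 2 ^ s) h (by omega : r < r + 1) hBS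
    (by rw [← hR]; linarith) (by
      push_cast
      rw [← hR]
      have e1 : 3 * (36 * (H : ℤ) * 2 ^ s * R) = 108 * (H * 2 ^ k) := by rw [hkR]; ring
      rw [e1]
      linarith) (by rw [← hR]; linarith) (by linarith) hSS
  have g1 := of_step hK (pow_nonneg hρ.le r) (by positivity : 0 ≤ cS * Ub l) m1 hgf le_rfl hDf le_rfl
  have l1 : ∀ Q ∈ Pr AA (VB e D s' r l 1), (Q.length : ℝ) ≤ a / 2 * mm k := by
    rintro Q ⟨A, hA, V, hV, rfl⟩
    rw [List.length_append]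
    push_cast
    have h1 := (hAA A hA).2
    have h2 := hV.2.2.2
    have h3 : (r : ℝ) + 1 ≤ Mx := by exact_mod_cast hr
    have h4 : (r : ℝ) * ((A0 + 1) * mm l) ≤ Mx * ((A0 + 1) * mm l) :=
      mul_le_mul_of_nonneg_right (by linarith) (by positivity)
    have h5 : (Mx * (A0 + 2) + 1) * mm l ≤ a / 2 * 2 ^ s * mm l := mul_le_mul_of_nonneg_right hs2 hmml.le
    have h6 : a / 2 * (2 ^ s * mm l) ≤ a / 2 * mm k := mul_le_mul_of_nonneg_left hms (by linarith)
    have h7 : (0 : ℝ) ≤ r := Nat.cast_nonneg r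
    nlinarith
  obtain ⟨A3, hA3⟩ : ∃ A3, A3 = Pr AA (VB e D s' r l 1) := ⟨_, rfl⟩
  rw [← hA3] at c1 m1 g1 l1
  have d1 : gf (Df A3 BU) ≤ ENNReal.ofReal (Cb * Ub l) := by
    have c1' := cl_SB (ε := 1) (t1 := s') (B' := (3 * N + 3) * R) h (by omega) hBS (by rw [← hR]; linarith)
      (by rw [← hR]; nlinarith) (by rw [← hR]; nlinarith) (by linarith) (by linarith)
    rw [← hA3] at c1'
    refine df_num (d := e r) (c := pv e D r + s' • e r) (b := 3 * N + 3) hb le_rfl fun A hA => ⟨(c1' A hA).dir, ?_⟩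
    have := (c1' A hA).pos
    rw [hR] at this
    push_cast
    exact this
  -- the last part
  obtain ⟨w1, w2, w3⟩ := last_cl h hH2 hT1 hs' hD1 c1 hz hcz hce
  have hlen : ∀ A ∈ A3, A.length ≤ b := by
    intro A hA
    have h1 := l1 A hA
    have h2 : (A.length : ℝ) ≤ b := by nlinarith
    exact_mod_cast h2
  have mL : ∀ A ∈ A3, ENNReal.ofReal (cL * (Ub k / (4 ^ k * mm k))) ≤ gf (VL k z b A) := by
    intro A hA
    obtain ⟨f1, f2, f3, f4, f5⟩ := w2 A hA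
    have hA1 := hlen A hA
    have hA2 := l1 A hA
    obtain ⟨h0, hh0⟩ : ∃ h0 : ℕ, h0 = (ip (fr A z) up / 3).toNat := ⟨_, rfl⟩
    have hh1 : ip (fr A z) up = 3 * (h0 : ℤ) := by omega
    have hpar : Even ((fr A z).1 - (h0 : ℤ)) := by
      have h4 : 2 * (fr A z).2 + (fr A z).1 = 3 * (h0 : ℤ) := by
        rw [← hh1]
        simp only [ip, up]
        ring
      exact ⟨h0 - (fr A z).2, by linarith⟩
    have hbe : Even (b - A.length) := by
      rw [Nat.even_sub hA1]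
      exact f5.symm
    have := hL k h0 (b - A.length) (fr A z).1 hkL (by
      have h5 : (4 * H * 2 ^ k : ℤ) ≤ h0 := by
        rw [hT1] at f2
        linarith
      exact_mod_cast h5) (by
      have h5 : (h0 : ℤ) ≤ 2 * (4 * H * 2 ^ k) := by
        rw [hT1] at f3
        linarith
      exact_mod_cast h5) hpar (by
      have h6 : ((|(fr A z).1| : ℤ) : ℝ) ≤ ((4 * 2 ^ k : ℤ) : ℝ) := by exact_mod_cast f4
      push_cast at h6
      exact h6) hbe (by
      rw [conv hA1]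
      show a / 2 * mm k ≤ _
      linarith) (by
      rw [conv hA1]
      refine le_trans ?_ hb2
      have : (0 : ℝ) ≤ A.length := Nat.cast_nonneg _
      linarith)
    refine this.trans (gf_mono ?_)
    rintro V ⟨g2, g3, g4⟩
    rw [hh0] at g2
    exact ⟨g2, g3, g4⟩
  have m3 := mass_S (VV := VL k z b) w1 (fun A hA V hV => by
    obtain ⟨f1, f2, f3, f4, f5⟩ := w2 A hA
    obtain ⟨v1, v2, v3, v4⟩ := vl_facts f1 (by linarith) hV
    refine ⟨v1, v4, ?_⟩
    rw [v3, ← ip_fr]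
    exact f3) mL
  have g3 := of_step (K := Cb * Ub l) (x := ρ ^ r * cS / Cb) (u := cL * (Ub k / (4 ^ k * mm k)))
    (y := ρ ^ Mx * cS * cL / Cb * (Ub k / (4 ^ k * mm k))) (by positivity) (by positivity) (by positivity) m3
    (le_trans (ENNReal.ofReal_le_ofReal (le_of_eq (by field_simp))) g1) le_rfl d1 (by
      have h1 : ρ ^ Mx ≤ ρ ^ r := pow_le_pow_of_le_one hρ.le hρ3 (by omega)
      calc ρ ^ Mx * cS * cL / Cb * (Ub k / (4 ^ k * mm k)) = ρ ^ Mx * (cS * cL / Cb * (Ub k / (4 ^ k * mm k))) := by ring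
        _ ≤ ρ ^ r * (cS * cL / Cb * (Ub k / (4 ^ k * mm k))) := mul_le_mul_of_nonneg_right h1 (by positivity)
        _ = _ := by ring)
  refine g3.trans (gf_mono ?_)
  rintro Q ⟨A, hA, V, hV, rfl⟩
  obtain ⟨q1, q2⟩ := w3 A hA V hV
  refine ⟨q1, q2, ?_⟩
  have h1 := hlen A hA
  rw [List.length_append, hV.2.1]
  omega

/-- **row G0 of ARM2** -/
theorem tubeSt : ARM.TubeSt := by
  intro a A ha haA
  obtain ⟨c0, C0, hc0, hC0, hm⟩ := ml_mm
  obtain ⟨H0, hH0, h⟩ := tube (a / C0) (A / c0) (by positivity) (by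
    have h1 := hm 0
    have h2 : c0 ≤ C0 := by
      have h3 : 0 < ARM.ml 0 := Real.rpow_pos_of_pos (by norm_num) _
      have h4 := h1.1.trans h1.2
      exact le_of_mul_le_mul_right h4 h3
    exact div_le_div₀ (by linarith) haA hc0 h2)
  refine ⟨H0, hH0, fun H hH Mx => ?_⟩
  obtain ⟨c, k0, hc, h⟩ := h H hH Mx
  refine ⟨c / C0, k0, by positivity, fun k r b D e z hk hD1 hD2 hr1 hr hE he hz hcz hce hb1 hb2 => ?_⟩
  obtain ⟨r', rfl⟩ : ∃ r', r = r' + 1 := ⟨r - 1, by omega⟩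
  have hE' : IPath e (r' + 1) := ⟨hE.dir, fun _ => he, hE.tur, hE.ind⟩
  have hml : 0 < ARM.ml k := Real.rpow_pos_of_pos (by norm_num) _
  obtain ⟨hm1, hm2⟩ := hm k
  have hmmk := mm_pos k
  have hUk : 0 < Ub k := Ub_pos k
  have h1 := h k r' b D e z hk hD1 hD2 hr hE' hz hcz hce (by
    refine le_trans ?_ hb1
    rw [div_mul_eq_mul_div, div_le_iff₀ hC0]
    nlinarith) (by
    refine hb2.trans ?_
    rw [div_mul_eq_mul_div, le_div_iff₀ hc0]
    nlinarith)
  refine le_trans (ENNReal.ofReal_le_ofReal ?_) (h1.trans (gf_mono ?_))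
  · rw [div_mul_eq_mul_div, div_le_iff₀ hC0]
    have h2 : Ub k / (4 ^ k * ARM.ml k) ≤ Ub k / (4 ^ k * mm k) * C0 := by
      rw [div_mul_eq_mul_div, div_le_div_iff₀ (by positivity) (by positivity)]
      have h3 : Ub k * 4 ^ k * mm k ≤ Ub k * 4 ^ k * (C0 * ARM.ml k) := mul_le_mul_of_nonneg_left hm2 (by positivity)
      linarith
    calc c * (Ub k / (4 ^ k * ARM.ml k)) ≤ c * (Ub k / (4 ^ k * mm k) * C0) := mul_le_mul_of_nonneg_left h2 hc.le
      _ = _ := by ring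
  · rintro Q ⟨g1, g2, g3⟩
    refine ⟨⟨g1.sa, g2, g1.dir, fun i hi => ?_, fun i h1 hi => ?_, fun i hi => ?_⟩, g3⟩
    · obtain ⟨j, -, hj, hj2⟩ := g1.rg i hi
      exact ⟨j, hj, hj2⟩
    · rcases g1.st i h1 hi with g4 | ⟨j, hj0, hj, hj2⟩
      · exact Or.inl g4
      · exact Or.inr ⟨j, hj0, hj, hj2⟩
    · rcases g1.bd i hi with g4 | ⟨j, -, hj, hj2⟩
      · left
        rw [g2] at g4
        exact g4
      · exact Or.inr ⟨j, by omega, hj2⟩

end AR

end HexObs
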