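import Pool.Agent.ARM2.TurnG

/-!
# ARM2: the mass of the turns with few letters (helper51)

A turn with many letters is put into a bridge with many letters: straight part, turn, straight part, turn back, straight part.
-/

set_option autoImplicit false

namespace HexObs

namespace AR

open Finset TIW TS SDN POL

open scoped ENNReal

/-- bridges from the levels -/
lemma bu_of {t : List Bool} (hs : t ∈ SA) (hd : de t = up) (h1 : ∀ j, 1 ≤ j → j ≤ t.length → 0 < ip (vx oo up t j) up)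
    (h2 : ∀ j, j ≤ t.length → ip (vx oo up t j) up ≤ ip (en t) up) : t ∈ BU ∧ 3 * (hgt t : ℤ) = ip (en t) up := by
  have hlevZ : ∃ n : ℕ, lev t t.length = 3 * n := by
    have hm := lev_mod t t.length
    have h2 : 0 ≤ lev t t.length := by
      have := h2 0 (Nat.zero_le _)
      have h0 : ip (vx oo up t 0) up = 0 := lev_zero t
      rw [h0] at this
      exact this
    have he : Even t.length := by
      by_contra hne
      have h3 := cl_dx up t t.length
      rw [if_neg hne] at h3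
      have h4 : dx up t t.length = up := hd
      rw [h4] at h3
      revert h3
      decide
    rw [if_pos he] at hm
    exact ⟨(lev t t.length / 3).toNat, by omega⟩
  obtain ⟨n, hn⟩ := hlevZ
  have hB : t ∈ Brd n := by
    refine mem_Brd.2 ⟨fun j hj hjl => ⟨h1 j hj hjl, ?_⟩, fun a b hab hb he => hs.inj a b hab hb he, hd, hn⟩
    have := h2 j hjl
    have e5 : ip (en t) up = lev t t.length := rfl
    rw [e5, hn] at this
    exact this
  refine ⟨⟨n, hB⟩, ?_⟩
  rw [hgt_eq hB]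
  exact hn.symm

lemma long_one {n : ℕ} {y C : ℝ} (h : NTm.TL (2 ^ n) y ≤ ENNReal.ofReal C) :
    gf {Z | Z ∈ BU ∧ hgt Z ≤ 2 ^ n ∧ y ≤ (Z.length : ℝ)} ≤ ENNReal.ofReal C := by
  have h1 : {Z | Z ∈ BU ∧ hgt Z ≤ 2 ^ n ∧ y ≤ (Z.length : ℝ)} ⊆
      ⋃ h ∈ range (2 ^ n + 1), {Z | Z ∈ Brd h ∧ y ≤ (Z.length : ℝ)} := by
    rintro Z ⟨⟨m, hm⟩, h2, h3⟩
    rw [hgt_eq hm] at h2
    rw [Set.mem_iUnion₂]
    exact ⟨m, mem_range.2 (by omega), hm, h3⟩
  exact (gf_mono h1).trans ((BAR.gf_bi_le _ _).trans h)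

lemma mm_up : ∃ C : ℝ, 1 ≤ C ∧ ∀ l j : ℕ, mm (l + j) ≤ C ^ j * mm l := by
  obtain ⟨C1, hC1, hup⟩ := NTA.mup_M
  refine ⟨C1, hC1, fun l j => ?_⟩
  induction j with
  | zero => rw [pow_zero, one_mul, add_zero]
  | succ j ih =>
    calc mm (l + (j + 1)) ≤ C1 * mm (l + j) := hup (l + j)
      _ ≤ C1 * (C1 ^ j * mm l) := mul_le_mul_of_nonneg_left ih (by linarith)
      _ = _ := by ring

lemma mm_pos (l : ℕ) : 0 < mm l := NTA.mlow_M.pos l

/-- long bridges -/
lemma long_mass (j : ℕ) : ∃ C : ℝ, 0 < C ∧ ∀ (l n : ℕ) (y : ℝ), n = l + j → 0 < y →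
    gf {Z | Z ∈ BU ∧ hgt Z ≤ 2 ^ n ∧ y * mm l ≤ (Z.length : ℝ)} ≤ ENNReal.ofReal (C / y * Ub l) := by
  obtain ⟨C, hC, hM⟩ := NTA.markov_M
  obtain ⟨C1, hC1, hup⟩ := mm_up
  refine ⟨C * (C1 ^ j * 2 ^ j), by positivity, fun l n y hn hy => ?_⟩
  have hm : 0 < mm l := mm_pos l
  have h0 : NTm.TL (2 ^ n) (y * mm l) ≤ ENNReal.ofReal (C * mm n / (y * mm l) * Ub n) := hM n (y * mm l) (by positivity)
  refine (long_one h0).trans (ENNReal.ofReal_le_ofReal ?_)
  have h2 := hup l j
  have h3 := TPC.Ub_pow l j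
  rw [← hn] at h2 h3
  have h4 : 0 < Ub n := Ub_pos _
  calc C * mm n / (y * mm l) * Ub n ≤ C * (C1 ^ j * mm l) / (y * mm l) * (2 ^ j * Ub l) := by
        gcongr
    _ = C * (C1 ^ j * 2 ^ j) / y * Ub l := by
        field_simp

/-- the path with two turns -/
def eM (i : ℕ) : Pt := if i = 1 then rotR up else up

lemma ipM : IPath eM 3 := by
  have e0 : eM 0 = up := rfl
  have e1 : eM 1 = rotR up := rfl
  have e2 : eM 2 = up := rfl
  have p0 : ps eM 0 = 0 := rfl
  have p1 : ps eM 1 = up := by rw [ps_succ, p0, e0, zero_add]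
  have p2 : ps eM 2 = up + rotR up := by rw [ps_succ, p1, e1]
  have p3 : ps eM 3 = up + rotR up + up := by rw [ps_succ, p2, e2]
  refine ⟨fun i hi => ?_, fun _ => rfl, fun i hi => ?_, fun i j hij hj => ?_⟩
  · interval_cases i
    · rw [e0]; decide
    · rw [e1]; decide
    · rw [e2]; decide
  · have hi2 : i < 2 := by omega
    interval_cases i
    · rw [e0, e1]; exact Or.inr (Or.inr rfl)
    · rw [e1, e2]; right; left; decide
  · interval_cases j
    · omega
    · omega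
    · obtain rfl : i = 0 := by omega
      rw [p2, p0]; decide
    · have : i = 0 ∨ i = 1 := by omega
      rcases this with rfl | rfl
      · rw [p3, p0]; decide
      · rw [p3, p1]; decide

lemma ns_lev {v d y : Pt} {D B : ℤ} {a b : ℤ} (hd : ip d up = b) (hv : ip v up = a) (hb : 0 ≤ b) (h : NS v d D B y) :
    a - B ≤ ip y up ∧ ip y up ≤ a + b * D + B := by
  obtain ⟨t, h0, h1, h2⟩ := h
  have e1 : y = (y - (v + t • d)) + (v + t • d) := by abel
  have h3 := ip_le_hn (y - (v + t • d)) upd'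
  have h4 := neg_hn_le_ip (y - (v + t • d)) upd'
  have e2 : ip y up = ip (y - (v + t • d)) up + (a + t * b) := by
    conv_lhs => rw [e1]
    rw [ip_add_left, ip_add_left, ip_smul, hv, hd]
  rw [e2]
  constructor <;> nlinarith [mul_nonneg h0 hb, mul_nonneg (sub_nonneg.2 h1) hb]

/-- the closed bridge -/
lemma q_bu {D B : ℤ} (hD : 4 * B ≤ D) (hD0 : 0 < D) {Q : List Bool} (hQ : AS eM D B 2 (pv eM D 3) Q) :
    Q ∈ BU ∧ 3 * (hgt Q : ℤ) ≤ 5 * D + B := by
  have e0 : eM 0 = up := rfl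
  have e1 : eM 1 = rotR up := rfl
  have e2 : eM 2 = up := rfl
  have i0 : ip (eM 0) up = 2 := by rw [e0]; decide
  have i1 : ip (eM 1) up = 1 := by rw [e1]; decide
  have i2 : ip (eM 2) up = 2 := by rw [e2]; decide
  have v0 : ip (pv eM D 0) up = 0 := by
    unfold pv ps
    rw [range_zero, sum_empty, smul_zero]
    decide
  have v1 : ip (pv eM D 1) up = 2 * D := by
    rw [pv_succ, ip_add_left, v0, ip_smul, i0]
    ring
  have v2 : ip (pv eM D 2) up = 3 * D := by
    rw [pv_succ, ip_add_left, v1, ip_smul, i1]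
    ring
  have v3 : ip (pv eM D 3) up = 5 * D := by
    rw [pv_succ, ip_add_left, v2, ip_smul, i2]
    ring
  have hB : 0 ≤ B := (hn_nonneg _).trans hQ.pos
  have hen : 5 * D - B ≤ ip (en Q) up ∧ ip (en Q) up ≤ 5 * D + B := by
    have h3 := ip_le_hn (en Q - pv eM D 3) upd'
    have h4 := neg_hn_le_ip (en Q - pv eM D 3) upd'
    rw [ip_sub_left, v3] at h3 h4
    have := hQ.pos
    constructor <;> linarith
  have h := bu_of hQ.sa (by rw [hQ.dir, e2]) (fun j hj hjl => ?_) fun j hjl => ?_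
  · exact ⟨h.1, by rw [h.2]; exact hen.2⟩
  · rcases hQ.st j hj hjl with g | ⟨a, ha, ha', g⟩
    · exact g
    · have : a = 1 ∨ a = 2 := by omega
      rcases this with rfl | rfl
      · have := (ns_lev i1 v1 (by norm_num) g).1
        linarith
      · have := (ns_lev i2 v2 (by norm_num) g).1
        linarith
  · rcases hQ.bd j hjl with g | ⟨a, ha, ha', g⟩
    · rw [e2, ip_sub_left] at g
      linarith
    · have : a = 0 ∨ a = 1 := by omega
      rcases this with rfl | rfl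
      · have := (ns_lev i0 v0 (by norm_num) g).2
        linarith
      · have := (ns_lev i1 v1 (by norm_num) g).2
        linarith

/-- **the mass of the turns with few letters** -/
theorem turn_short : ∃ (c A0 : ℝ) (l0 : ℕ), 0 < c ∧ 0 < A0 ∧ ∀ l : ℕ, l0 ≤ l → ∃ S : Set (List Bool), Turn l S ∧
    (∀ V ∈ S, (V.length : ℝ) ≤ A0 * mm l) ∧ ENNReal.ofReal (c * Ub l) ≤ gf S := by
  obtain ⟨cT, lT, hcT, hT⟩ := turnSt
  obtain ⟨cS, lS, hcS, hS⟩ := vs_mass (2 ^ 16) (one_pos : (0 : ℝ) < 1)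
  obtain ⟨CL, hCL, hL⟩ := long_mass 16
  obtain ⟨Cb, hCb, hb⟩ := UU_scale 8192
  obtain ⟨K, hK⟩ : ∃ K : ℝ, K = Cb / cS * (Cb / cS * (Cb / cT * (Cb / cS))) := ⟨_, rfl⟩
  have hCb0 : 0 < Cb := by linarith
  have hK0 : 0 < K := by
    rw [hK]
    positivity
  obtain ⟨A0, hA0⟩ : ∃ A0 : ℝ, A0 = 2 * K * CL / cT := ⟨_, rfl⟩
  have hA00 : 0 < A0 := by
    rw [hA0]
    positivity
  refine ⟨cT / 2, A0, max lT lS, by positivity, hA00, fun l hl => ?_⟩
  obtain ⟨S, hSt, hSm⟩ := hT l ((le_max_left _ _).trans hl)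
  have hSS := fun t => hS l t ((le_max_right _ _).trans hl)
  have hU : 0 < Ub l := Ub_pos l
  obtain ⟨R, hR⟩ : ∃ R : ℤ, R = 2 ^ l := ⟨_, rfl⟩
  have hR1 : 1 ≤ R := by rw [hR]; exact one_le_pow₀ (by norm_num)
  have hR9 : (2 : ℤ) ^ (l + 9) = 512 * R := by rw [hR]; ring
  obtain ⟨X, hX⟩ : ∃ X : ℤ, X = 8192 * R := ⟨_, rfl⟩
  obtain ⟨D, hD⟩ : ∃ D : ℤ, D = 32768 * R := ⟨_, rfl⟩
  -- the long turns
  obtain ⟨XL, hXL⟩ : ∃ XL : Set (List Bool), XL = {V | V ∈ S ∧ A0 * mm l ≤ (V.length : ℝ)} := ⟨_, rfl⟩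
  have hXLS : XL ⊆ TW false S := by
    rw [hXL]
    exact fun V hV => hV.1
  have key : gf XL ≤ ENNReal.ofReal (cT / 2 * Ub l) := by
    have hR' : (2 : ℤ) ^ l = R := hR.symm
    -- start
    have c0 : ∀ A ∈ ({[]} : Set (List Bool)), BS eM D 0 (2 ^ l) (2 * D + X) 0 (pv eM D 0) A := by
      intro A hA
      rw [Set.mem_singleton_iff] at hA
      rw [hA]
      exact cl_nil ipM (by norm_num) (by rw [hD]; linarith)
    -- straight
    have c1 := cl_S (ε := 1) (B' := 3 * R) ipM (by norm_num) c0 (by rw [hR', hX]; linarith) (by rw [hR']; linarith)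
      (by rw [hD]; linarith) (by rw [hD]; linarith)
    have m1 := ms_S (ε := 1) (c := cS * Ub l) (H := 2 ^ 16) ipM (by norm_num) c0 (by rw [hR', hX]; linarith)
      (by rw [hD, hR']; push_cast; linarith) (by rw [hD]; linarith) (fun t h0 h1 => hSS t h0 (by exact_mod_cast h1))
    -- turn
    have c2 := cl_T (b := false) (B' := 515 * R) (X := X) ipM (by norm_num) rfl hSt hXLS c1 (by rw [hX]; linarith)
      (by rw [hR9]; linarith) (by rw [hR', hX, hD]; linarith)
    have m2 := ms_T (b := false) ipM (by norm_num) hSt hXLS c1 (by rw [hR9, hD]; linarith)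
    -- straight
    have c3 := cl_S (ε := 1) (B' := 1548 * R) ipM (by norm_num) c2 (by rw [hR', hX]; linarith) (by rw [hR']; linarith)
      (by rw [hD]; linarith) (by rw [hD]; linarith)
    have m3 := ms_S (ε := 1) (c := cS * Ub l) (H := 2 ^ 16) ipM (by norm_num) c2 (by rw [hR', hX]; linarith)
      (by rw [hD, hR']; push_cast; linarith) (by rw [hD]; linarith) (fun t h0 h1 => hSS t h0 (by exact_mod_cast h1))
    -- turn
    have c4 := cl_T (b := true) (B' := 2060 * R) (X := X) (VV := TW true S) ipM (by norm_num) (by decide) hSt subset_rfl c3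
      (by rw [hX]; linarith) (by rw [hR9]; linarith) (by rw [hR', hX, hD]; linarith)
    have m4 := ms_T (b := true) (VV := TW true S) ipM (by norm_num) hSt subset_rfl c3 (by rw [hR9, hD]; linarith)
    -- straight
    have c5 := cl_S (ε := 1) (B' := 6183 * R) ipM (by norm_num) c4 (by rw [hR', hX]; linarith) (by rw [hR']; linarith)
      (by rw [hD]; linarith) (by rw [hD]; linarith)
    have m5 := ms_S (ε := 1) (c := cS * Ub l) (H := 2 ^ 16) ipM (by norm_num) c4 (by rw [hR', hX]; linarith)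
      (by rw [hD, hR']; push_cast; linarith) (by rw [hD]; linarith) (fun t h0 h1 => hSS t h0 (by exact_mod_cast h1))
    -- the masses
    have g1 : ENNReal.ofReal (cS * Ub l) ≤ gf (Pr {[]} (VA eM D 0 l 1)) := by
      rw [gf_nil, one_mul] at m1
      refine m1.trans ?_
      calc _ ≤ 1 * gf (Pr {[]} (VA eM D 0 l 1)) := mul_le_mul' df_nil le_rfl
        _ = _ := one_mul _
    have d2 : gf (Df (Pr {[]} (VA eM D 0 l 1)) BU) ≤ ENNReal.ofReal (Cb * Ub l) :=
      df_num (d := eM 0) (c := pv eM D 1) (b := 3) hb (by norm_num) fun A hA => ⟨(c1 A hA).dir, by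
        have := (c1 A hA).pos
        rw [hR']
        exact_mod_cast this⟩
    have d3 : gf (Df (Pr (Pr {[]} (VA eM D 0 l 1)) fun _ => XL) BU) ≤ ENNReal.ofReal (Cb * Ub l) :=
      df_num (d := eM 1) (c := pv eM D 1) (b := 515) hb (by norm_num) fun A hA => ⟨(c2 A hA).dir, by
        have := (c2 A hA).pos
        rw [hR']
        exact_mod_cast this⟩
    have d4 := df_num (l := l) (AA := Pr (Pr (Pr {[]} (VA eM D 0 l 1)) fun _ => XL) (VA eM D 1 l 1)) (d := eM 1)
      (c := pv eM D 2) (b := 1548) hb (by norm_num) fun A hA => ⟨(c3 A hA).dir, by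
        have := (c3 A hA).pos
        rw [hR']
        exact_mod_cast this⟩
    have d5 := df_num (l := l) (AA := Pr (Pr (Pr (Pr {[]} (VA eM D 0 l 1)) fun _ => XL) (VA eM D 1 l 1)) fun _ => TW true S)
      (d := eM 2) (c := pv eM D 2) (b := 2060) hb (by norm_num) fun A hA => ⟨(c4 A hA).dir, by
        have := (c4 A hA).pos
        rw [hR']
        exact_mod_cast this⟩
    have m2' := (mul_comm (gf XL) (gf (Pr {[]} (VA eM D 0 l 1)))).trans_le m2
    have r2 := of_ratio hcS hU hCb0.le m2' g1 d2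
    have r3 := of_ratio hcS hU hCb0.le m3 le_rfl d3
    have r4 := of_ratio hcT hU hCb0.le m4 (by rw [tw_mass]; exact hSm) d4
    have r5 := of_ratio hcS hU hCb0.le m5 le_rfl d5
    have r6 : gf XL ≤ ENNReal.ofReal K * gf (Pr (Pr (Pr (Pr (Pr {[]} (VA eM D 0 l 1)) fun _ => XL) (VA eM D 1 l 1))
        fun _ => TW true S) (VA eM D 2 l 1)) := by
      refine (r2.trans (mul_le_mul' le_rfl (r3.trans (mul_le_mul' le_rfl (r4.trans (mul_le_mul' le_rfl r5)))))).trans
        (le_of_eq ?_)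
      rw [hK, ENNReal.ofReal_mul (by positivity), ENNReal.ofReal_mul (by positivity), ENNReal.ofReal_mul (by positivity)]
      ring
    refine r6.trans ?_
    have r7 : gf (Pr (Pr (Pr (Pr (Pr {[]} (VA eM D 0 l 1)) fun _ => XL) (VA eM D 1 l 1)) fun _ => TW true S)
        (VA eM D 2 l 1)) ≤ ENNReal.ofReal (CL / A0 * Ub l) := by
      obtain ⟨n, hn⟩ : ∃ n, n = l + 16 := ⟨_, rfl⟩
      refine (gf_mono ?_).trans (hL l n A0 hn hA00)
      intro Q hQ
      obtain ⟨q1, q2⟩ := q_bu (by rw [hD]; linarith) (by rw [hD]; linarith) (c5 Q hQ)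
      refine ⟨q1, ?_, ?_⟩
      · have h1 : (hgt Q : ℤ) ≤ 2 ^ n := by
          rw [hD] at q2
          rw [hn, pow_add, hR']
          norm_num
          linarith
        exact_mod_cast h1
      · obtain ⟨A4, ⟨A3, ⟨A2, ⟨A1, hA1, V1, hV1, rfl⟩, V2, hV2, rfl⟩, V3, hV3, rfl⟩, V4, hV4, rfl⟩ := hQ
        rw [hXL] at hV1
        refine hV1.2.trans ?_
        simp only [List.length_append]
        push_cast
        have n1 : (0 : ℝ) ≤ A1.length := Nat.cast_nonneg _
        have n2 : (0 : ℝ) ≤ V2.length := Nat.cast_nonneg _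
        have n3 : (0 : ℝ) ≤ V3.length := Nat.cast_nonneg _
        have n4 : (0 : ℝ) ≤ V4.length := Nat.cast_nonneg _
        linarith
    calc ENNReal.ofReal K * _ ≤ ENNReal.ofReal K * ENNReal.ofReal (CL / A0 * Ub l) := mul_le_mul' le_rfl r7
      _ = ENNReal.ofReal (cT / 2 * Ub l) := by
          rw [← ENNReal.ofReal_mul hK0.le]
          congr 1
          rw [hA0]
          field_simp
  refine ⟨{V | V ∈ S ∧ (V.length : ℝ) ≤ A0 * mm l}, ⟨fun V hV => hSt.hp hV.1, fun V hV => hSt.odd V hV.1,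
    fun V hV => hSt.dir V hV.1, fun V hV => hSt.hgt V hV.1, fun V hV => hSt.front V hV.1⟩, fun V hV => hV.2, ?_⟩
  have h1 : S ⊆ {V | V ∈ S ∧ (V.length : ℝ) ≤ A0 * mm l} ∪ XL := by
    intro V hV
    rcases le_total (V.length : ℝ) (A0 * mm l) with h | h
    · exact Or.inl ⟨hV, h⟩
    · right
      rw [hXL]
      exact ⟨hV, h⟩
  have h2 := hSm.trans ((gf_mono h1).trans ((gf_union_le _ _).trans (add_le_add le_rfl key)))
  have e1 : cT * Ub l = cT / 2 * Ub l + cT / 2 * Ub l := by ring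
  rw [e1, ENNReal.ofReal_add (by positivity) (by positivity)] at h2
  exact (ENNReal.add_le_add_iff_right ENNReal.ofReal_ne_top).1 h2

end AR

end HexObs
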