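import Pool.Agent.ARM.PlcA
import Pool.Agent.ARM2.TubeF
import Pool.Agent.ARM2.TurnM

/-!
# ARM2: concatenation of tube words (helper51)

A is a tube word along the first p steps of the path e (last step = next step), V a tube word along the next r steps, in the
frame of the end of A: `nx A e p` = the path of V.

* `app` : A ++ V is a tube word along p + r steps; the tolerance does not grow;
* `zQ` : two such cuts of the same word differ by a bridge;
* `nx_path`, `nx_cl`, `nx_de`, `nx_hn` : path, class, direction and distance of the target in the frame of A.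
-/

set_option autoImplicit false

namespace HexObs

namespace AR

open Finset TIW TS SDN POL ARM ARM.G3

open scoped ENNReal

variable {e : ℕ → Pt} {p r r' : ℕ} {D w w' B : ℤ} {z z' z2 : Pt} {A V Z V' : List Bool}

/-- the path behind the first p steps, in the frame of the end of A -/
def nx (A : List Bool) (e : ℕ → Pt) (p : ℕ) (j : ℕ) : Pt := mulE (rc A) (e (p + j))

lemma ps_add' (e : ℕ → Pt) (p j : ℕ) : ps (fun a => e (p + a)) j = ps e (p + j) - ps e p := by
  induction j with
  | zero => simp [ps]
  | succ j ih =>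
    rw [ps_succ, ih, ← add_assoc, ps_succ]
    abel

lemma rt_pv (A : List Bool) (e : ℕ → Pt) (D : ℤ) (p j : ℕ) : mulE (rt A) (pv (nx A e p) D j) = pv e D (p + j) - pv e D p := by
  have h1 : ps (nx A e p) j = mulE (rc A) (ps e (p + j) - ps e p) := by
    rw [← ps_add', ← ps_rot]
    rfl
  unfold pv
  rw [h1, mulE_smul, rt_rc, smul_sub]

/-- near a segment of the next part -/
lemma nx_near {j : ℕ} {y : Pt} (hz : hn (en A - pv e D p) ≤ B) (h : Nr (nx A e p) D w' j y) :
    NS (pv e D (p + j)) (e (p + j)) D (w' + B) (en A + mulE (rt A) y) := by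
  have h1 := NS_rot (nrm_rt A) h
  rw [rt_pv] at h1
  have e1 : mulE (rt A) (nx A e p j) = e (p + j) := rt_rc A _
  rw [e1] at h1
  refine NS_shift h1 ?_
  have e2 : en A + mulE (rt A) y - pv e D (p + j) - (mulE (rt A) y - (pv e D (p + j) - pv e D p)) = en A - pv e D p := by
    abel
  rw [e2]
  exact hz

/-- far segments have no common point -/
lemma seg_ne (h : IPath e r) {i j : ℕ} (hij : j + 1 < i) (hi : i < r) {x : Pt} (hw : w + w' < D)
    (hy : NS (pv e D i) (e i) D w x) (hx : NS (pv e D j) (e j) D w' x) : False := by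
  have h1 := sep_seg h hij hi hy hx
  rw [sub_self, show hn (0 : Pt) = 0 by decide] at h1
  linarith

/-- **concatenation of tube words** -/
theorem app (h : IPath e (p + r)) (hp : 1 ≤ p) (hr : 1 ≤ r) (hs : e p = e (p - 1)) (hA : TubeQ e D w p z A)
    (hz : hn (z - pv e D p) ≤ B) (hV : TubeQ (nx A e p) D w' r z' V) (hw : w + (w' + B) < D) (hww : w' + B ≤ w) :
    TubeQ e D w (p + r) (z + mulE (rt A) z') (A ++ V) := by
  have hen : en A = z := hA.en
  have hz' : hn (en A - pv e D p) ≤ B := by rw [hen]; exact hz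
  have hnr : ∀ {j : ℕ} {y : Pt}, Nr (nx A e p) D w' j y → Nr e D (w' + B) (p + j) (en A + mulE (rt A) y) :=
    fun hy => nx_near hz' hy
  have dA : de A = e p := by rw [hs]; exact hA.de
  have hip : ∀ y : Pt, ip (mulE (rt A) y) (e p) = ip y up := fun y => by rw [← dA]; exact ip_rt A y
  have hvx : ∀ q, vx oo up (A ++ V) (A.length + q) = en A + mulE (rt A) (vx oo up V q) := fun q => vx_app A V q
  have hlast : nx A e p (r - 1) = mulE (rc A) (e (p + r - 1)) := by
    unfold nx
    rw [show p + (r - 1) = p + r - 1 by omega]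
  refine ⟨sa_app hA.sa hV.sa fun k hk q hq1 hq2 he => ?_, ?_, ?_, ?_, ?_, ?_⟩
  · obtain ⟨j, hj, hj1⟩ := hA.rg k hk
    rw [he] at hj1
    rcases hV.st q hq1 hq2 with g1 | ⟨j', g1, g2, g3⟩
    · rcases hA.bd k hk with g4 | ⟨j2, g4, g5⟩
      · rw [he, hen, add_sub_cancel_left, ← hs, hip] at g4
        linarith
      · obtain ⟨j3, g6, g7⟩ := hV.rg q hq2
        rw [he] at g5
        exact seg_ne h (i := p + j3) (j := j2) (by omega) (by omega) (by linarith) (hnr g7) g5
    · exact seg_ne h (i := p + j') (j := j) (by omega) (by omega) (by linarith) (hnr g3) hj1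
  · rw [en_app, hen, hV.en]
  · rw [de_app, hV.de, hlast, rt_rc]
  · intro i hi
    rcases Nat.lt_or_ge A.length i with h1 | h1
    · obtain ⟨q, rfl⟩ : ∃ q, i = A.length + q := ⟨i - A.length, by omega⟩
      rw [List.length_append] at hi
      obtain ⟨j, g1, g2⟩ := hV.rg q (by omega)
      refine ⟨p + j, by omega, ?_⟩
      rw [hvx]
      exact (hnr g2).mono hww
    · rw [vx_append (by omega)]
      obtain ⟨j, g1, g2⟩ := hA.rg i h1
      exact ⟨j, by omega, g2⟩
  · intro i hi0 hi
    rcases Nat.lt_or_ge A.length i with h1 | h1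
    · obtain ⟨q, rfl⟩ : ∃ q, i = A.length + q := ⟨i - A.length, by omega⟩
      rw [List.length_append] at hi
      obtain ⟨j, g1, g2⟩ := hV.rg q (by omega)
      refine Or.inr ⟨p + j, by omega, by omega, ?_⟩
      rw [hvx]
      exact (hnr g2).mono hww
    · rw [vx_append (by omega)]
      rcases hA.st i hi0 h1 with g | ⟨j, g0, g1, g2⟩
      · exact Or.inl g
      · exact Or.inr ⟨j, g0, by omega, g2⟩
  · intro i hi
    rcases Nat.lt_or_ge A.length i with h1 | h1
    · obtain ⟨q, rfl⟩ : ∃ q, i = A.length + q := ⟨i - A.length, by omega⟩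
      rw [List.length_append] at hi
      rw [hvx]
      rcases hV.bd q (by omega) with g | ⟨j, g1, g2⟩
      · left
        have e1 : en A + mulE (rt A) (vx oo up V q) - (z + mulE (rt A) z') = mulE (rt A) (vx oo up V q - z') := by
          rw [hen, mulE_sub]
          abel
        rw [e1]
        have e2 := ip_mulE (rt A) (vx oo up V q - z') (nx A e p (r - 1))
        rw [nrm_rt, one_mul] at e2
        have e3 : mulE (rt A) (nx A e p (r - 1)) = e (p + r - 1) := by rw [hlast, rt_rc]
        rw [e3] at e2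
        rw [e2]
        exact g
      · exact Or.inr ⟨p + j, by omega, (hnr g2).mono hww⟩
    · rw [vx_append (by omega)]
      obtain ⟨j, g1, g2⟩ := hA.rg i h1
      exact Or.inr ⟨j, by omega, g2⟩

/-- **two cuts of the same word differ by a bridge** -/
theorem zQ (h : IPath e (p + r)) (hs : e p = e (p - 1)) (hA : TubeQ e D w p z A)
    (hz : hn (z - pv e D p) ≤ B) (hA' : TubeQ e D w p z2 (A ++ Z)) (hV : TubeQ (nx A e p) D w' r z' (Z ++ V'))
    (hw : w + (w' + B) < D) : Z ∈ BU ∧ 3 * (hgt Z : ℤ) ≤ hn (z2 - z) := by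
  have hen : en A = z := hA.en
  have hz' : hn (en A - pv e D p) ≤ B := by rw [hen]; exact hz
  have dA : de A = e p := by rw [hs]; exact hA.de
  have hip : ∀ y : Pt, ip (mulE (rt A) y) (e p) = ip y up := fun y => by rw [← dA]; exact ip_rt A y
  have hdz : de Z = up := dir_same (by rw [hA.de, hA'.de])
  have e0 : ∀ j, j ≤ Z.length → vx oo up (Z ++ V') j = vx oo up Z j := fun j hj => vx_append (by omega)
  have hlen : (Z ++ V').length = Z.length + V'.length := List.length_append
  have hlen' : (A ++ Z).length = A.length + Z.length := List.length_append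
  have hvx : ∀ q, vx oo up (A ++ Z) (A.length + q) = en A + mulE (rt A) (vx oo up Z q) := fun q => vx_app A Z q
  have hzz : z2 = en A + mulE (rt A) (en Z) := by rw [← hA'.en, en_app]
  have hnr : ∀ {j : ℕ} {y : Pt}, Nr (nx A e p) D w' j y → Nr e D (w' + B) (p + j) (en A + mulE (rt A) y) :=
    fun hy => nx_near hz' hy
  have hZ : Z ∈ SA := by
    have h1 := hV.sa
    exact ⟨fun _ _ _ => Set.mem_univ _, fun a b hab hb he => h1.inj a b hab (by omega) (by
      rw [e0 a (by omega), e0 b hb]
      exact he)⟩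
  have key := bu_of hZ hdz (fun j hj1 hj2 => ?_) fun j hj => ?_
  · refine ⟨key.1, ?_⟩
    rw [key.2]
    have e1 : z2 - z = mulE (rt A) (en Z) := by rw [hzz, hen, add_sub_cancel_left]
    rw [e1, hn_mulE (nrm_rt A)]
    exact ip_le_hn _ upd'
  · rcases hV.st j hj1 (by omega) with g | ⟨j', g1, g2, g3⟩
    · rw [e0 j hj2] at g
      exact g
    · exfalso
      rw [e0 j hj2] at g3
      obtain ⟨j2, g4, g5⟩ := hA'.rg (A.length + j) (by omega)
      rw [hvx] at g5
      exact seg_ne h (i := p + j') (j := j2) (by omega) (by omega) (by linarith) (hnr g3) g5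
  · rcases hA'.bd (A.length + j) (by omega) with g | ⟨j2, g1, g2⟩
    · rw [hvx, hzz, add_sub_add_left_eq_sub, ← mulE_sub, ← hs, hip, ip_sub_left] at g
      linarith
    · exfalso
      rw [hvx] at g2
      obtain ⟨j3, g6, g7⟩ := hV.rg j (by omega)
      rw [e0 j hj] at g7
      exact seg_ne h (i := p + j3) (j := j2) (by omega) (by omega) (by linarith) (hnr g7) g2

/-! ### The target in the frame of A -/

lemma nx_path (h : IPath e (p + r)) (hr : 1 ≤ r) (hs : e p = e (p - 1)) (hd : de A = e (p - 1)) : IPath (nx A e p) r := by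
  have hc := nrm_rc A
  refine ⟨fun i hi => mulE_mem hc (h.dir _ (by omega)), fun _ => ?_, fun i hi => ?_, fun i j hij hj => ?_⟩
  · have h1 : mulE (rt A) (nx A e p 0) = mulE (rt A) up := by
      unfold nx
      rw [rt_rc, add_zero, hs, ← hd, rt_up]
    exact mulE_inj (nrm_rt A) h1
  · unfold nx
    rw [← add_assoc]
    rcases h.tur (p + i) (by omega) with g | g | g
    · left
      rw [g]
    · right
      left
      rw [g, rotL_mulE]
    · right
      right
      rw [g, rotR_mulE]
  · have e1 : ∀ i, ps (nx A e p) i = mulE (rc A) (ps e (p + i) - ps e p) := fun i => by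
      rw [← ps_add', ← ps_rot]
      rfl
    rw [e1, e1, ← mulE_sub, nrm_mulE, hc, one_mul, sub_sub_sub_cancel_right]
    exact h.ind _ _ (by omega) (by omega)

/-- the target z1 (absolute) in the frame of A -/
def tg (A : List Bool) (z1 : Pt) : Pt := mulE (rc A) (z1 - en A)

lemma rt_tg (A : List Bool) (z1 : Pt) : en A + mulE (rt A) (tg A z1) = z1 := by
  unfold tg
  rw [rt_rc]
  abel

lemma nx_hn {z1 : Pt} : hn (tg A z1 - pv (nx A e p) D r) ≤ hn (z1 - pv e D (p + r)) + hn (en A - pv e D p) := by
  have e1 : hn (tg A z1 - pv (nx A e p) D r) = hn (mulE (rt A) (tg A z1 - pv (nx A e p) D r)) := (hn_mulE (nrm_rt A) _).symm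
  have e2 : mulE (rt A) (tg A z1 - pv (nx A e p) D r) = (z1 - pv e D (p + r)) - (en A - pv e D p) := by
    rw [mulE_sub, rt_pv]
    unfold tg
    rw [rt_rc]
    abel
  rw [e1, e2]
  exact hn_sub _ _

lemma cl_mulE (u q : Pt) : cl (mulE u q) = cl u * cl q := by
  unfold cl mulE
  have h3 : (3 : ZMod 3) = 0 := by decide
  push_cast
  linear_combination (-((u.2 : ZMod 3) * (q.2 : ZMod 3))) * h3

lemma cl_rc (A : List Bool) : cl (rc A) = if Even A.length then 1 else 2 := by
  have h1 : cl (rc A) = cl (rt A) := by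
    have h3 : (3 : ZMod 3) = 0 := by decide
    unfold rc conjE cl
    push_cast
    linear_combination ((rt A).2 : ZMod 3) * h3
  have h2 := cl_mulE (rt A) up
  rw [rt_up, cl_de, cl_up'] at h2
  rw [h1]
  have key : ∀ x : ZMod 3, (∀ y : ZMod 3, y = x * 2 → (y = 2 → x = 1) ∧ (y = 1 → x = 2)) := by decide
  obtain ⟨k1, k2⟩ := key _ _ h2
  split_ifs with h
  · exact k1 (by rw [if_pos h])
  · exact k2 (by rw [if_neg h])

/-- the class of the target -/
lemma tg_cl {n : ℕ} {b : ℕ} {z1 : Pt} (hn : n = A.length + b) (hz : cl z1 = if Even n then 0 else 2) :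
    cl (tg A z1) = if Even b then 0 else 2 := by
  have h1 : cl (z1 - en A) = cl z1 - cl (en A) := by
    unfold cl
    push_cast
    simp only [Prod.fst_sub, Prod.snd_sub]
    push_cast
    ring
  unfold tg
  rw [cl_mulE, h1, hz, cl_en, cl_rc, hn]
  simp only [Nat.even_add]
  by_cases h2 : Even A.length <;> by_cases h3 : Even b <;> simp only [h2, h3, iff_true, iff_false, if_true, if_false,
    not_true_eq_false, not_false_eq_true] <;> decide

/-- the class of the last direction -/
lemma nx_cl {n b j : ℕ} (hn : n = A.length + b) (hz : cl (e (p + j)) = if Even n then 2 else 1) :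
    cl (nx A e p j) = if Even b then 2 else 1 := by
  unfold nx
  rw [cl_mulE, hz, cl_rc, hn]
  simp only [Nat.even_add]
  by_cases h2 : Even A.length <;> by_cases h3 : Even b <;> simp only [h2, h3, iff_true, iff_false, if_true, if_false,
    not_true_eq_false, not_false_eq_true] <;> decide

end AR

end HexObs
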