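import Pool.Agent.ARM2.Snake
import Pool.Agent.ARM2.TubeApp

/-!
# ARM2: words along the serpentine with any number of letters (helper51)

* `sn h M` : two steps up, then the serpentine; `sn_path`, `sn_box`, `sn_gap`;
* **`sn_word`** : a tube word along `sn h M` with exactly s letters, s even, s between R (a ml k + 3) and R (A ml k - 3) / 4.
-/

set_option autoImplicit false

namespace HexObs

namespace AR

open Finset TIW TS SDN POL ARM ARM.G3

open scoped ENNReal

/-- two steps up, then the serpentine -/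
def sn (h M i : ℕ) : Pt := if i < 2 then up else snk h M (i - 2)

/-- the number of steps -/
def sR (h M : ℕ) : ℕ := (2 * h + 4) * M + (h + 4)

lemma sn_ps {h M i : ℕ} : ps (sn h M) (2 + i) = (0, 2) + ps (snk h M) i := by
  rw [ps_add]
  have h1 : ps (sn h M) 2 = (0, 2) := by
    unfold ps
    rw [sum_range_succ, sum_range_succ, sum_range_zero]
    simp [sn, up]
  rw [h1]
  congr 1
  unfold ps
  refine sum_congr rfl fun a _ => ?_
  unfold sn
  rw [if_neg (by omega), Nat.add_sub_cancel_left]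

lemma sn_ps' {h M i : ℕ} (hi : i ≤ 2) : ps (sn h M) i = (0, (i : ℤ)) := by
  have h0 : i = 0 ∨ i = 1 ∨ i = 2 := by omega
  rcases h0 with rfl | rfl | rfl
  · simp [ps]
    rfl
  · unfold ps
    rw [sum_range_succ, sum_range_zero]
    simp [sn, up]
  · unfold ps
    rw [sum_range_succ, sum_range_succ, sum_range_zero]
    simp [sn, up]

lemma sn_ind {h M i j : ℕ} (hij : i + 1 < j) (hj : j ≤ sR h M) : 3 ≤ nrm (ps (sn h M) j - ps (sn h M) i) := by
  rcases Nat.lt_or_ge i 2 with h1 | h1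
  · rw [sn_ps' h1.le]
    rcases Nat.lt_or_ge j 2 with h2 | h2
    · omega
    · obtain ⟨q, rfl⟩ : ∃ q, j = 2 + q := ⟨j - 2, by omega⟩
      unfold sR at hj
      obtain ⟨m, s, a, b, e1, m1, p1, q1⟩ := snk_pos (h := h) (M := M) (i := q) (by omega)
      rw [sn_ps, p1, Prod.mk_add_mk, Prod.mk_sub_mk]
      by_cases h3 : 2 ≤ 0 + (4 * (m : ℤ) + a) - 0
      · exact nrm_far h3
      · have hm : m = 0 := by omega
        rw [hm, Nat.mul_zero, zero_add] at e1
        rw [hm] at h3 ⊢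
        by_cases h4 : 0 + (4 * ((0 : ℕ) : ℤ) + a) - 0 = 1
        · rw [h4]
          refine nrm_one (Or.inl ?_)
          rcases q1 with q1 | q1 | q1 | q1 <;> omega
        · have h5 : 0 + (4 * ((0 : ℕ) : ℤ) + a) - 0 = 0 := by omega
          rw [h5]
          refine nrm_zero' (Or.inl ?_)
          rcases q1 with q1 | q1 | q1 | q1 <;> omega
  · obtain ⟨q, rfl⟩ : ∃ q, i = 2 + q := ⟨i - 2, by omega⟩
    obtain ⟨q', rfl⟩ : ∃ q', j = 2 + q' := ⟨j - 2, by omega⟩
    rw [sn_ps, sn_ps, add_sub_add_left_eq_sub]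
    unfold sR at hj
    exact snk_ind (by omega) (by omega)

/-- **the path** -/
theorem sn_path {h M : ℕ} (hh : 1 ≤ h) : IPath (sn h M) (sR h M) := by
  refine ⟨fun i _ => ?_, fun _ => ?_, fun i hi => ?_, fun _ _ hij hj => sn_ind hij hj⟩
  · unfold sn
    split_ifs
    · exact upd'
    · exact snk_mem _ _ _
  · unfold sn
    rw [if_pos (by omega)]
  · have h0 := snk_zero (M := M) hh
    unfold sR at hi
    unfold sn
    rcases Nat.lt_or_ge (i + 1) 2 with h1 | h1
    · rw [if_pos h1, if_pos (by omega)]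
      exact Or.inl rfl
    · rcases Nat.lt_or_ge i 2 with h2 | h2
      · obtain rfl : i = 1 := by omega
        rw [if_neg (by omega), if_pos (by omega)]
        exact Or.inl h0
      · obtain ⟨q, rfl⟩ : ∃ q, i = q + 2 := ⟨i - 2, by omega⟩
        rw [if_neg (by omega), if_neg (by omega), show q + 2 + 1 - 2 = q + 1 by omega, Nat.add_sub_cancel]
        exact snk_tur hh (by omega)

/-- the box: x1, levels -/
lemma sn_box {h M i : ℕ} (hi : i ≤ sR h M) : 0 ≤ (ps (sn h M) i).1 ∧ (ps (sn h M) i).1 ≤ 4 * M ∧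
    0 ≤ ip (ps (sn h M) i) up ∧ ip (ps (sn h M) i) up ≤ 2 * h + 8 ∧ (1 ≤ i → 2 ≤ ip (ps (sn h M) i) up) ∧
      (i + 1 ≤ sR h M → ip (ps (sn h M) i) up ≤ 2 * h + 6) := by
  have hip : ∀ x y : ℤ, ip (x, y) up = x + 2 * y := fun x y => by
    simp only [ip, up]
    ring
  unfold sR at hi ⊢
  rcases Nat.lt_or_ge i 2 with h1 | h1
  · rw [sn_ps' h1.le, hip]
    refine ⟨le_rfl, by simp, by simp, ?_, fun hi1 => ?_, fun _ => ?_⟩ <;> omega
  · obtain ⟨q, rfl⟩ : ∃ q, i = 2 + q := ⟨i - 2, by omega⟩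
    obtain ⟨m, s, a, b, e1, m1, p1, q1⟩ := snk_pos (h := h) (M := M) (i := q) (by omega)
    have hm' : (m : ℤ) ≤ M := by exact_mod_cast m1
    rw [sn_ps, p1, Prod.mk_add_mk, hip]
    refine ⟨?_, ?_, ?_, ?_, fun _ => ?_, fun hi' => ?_⟩
    · simp only
      omega
    · simp only
      rcases q1 with q | q | q | q <;> omega
    · rcases q1 with q | q | q | q <;> omega
    · rcases q1 with q | q | q | q <;> omega
    · rcases q1 with q | q | q | q <;> omega
    · rcases q1 with ⟨rfl, rfl, q | ⟨rfl, q⟩⟩ | q | q | q <;> omega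

/-- straight positions -/
def str (e : ℕ → Pt) (p : ℕ) : Prop := e p = e (p - 1)

lemma succ_mod' {P q : ℕ} (hP : 0 < P) : (q + 1) % P = q % P + 1 ∨ (q % P + 1 = P ∧ (q + 1) % P = 0) := by
  have h1 : q % P < P := Nat.mod_lt _ hP
  have h2 := Nat.div_add_mod q P
  rcases Nat.lt_or_ge (q % P + 1) P with h3 | h3
  · left
    conv_lhs => rw [← h2, add_assoc]
    rw [Nat.mul_add_mod, Nat.mod_eq_of_lt h3]
  · right
    have h4 : q % P + 1 = P := by omega
    refine ⟨h4, ?_⟩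
    conv_lhs => rw [← h2, add_assoc, h4]
    rw [Nat.mul_add_mod, Nat.mod_self]

lemma sn_not {h M q : ℕ} (hh : 1 ≤ h) (hq : ¬ str (sn h M) (q + 3)) : q % (2 * h + 4) + 1 = h ∨ q % (2 * h + 4) = h ∨
    q % (2 * h + 4) = h + 1 ∨ q % (2 * h + 4) = 2 * h + 1 ∨ q % (2 * h + 4) = 2 * h + 2 ∨ q % (2 * h + 4) = 2 * h + 3 := by
  by_contra hc
  push Not at hc
  obtain ⟨k1, k2, k3, k4, k5, k6⟩ := hc
  have hm : ∀ m a, a < 2 * h + 4 → q = (2 * h + 4) * m + a → q % (2 * h + 4) = a := fun m a ha he => by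
    rw [he, Nat.mul_add_mod, Nat.mod_eq_of_lt ha]
  refine hq ?_
  unfold str sn
  rw [if_neg (by omega), if_neg (by omega), show q + 3 - 2 = q + 1 by omega, show q + 3 - 1 - 2 = q by omega]
  refine snk_str fun m => ⟨fun h1 => ?_, fun h1 => ?_, fun h1 => ?_, fun h1 => ?_, fun h1 => ?_, fun h1 => ?_⟩
  · have := hm m (h - 1) (by omega) (by omega)
    omega
  · exact k2 (hm m _ (by omega) h1)
  · exact k3 (hm m _ (by omega) h1)
  · exact k4 (hm m _ (by omega) h1)
  · exact k5 (hm m _ (by omega) h1)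
  · exact k6 (hm m _ (by omega) h1)

/-- between two straight positions there are at most three others -/
lemma sn_gap {h M p : ℕ} (hh : 3 ≤ h) (hp : 1 ≤ p) : ∃ p', p' < p ∧ p ≤ p' + 4 ∧ (p' = 0 ∨ str (sn h M) p') := by
  by_cases h1 : p ≤ 4
  · exact ⟨0, by omega, by omega, Or.inl rfl⟩
  by_cases h2 : str (sn h M) (p - 1)
  · exact ⟨p - 1, by omega, by omega, Or.inr h2⟩
  by_cases h3 : str (sn h M) (p - 2)
  · exact ⟨p - 2, by omega, by omega, Or.inr h3⟩
  by_cases h4 : str (sn h M) (p - 3)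
  · exact ⟨p - 3, by omega, by omega, Or.inr h4⟩
  refine ⟨p - 4, by omega, by omega, Or.inr ?_⟩
  have h0 := snk_zero (h := h) (M := M) (by omega)
  by_cases h5 : p ≤ 6
  · have h6 : p = 5 ∨ p = 6 := by omega
    rcases h6 with rfl | rfl
    · unfold str sn
      rw [if_pos (by omega), if_pos (by omega)]
    · unfold str sn
      rw [if_neg (by omega), if_pos (by omega)]
      exact h0
  · by_contra h6
    obtain ⟨q, rfl⟩ : ∃ q, p = q + 7 := ⟨p - 7, by omega⟩
    have g0 := sn_not (q := q) (by omega) h6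
    have g1 := sn_not (q := q + 1) (by omega) h4
    have g2 := sn_not (q := q + 2) (by omega) h3
    have g3 := sn_not (q := q + 3) (by omega) h2
    have hP : 0 < 2 * h + 4 := by omega
    have e1 := succ_mod' (q := q) hP
    have e2 := succ_mod' (q := q + 1) hP
    have e3 := succ_mod' (q := q + 2) hP
    simp only [add_assoc, Nat.reduceAdd] at e1 e2 e3
    omega

/-! ### Words along a path with straight places -/

lemma cl_dirs {d : Pt} (hd : d ∈ dirs) : cl d = 1 ∨ cl d = 2 := by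
  have key : ∀ d ∈ dirs, cl d = 1 ∨ cl d = 2 := by decide
  exact key d hd

lemma cl_add' (a b : Pt) : cl (a + b) = cl a + cl b := by
  unfold cl
  push_cast
  simp only [Prod.fst_add, Prod.snd_add]
  push_cast
  ring

lemma exists_cl (q : Pt) (t : ZMod 3) : ∃ z : Pt, hn (z - q) ≤ 4 ∧ cl z = t := by
  have key : ∀ u : ZMod 3, ∃ x ∈ ({0, up, up + up} : Finset Pt), hn x ≤ 4 ∧ cl x = u := by decide
  obtain ⟨x, -, h1, h2⟩ := key (t - cl q)
  refine ⟨q + x, ?_, ?_⟩
  · rw [add_sub_cancel_left]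
    exact h1
  · rw [cl_add', h2]
    ring

variable {e : ℕ → Pt} {r : ℕ} {D : ℤ}

/-- the tubes of the scale k with at most four steps exist -/
def TEx (D : ℤ) (k : ℕ) (a A : ℝ) : Prop := ∀ (r b : ℕ) (e : ℕ → Pt) (z : Pt), 1 ≤ r → r ≤ 4 → IPg e r → e 0 = up →
  hn (z - pv e D r) ≤ 2 ^ (k + 2) → cl z = (if Even b then 0 else 2) → cl (e (r - 1)) = (if Even b then 2 else 1) →
    a ≤ b → (b : ℝ) ≤ A → ∃ Q, TubeQ e D (2 ^ (k + 9)) r z Q ∧ Q.length = b

lemma IPath.toG (h : IPath e r) : IPg e r := ⟨h.dir, h.tur, h.ind⟩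

lemma IPath.le {r' : ℕ} (h : IPath e r) (hr : r' ≤ r) : IPath e r' :=
  ⟨fun i hi => h.dir i (by omega), fun h0 => h.one (by omega), fun i hi => h.tur i (by omega),
    fun i j hij hj => h.ind i j hij (by omega)⟩

lemma word_of {R k : ℕ} {a A : ℝ} (h : IPath e R) (hT : TEx D k a A) (hk : 1 ≤ k) (hD : 2 ^ (k + 10) + 8 < D)
    (hgap : ∀ p, 1 ≤ p → ∃ p', p' < p ∧ p ≤ p' + 4 ∧ (p' = 0 ∨ str e p')) {n : ℕ → ℕ} {zt : ℕ → Pt} (hn0 : n 0 = 0)
    (hnd : ∀ p p', p' < p → p ≤ p' + 4 → p ≤ R → n p' ≤ n p ∧ a ≤ (n p : ℝ) - n p' ∧ (n p : ℝ) - n p' ≤ A)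
    (hnc : ∀ p, 1 ≤ p → p ≤ R → cl (e (p - 1)) = if Even (n p) then 2 else 1)
    (hz : ∀ p, hn (zt p - pv e D p) ≤ 4) (hzc : ∀ p, cl (zt p) = if Even (n p) then 0 else 2) :
    ∀ p, 1 ≤ p → p ≤ R → ∃ W, TubeQ e D (2 ^ (k + 9) + 4) p (zt p) W ∧ W.length = n p := by
  have e10 : (2 : ℤ) ^ (k + 10) = 2 * 2 ^ (k + 9) := by ring
  have e2 : (8 : ℤ) ≤ 2 ^ (k + 2) := by
    have : (2 : ℤ) ^ 3 ≤ 2 ^ (k + 2) := pow_le_pow_right₀ (by norm_num) (by omega)
    linarith
  intro p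
  induction p using Nat.strong_induction_on with
  | _ p ih =>
    intro hp hpR
    obtain ⟨p', h1, h2, h3⟩ := hgap p hp
    obtain ⟨g0, g1, g2⟩ := hnd p p' h1 h2 hpR
    rcases Nat.eq_zero_or_pos p' with h4 | h4
    · subst h4
      rw [hn0, Nat.cast_zero, sub_zero] at g1 g2
      obtain ⟨Q, hQ1, hQ2⟩ := hT p (n p) e (zt p) hp (by omega) (h.le hpR).toG (h.one (by omega))
        ((hz p).trans (by linarith)) (hzc p) (hnc p hp hpR) g1 g2
      refine ⟨Q, ⟨hQ1.sa, hQ1.en, hQ1.de, fun i hi => ?_, fun i hi0 hi => ?_, fun i hi => ?_⟩, hQ2⟩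
      · obtain ⟨j, k1, k2⟩ := hQ1.rg i hi
        exact ⟨j, k1, k2.mono (by linarith)⟩
      · rcases hQ1.st i hi0 hi with k0 | ⟨j, k0, k1, k2⟩
        · exact Or.inl k0
        · exact Or.inr ⟨j, k0, k1, k2.mono (by linarith)⟩
      · rcases hQ1.bd i hi with k0 | ⟨j, k1, k2⟩
        · exact Or.inl k0
        · exact Or.inr ⟨j, k1, k2.mono (by linarith)⟩
    · have hs : e p' = e (p' - 1) := by
        rcases h3 with h3 | h3
        · omega
        · exact h3
      obtain ⟨W, hW, hWl⟩ := ih p' h1 h4 (by omega)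
      obtain ⟨r, rfl⟩ : ∃ r, p = p' + r := ⟨p - p', by omega⟩
      have hen : en W = zt p' := hW.en
      have hr1 : 1 ≤ r := by omega
      have hP : IPath (nx W e p') r := nx_path (h.le hpR) hr1 hs (by rw [hW.de])
      have hlen : n (p' + r) = W.length + (n (p' + r) - n p') := by omega
      have hb : ((n (p' + r) - n p' : ℕ) : ℝ) = (n (p' + r) : ℝ) - n p' := by
        push_cast [Nat.cast_sub g0]
        ring
      obtain ⟨Q, hQ1, hQ2⟩ := hT r (n (p' + r) - n p') (nx W e p') (tg W (zt (p' + r))) hr1 (by omega) hP.toG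
        (hP.one (by omega)) (by
          have h5 := nx_hn (A := W) (e := e) (p := p') (D := D) (r := r) (z1 := zt (p' + r))
          have h6 := hz (p' + r)
          have h7 := hz p'
          rw [← hen] at h7
          linarith) (tg_cl hlen (hzc _)) (nx_cl (j := r - 1) hlen (by
          have h8 := hnc (p' + r) hp hpR
          rw [show p' + r - 1 = p' + (r - 1) by omega] at h8
          exact h8)) (by rw [hb]; exact g1) (by rw [hb]; exact g2)
      have key := app (B := 4) (h.le hpR) h4 hr1 hs hW (hz p') hQ1 (by linarith) (by linarith)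
      refine ⟨W ++ Q, ?_, ?_⟩
      · have h9 := rt_tg W (zt (p' + r))
        rw [hen] at h9
        rw [h9] at key
        exact key
      · rw [List.length_append, hQ2, hWl]
        omega

/-! ### The number of letters -/

/-- the parity -/
def qn (e : ℕ → Pt) (p : ℕ) : ℕ := if cl (e (p - 1)) = 2 then 0 else 1

/-- the number of letters at the position p -/
def ln (e : ℕ → Pt) (s R p : ℕ) : ℕ := 2 * (s * p / (2 * R)) + qn e p

lemma qn_le (e : ℕ → Pt) (p : ℕ) : qn e p ≤ 1 := by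
  unfold qn
  split_ifs <;> omega

lemma ln_cl {s R : ℕ} (p : ℕ) (hd : e (p - 1) ∈ dirs) : cl (e (p - 1)) = if Even (ln e s R p) then 2 else 1 := by
  unfold ln qn
  rcases cl_dirs hd with h | h
  · have h12 : ¬ ((1 : ZMod 3) = 2) := by decide
    rw [h, if_neg h12, if_neg]
    intro h2
    rw [Nat.even_add] at h2
    have := h2.1 (even_two_mul _)
    exact absurd this (by decide)
  · rw [h, if_pos rfl, if_pos]
    rw [add_zero]
    exact even_two_mul _

lemma ln_diff {s R p p' : ℕ} (hR : 1 ≤ R) (h1 : p' < p) (h2 : p ≤ p' + 4) (hs : 3 * R ≤ s) :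
    ln e s R p' ≤ ln e s R p ∧ (s : ℝ) / R - 3 ≤ (ln e s R p : ℝ) - ln e s R p' ∧
      (ln e s R p : ℝ) - ln e s R p' ≤ 4 * (s / R) + 3 := by
  have hR0 : (0 : ℝ) < R := by exact_mod_cast hR
  have hb : ∀ q : ℕ, (s * q : ℝ) / R - 2 ≤ 2 * ((s * q / (2 * R) : ℕ) : ℝ) ∧
      2 * ((s * q / (2 * R) : ℕ) : ℝ) ≤ (s * q : ℝ) / R := by
    intro q
    have g1 := Nat.div_mul_le_self (s * q) (2 * R)
    have g2 := Nat.lt_div_mul_add (a := s * q) (show 0 < 2 * R by omega)
    have g1' : ((s * q / (2 * R) : ℕ) : ℝ) * (2 * R) ≤ s * q := by exact_mod_cast g1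
    have g2' : (s * q : ℝ) < ((s * q / (2 * R) : ℕ) : ℝ) * (2 * R) + 2 * R := by exact_mod_cast g2
    constructor
    · rw [sub_le_iff_le_add, div_le_iff₀ hR0]
      nlinarith
    · rw [le_div_iff₀ hR0]
      nlinarith
  have hq : (qn e p : ℝ) ≤ 1 := by exact_mod_cast qn_le e p
  have hq' : (qn e p' : ℝ) ≤ 1 := by exact_mod_cast qn_le e p'
  have hq0 : (0 : ℝ) ≤ qn e p := Nat.cast_nonneg _
  have hq0' : (0 : ℝ) ≤ qn e p' := Nat.cast_nonneg _
  obtain ⟨g1, g2⟩ := hb p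
  obtain ⟨g3, g4⟩ := hb p'
  have hsR : (0 : ℝ) ≤ s / R := by positivity
  have e1 : (s * p : ℝ) / R - (s * p') / R = s / R * (p - p') := by
    field_simp
  have h1' : (1 : ℝ) ≤ p - p' := by
    have : (p' : ℝ) + 1 ≤ p := by exact_mod_cast h1
    linarith
  have h2' : (p : ℝ) - p' ≤ 4 := by
    have : (p : ℝ) ≤ p' + 4 := by exact_mod_cast h2
    linarith
  have h3 : (s : ℝ) / R ≤ s / R * (p - p') := le_mul_of_one_le_right hsR h1'
  have h4 : (s : ℝ) / R * (p - p') ≤ s / R * 4 := mul_le_mul_of_nonneg_left h2' hsR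
  have h5 : (s : ℝ) / R - 3 ≤ (ln e s R p : ℝ) - ln e s R p' := by
    unfold ln
    push_cast
    linarith
  have h6 : (3 : ℝ) ≤ s / R := by
    rw [le_div_iff₀ hR0]
    exact_mod_cast hs
  refine ⟨?_, h5, ?_⟩
  · have : (ln e s R p' : ℝ) ≤ ln e s R p := by linarith
    exact_mod_cast this
  · unfold ln
    push_cast
    linarith

/-- **words along the serpentine** with exactly s letters -/
theorem sn_word {k h M s : ℕ} {a A : ℝ} (hT : TEx D k a A) (hk : 1 ≤ k) (hD : 2 ^ (k + 10) + 8 < D) (hh : 3 ≤ h) (ha : 0 ≤ a)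
    (hs0 : Even s) (hs1 : (sR h M : ℝ) * (a + 3) ≤ s) (hs2 : 4 * (s : ℝ) ≤ sR h M * (A - 3)) :
    ∃ (y : Pt) (S : List Bool), hn (y - pv (sn h M) D (sR h M)) ≤ 4 ∧ cl y = 0 ∧
      TubeQ (sn h M) D (2 ^ (k + 9) + 4) (sR h M) y S ∧ S.length = s := by
  have hR : 1 ≤ sR h M := by
    unfold sR
    omega
  have hR0 : (0 : ℝ) < sR h M := by exact_mod_cast hR
  have hP := sn_path (h := h) (M := M) (by omega)
  have h3 : 3 * sR h M ≤ s := by
    have : (3 : ℝ) * sR h M ≤ s := by nlinarith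
    exact_mod_cast this
  have hs1' : a + 3 ≤ (s : ℝ) / sR h M := by
    rw [le_div_iff₀ hR0]
    linarith
  have hs2' : 4 * ((s : ℝ) / sR h M) ≤ A - 3 := by
    rw [← mul_div_assoc, div_le_iff₀ hR0]
    linarith
  choose zt hz hzc using fun p => exists_cl (pv (sn h M) D p) (if Even (ln (sn h M) s (sR h M) p) then 0 else 2)
  have hup : sn h M (sR h M - 1) = up := by
    unfold sn sR
    rw [if_neg (by omega), show (2 * h + 4) * M + (h + 4) - 1 - 2 = (2 * h + 4) * M + (h + 1) by omega, snk_up]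
  have hln : ln (sn h M) s (sR h M) (sR h M) = s := by
    unfold ln qn
    rw [hup, cl_up', if_pos rfl, add_zero, Nat.mul_div_mul_right _ _ (by omega)]
    exact Nat.two_mul_div_two_of_even hs0
  obtain ⟨W, h1, h2⟩ := word_of hP hT hk hD (fun p hp => sn_gap hh hp) (n := ln (sn h M) s (sR h M)) (zt := zt) (by
    unfold ln qn
    rw [Nat.mul_zero, Nat.zero_div, show sn h M (0 - 1) = up by exact hP.one (by omega), cl_up', if_pos rfl]) (fun p p' g1 g2 _ => by
      obtain ⟨k1, k2, k3⟩ := ln_diff (e := sn h M) hR g1 g2 h3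
      exact ⟨k1, by linarith, by linarith⟩) (fun p hp hpR => ln_cl p (hP.dir _ (by omega))) hz hzc (sR h M) hR le_rfl
  refine ⟨zt (sR h M), W, hz _, ?_, h1, by rw [h2, hln]⟩
  rw [hzc, hln, if_pos hs0]

end AR

end HexObs
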