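import Pool.Agent.ARM2.Path
import Pool.Agent.TIP.Free
import Pool.Agent.TIP.OddV

/-!
# ARM2: words along a coarse path, geometry of one step (helper51)

* `BS` : words that may be followed by a straight part; `AS` : words with the last part straight;
* `step_S` : one straight part; `step_T` : one turn by 60 degrees; `step_N` : no turn; `step_W` : the forward tube may be
  wide if the tip is far from the corner;
* `zS`, `zT` : two cuts of the same class differ by a bridge.
-/

set_option autoImplicit false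

namespace HexObs

namespace AR

open Finset TIW TS SDN

/-! ### 1. Frames -/

/-- the lateral coordinate in the direction d, times three -/
def Lt (d y : Pt) : ℤ := ip y (rotR d) - ip y (rotL d)

lemma ip_RL (d y : Pt) : ip y (rotR d) + ip y (rotL d) = ip y d := by
  simp only [ip, rotR, rotL]
  ring

lemma Lt_add (d y y' : Pt) : Lt d (y + y') = Lt d y + Lt d y' := by
  unfold Lt
  rw [ip_add_left, ip_add_left]
  ring

lemma Lt_smul (d : Pt) (t : ℤ) : Lt d (t • d) = 0 := by
  simp only [Lt, ip, rotR, rotL, Prod.smul_fst, Prod.smul_snd, smul_eq_mul]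
  ring

lemma ip_smul_self {d : Pt} (hd : d ∈ dirs) (t : ℤ) : ip (t • d) d = 2 * t := by
  rw [ip_smul, ip_self_dir hd]
  ring

lemma Lt_le {d : Pt} (hd : d ∈ dirs) (y : Pt) : |Lt d y| ≤ 2 * hn y := by
  unfold Lt
  have h1 := ip_le_hn y (rotR_mem hd)
  have h2 := neg_hn_le_ip y (rotR_mem hd)
  have h3 := ip_le_hn y (rotL_mem hd)
  have h4 := neg_hn_le_ip y (rotL_mem hd)
  rw [abs_le]
  constructor <;> linarith

lemma dir_cases {d : Pt} (hd : d ∈ dirs) {d' : Pt} (hd' : d' ∈ dirs) :
    d' = d ∨ d' = -d ∨ d' = rotL d ∨ d' = -(rotL d) ∨ d' = rotR d ∨ d' = -(rotR d) := by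
  have key : ∀ d ∈ dirs, ∀ d' ∈ dirs, d' = d ∨ d' = -d ∨ d' = rotL d ∨ d' = -(rotL d) ∨ d' = rotR d ∨ d' = -(rotR d) := by
    decide
  exact key d hd d' hd'

lemma hn_frame {d : Pt} (hd : d ∈ dirs) {y : Pt} {a b c : ℤ} (h1 : |ip y d| ≤ a) (h2 : |Lt d y| ≤ b) (hac : a ≤ c)
    (hbc : a + b ≤ 2 * c) : hn y ≤ c := by
  rw [abs_le] at h1 h2
  unfold Lt at h2
  have h3 := ip_RL d y
  refine hn_le fun d' hd' => ?_
  rcases dir_cases hd hd' with rfl | rfl | rfl | rfl | rfl | rfl
  · linarith
  · rw [ip_neg_right]; linarith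
  · linarith
  · rw [ip_neg_right]; linarith
  · linarith
  · rw [ip_neg_right]; linarith

lemma ip_R_lo {d y : Pt} {lam : ℤ} (h1 : 0 ≤ ip y d) (h2 : |Lt d y| ≤ lam) : -lam ≤ 2 * ip y (rotR d) := by
  have h3 := ip_RL d y
  rw [abs_le] at h2
  unfold Lt at h2
  linarith

lemma ip_L_lo {d y : Pt} {lam : ℤ} (h1 : 0 ≤ ip y d) (h2 : |Lt d y| ≤ lam) : -lam ≤ 2 * ip y (rotL d) := by
  have h3 := ip_RL d y
  rw [abs_le] at h2
  unfold Lt at h2
  linarith

lemma rotR_mulE (u d : Pt) : rotR (mulE u d) = mulE u (rotR d) := (mulE_turn u false d).symm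

lemma rotL_mulE (u d : Pt) : rotL (mulE u d) = mulE u (rotL d) := (mulE_turn u true d).symm

lemma ip_rt (A : List Bool) (p : Pt) : ip (mulE (rt A) p) (de A) = ip p up := by
  rw [← rt_up, ip_mulE, nrm_rt, one_mul]

lemma Lt_rt (A : List Bool) (p : Pt) : Lt (de A) (mulE (rt A) p) = Lt up p := by
  unfold Lt
  rw [← rt_up, rotR_mulE, rotL_mulE, ip_mulE, ip_mulE, nrm_rt, one_mul, one_mul]

lemma Lt_up (t : List Bool) (i : ℕ) : Lt up (vx oo up t i) = 3 * lat t i := by
  rw [TIP.lat_one]
  simp only [Lt, ip, rotR, rotL, up]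
  ring

/-! ### 2. Words -/

lemma all_app {P : Pt → Prop} {A V : List Bool} (h1 : ∀ k, k ≤ A.length → P (vx oo up A k))
    (h2 : ∀ j, 1 ≤ j → j ≤ V.length → P (en A + mulE (rt A) (vx oo up V j))) :
    ∀ k, k ≤ (A ++ V).length → P (vx oo up (A ++ V) k) := by
  intro k hk
  rcases Nat.lt_or_ge A.length k with h | h
  · obtain ⟨j, rfl⟩ : ∃ j, k = A.length + j := ⟨k - A.length, by omega⟩
    rw [List.length_append] at hk
    rw [vx_app]
    exact h2 j (by omega) (by omega)
  · rw [vx_append (by omega)]
    exact h1 k h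

lemma sa_app {A V : List Bool} (hA : A ∈ SA) (hV : V ∈ SA)
    (h : ∀ k, k ≤ A.length → ∀ j, 1 ≤ j → j ≤ V.length → vx oo up A k ≠ en A + mulE (rt A) (vx oo up V j)) :
    A ++ V ∈ SA := by
  refine ⟨fun _ _ _ => Set.mem_univ _, fun i k hik hk he => ?_⟩
  rw [List.length_append] at hk
  rcases Nat.lt_or_ge A.length k with h1 | h1
  · obtain ⟨k', rfl⟩ : ∃ k', k = A.length + k' := ⟨k - A.length, by omega⟩
    rcases Nat.lt_or_ge A.length i with h2 | h2
    · obtain ⟨i', rfl⟩ : ∃ i', i = A.length + i' := ⟨i - A.length, by omega⟩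
      rw [vx_app, vx_app] at he
      exact hV.inj i' k' (by omega) (by omega) (mulE_inj (nrm_rt A) (add_left_cancel he))
    · rw [vx_append (by omega : i ≤ A.length + 1), vx_app] at he
      exact h i h2 k' (by omega) (by omega) he
  · rw [vx_append (by omega : i ≤ A.length + 1), vx_append (by omega : k ≤ A.length + 1)] at he
    exact hA.inj i k hik h1 he

lemma BU_facts {V : List Bool} (hV : V ∈ BU) : V ∈ SA ∧ de V = up ∧ ip (en V) up = 3 * hgt V ∧
    ∀ j, 1 ≤ j → j ≤ V.length → 0 < ip (vx oo up V j) up ∧ ip (vx oo up V j) up ≤ 3 * hgt V := by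
  obtain ⟨n, hn⟩ := hV
  have h1 := hgt_eq hn
  obtain ⟨k1, k2, k3, k4⟩ := mem_Brd.1 hn
  rw [h1]
  exact ⟨⟨fun _ _ _ => Set.mem_univ _, k2⟩, k3, k4, k1⟩

/-! ### 3. The classes -/

/-- the forward tube from q in the direction d -/
def FT (q d : Pt) (lam Lb : ℤ) (y : Pt) : Prop := 0 < ip (y - q) d ∧ ip (y - q) d ≤ Lb ∧ |Lt d (y - q)| ≤ lam

/-- the last part is straight along the segment i, the tip is near c -/
structure AS (e : ℕ → Pt) (D B : ℤ) (i : ℕ) (c : Pt) (A : List Bool) : Prop where
  sa : A ∈ SA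
  dir : de A = e i
  pos : hn (en A - c) ≤ B
  rg : ∀ k, k ≤ A.length → NSs e D B 0 (i + 1) (vx oo up A k)
  st : ∀ k, 1 ≤ k → k ≤ A.length → 0 < ip (vx oo up A k) up ∨ NSs e D B 1 (i + 1) (vx oo up A k)
  bd : ∀ k, k ≤ A.length → ip (vx oo up A k - en A) (e i) ≤ 0 ∨ NSs e D B 0 i (vx oo up A k)

/-- a straight part along the segment i may follow, the tip is near c -/
structure BS (e : ℕ → Pt) (D B lam Lb : ℤ) (i : ℕ) (c : Pt) (A : List Bool) : Prop where
  sa : A ∈ SA
  dir : de A = e i
  pos : hn (en A - c) ≤ B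
  nw : ∀ k, k ≤ A.length → NSs e D B 0 i (vx oo up A k) ∨
    (NS (pv e D i) (e i) D B (vx oo up A k) ∧ ip (vx oo up A k - c) (e i) ≤ B)
  st : ∀ k, 1 ≤ k → k ≤ A.length → 0 < ip (vx oo up A k) up ∨ NSs e D B 1 (i + 1) (vx oo up A k)
  ft : ∀ k, k ≤ A.length → ¬ FT (en A) (e i) lam Lb (vx oo up A k)
  s0 : i = 0 → 0 ≤ ip (en A) up

variable {e : ℕ → Pt} {r i : ℕ} {D B B' lam Lb kap mu : ℤ} {c : Pt} {A V : List Bool}

/-- points of a forward tube are near the segment -/
lemma ns_of {v d q y : Pt} {s : ℤ} (hd : d ∈ dirs) (hs : 0 ≤ s) (hsD : s ≤ D) (hq : hn (q - (v + s • d)) ≤ B)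
    (h0 : 0 ≤ ip (y - q) d) (h1 : ip (y - q) d ≤ 2 * (D - s) + kap) (hk : 0 ≤ kap) (h2 : |Lt d (y - q)| ≤ lam)
    (hB' : 2 * B + lam + kap + 1 ≤ B') : NS v d D B' y := by
  have hB0 := (hn_nonneg _).trans hq
  have hl0 := (abs_nonneg _).trans h2
  have e1 : ∀ t : ℤ, y - (v + t • d) = (y - q) + (q - (v + s • d)) + (s - t) • d := by
    intro t
    rw [sub_smul]
    abel
  have h3 := ip_le_hn (q - (v + s • d)) hd
  have h4 := neg_hn_le_ip (q - (v + s • d)) hd
  have h5 := Lt_le hd (q - (v + s • d))
  have h6 : ∀ t : ℤ, |Lt d (y - (v + t • d))| ≤ lam + 2 * B := by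
    intro t
    rw [e1, Lt_add, Lt_add, Lt_smul, add_zero]
    exact (abs_add_le _ _).trans (by linarith)
  have h7 : ∀ t : ℤ, ip (y - (v + t • d)) d = ip (y - q) d + ip (q - (v + s • d)) d + 2 * (s - t) := by
    intro t
    rw [e1, ip_add_left, ip_add_left, ip_smul_self hd]
  obtain ⟨x, hx⟩ : ∃ x, x = ip (y - q) d := ⟨_, rfl⟩
  rw [← hx] at h0 h1 h7
  rcases le_or_gt (s + x / 2) D with h | h
  · refine ⟨s + x / 2, by omega, h, hn_frame hd (a := B + 1) (b := lam + 2 * B) ?_ (h6 _) (by linarith) (by linarith)⟩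
    rw [h7, abs_le]
    constructor
    · omega
    · omega
  · refine ⟨D, by omega, le_rfl, hn_frame hd (a := B + kap) (b := lam + 2 * B) ?_ (h6 _) (by linarith) (by linarith)⟩
    rw [h7, abs_le]
    constructor
    · omega
    · omega

/-- **one straight part** -/
lemma step_S (h : IPath e r) (hi : i < r) {s t1 : ℤ} (hc : c = pv e D i + s • e i) (hs : 0 ≤ s) (ht : 0 ≤ t1)
    (hst : s + t1 ≤ D) (hA : BS e D B lam Lb i c A) (hV : V ∈ BU)
    (hlat : ∀ j, j ≤ V.length → |3 * lat V j| ≤ lam) (hlatE : |3 * latE V| ≤ mu)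
    (hl : |3 * (hgt V : ℤ) - ip (c + t1 • e i - en A) (e i)| ≤ kap) (hLb : 3 * (hgt V : ℤ) ≤ Lb) (hmu : mu ≤ lam)
    (hB' : 3 * B + lam + kap + 1 ≤ B') (h2 : B + B' ≤ 2 * t1) : AS e D B' i (c + t1 • e i) (A ++ V) := by
  have hd := h.dir i hi
  obtain ⟨v1, v2, v3, v4⟩ := BU_facts hV
  have hB0 := (hn_nonneg _).trans hA.pos
  have hk0 := (abs_nonneg _).trans hl
  have hm0 := (abs_nonneg _).trans hlatE
  have hBB : B ≤ B' := by linarith
  -- the vertices of V
  have y1 : ∀ j, ip (mulE (rt A) (vx oo up V j)) (e i) = ip (vx oo up V j) up := fun j => by rw [← hA.dir, ip_rt]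
  have y2 : ∀ j, Lt (e i) (mulE (rt A) (vx oo up V j)) = 3 * lat V j := fun j => by rw [← hA.dir, Lt_rt, Lt_up]
  have y3 : ∀ j, en A + mulE (rt A) (vx oo up V j) - en A = mulE (rt A) (vx oo up V j) := fun j => by abel
  have yF : ∀ j, 1 ≤ j → j ≤ V.length → FT (en A) (e i) lam Lb (en A + mulE (rt A) (vx oo up V j)) := by
    intro j hj hjl
    obtain ⟨g1, g2⟩ := v4 j hj hjl
    refine ⟨?_, ?_, ?_⟩
    · rw [y3, y1]
      exact g1
    · rw [y3, y1]
      linarith
    · rw [y3, y2]
      exact hlat j hjl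
  have hip1 : ip (c - en A) (e i) ≤ B := by
    have := ip_le_hn (c - en A) hd
    rw [hn_sub_comm] at this
    exact this.trans hA.pos
  have hip2 : ip (c + t1 • e i - en A) (e i) = ip (c - en A) (e i) + 2 * t1 := by
    rw [show c + t1 • e i - en A = (c - en A) + t1 • e i by abel, ip_add_left, ip_smul_self hd]
  have hgt' : 3 * (hgt V : ℤ) ≤ B + 2 * t1 + kap := by
    rw [hip2, abs_le] at hl
    linarith [hl.2]
  have yN : ∀ j, 1 ≤ j → j ≤ V.length → NS (pv e D i) (e i) D B' (en A + mulE (rt A) (vx oo up V j)) := by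
    intro j hj hjl
    obtain ⟨g1, g2⟩ := v4 j hj hjl
    refine ns_of (kap := B + kap) hd hs (by linarith) (q := en A) (B := B) (lam := lam) ?_ ?_ ?_ (by linarith) ?_ (by linarith)
    · rw [← hc]
      exact hA.pos
    · rw [y3, y1]
      exact g1.le
    · rw [y3, y1]
      linarith
    · rw [y3, y2]
      exact hlat j hjl
  have hen : en (A ++ V) = en A + mulE (rt A) (vx oo up V V.length) := en_app A V
  have hpos : hn (en (A ++ V) - (c + t1 • e i)) ≤ B' := by
    have e1 : en (A ++ V) - (c + t1 • e i) = mulE (rt A) (vx oo up V V.length) - (c + t1 • e i - en A) := by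
      rw [hen]
      abel
    have e2 : en (A ++ V) - (c + t1 • e i) = mulE (rt A) (vx oo up V V.length) + (en A - c) + (-t1) • e i := by
      rw [hen, neg_smul]
      abel
    refine hn_frame hd (a := kap) (b := mu + 2 * B) ?_ ?_ (by linarith) (by linarith)
    · rw [e1, ip_sub_left, y1]
      have e3 : ip (vx oo up V V.length) up = 3 * hgt V := v3
      rw [e3]
      exact hl
    · rw [e2, Lt_add, Lt_add, Lt_smul, add_zero, y2]
      have h5 := Lt_le hd (en A - c)
      refine (abs_add_le _ _).trans (add_le_add hlatE (h5.trans ?_))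
      linarith [hA.pos]
  refine ⟨?_, ?_, hpos, ?_, ?_, ?_⟩
  · refine sa_app hA.sa v1 fun k hk j hj hjl he => hA.ft k hk ?_
    rw [he]
    exact yF j hj hjl
  · rw [de_app, v2, rt_up, hA.dir]
  · refine all_app (P := NSs e D B' 0 (i + 1)) (fun k hk => ?_) fun j hj hjl => ⟨i, by omega, by omega, yN j hj hjl⟩
    rcases hA.nw k hk with g | g
    · exact (g.mono hBB).mono' le_rfl (by omega)
    · exact ⟨i, by omega, by omega, g.1.mono hBB⟩
  · intro k hk hkl
    rcases Nat.lt_or_ge A.length k with g | g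
    · obtain ⟨j, rfl⟩ : ∃ j, k = A.length + j := ⟨k - A.length, by omega⟩
      rw [List.length_append] at hkl
      rw [vx_app]
      rcases Nat.eq_zero_or_pos i with hz | hp
      · left
        have g1 := hA.s0 hz
        have g2 := (v4 j (by omega) (by omega)).1
        have g3 : e i = up := by
          rw [hz]
          exact h.one (by omega)
        have g4 := y1 j
        rw [g3] at g4
        rw [ip_add_left, g4]
        linarith
      · right
        exact ⟨i, hp, by omega, yN j (by omega) (by omega)⟩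
    · rw [vx_append (by omega)]
      rcases hA.st k hk g with g1 | g1
      · exact Or.inl g1
      · exact Or.inr (g1.mono hBB)
  · refine all_app (P := fun x => ip (x - en (A ++ V)) (e i) ≤ 0 ∨ NSs e D B' 0 i x) (fun k hk => ?_) fun j hj hjl => ?_
    · rcases hA.nw k hk with g | g
      · exact Or.inr (g.mono hBB)
      · left
        have e1 : vx oo up A k - en (A ++ V) = (vx oo up A k - c) + (-t1) • e i - (en (A ++ V) - (c + t1 • e i)) := by
          rw [neg_smul]
          abel
        rw [e1, ip_sub_left, ip_add_left, ip_smul_self hd]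
        have g1 := neg_hn_le_ip (en (A ++ V) - (c + t1 • e i)) hd
        linarith [g.2]
    · left
      have e1 : en A + mulE (rt A) (vx oo up V j) - en (A ++ V) = mulE (rt A) (vx oo up V j) -
          mulE (rt A) (vx oo up V V.length) := by
        rw [hen]
        abel
      have e3 : ip (vx oo up V V.length) up = 3 * hgt V := v3
      rw [e1, ip_sub_left, y1, y1, e3]
      linarith [(v4 j hj hjl).2]

/-- points of the forward tube at a vertex are far from the older segments -/
lemma ft_far (h : IPath e r) (hi : i < r) {q x : Pt} (hq : hn (q - pv e D i) ≤ B) (hD : 0 ≤ D) (hk : 0 ≤ kap)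
    (hLb : Lb ≤ 2 * D + kap) (hx : FT q (e i) lam Lb x) {j : ℕ} (hj : j + 1 < i) (hx' : NS (pv e D j) (e j) D B x) :
    D ≤ 3 * B + lam + kap + 1 := by
  have h1 := ns_of (v := pv e D i) (s := 0) (kap := kap) (B' := 2 * B + lam + kap + 1) (h.dir i hi) le_rfl hD
    (by rw [zero_smul, add_zero]; exact hq) hx.1.le (by linarith [hx.2.1]) hk hx.2.2 le_rfl
  have h2 := sep_seg h hj hi h1 hx'
  rw [sub_self] at h2
  have h3 : hn (0 : Pt) = 0 := by decide
  rw [h3] at h2
  linarith

/-- **no turn** -/
lemma step_N (h : IPath e r) (hi : i + 1 < r) (he : e (i + 1) = e i) (hk : 0 ≤ kap) (hLb : Lb ≤ 2 * D + kap)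
    (hD : 3 * B + lam + kap + 1 < D) (hA : AS e D B i (pv e D (i + 1)) A) :
    BS e D B lam Lb (i + 1) (pv e D (i + 1)) A := by
  have hB0 := (hn_nonneg _).trans hA.pos
  refine ⟨hA.sa, by rw [he]; exact hA.dir, hA.pos, fun k hk => Or.inl (hA.rg k hk), fun k h1 h2 => ?_,
    fun k hkl hF => ?_, fun h0 => by omega⟩
  · rcases hA.st k h1 h2 with g | g
    · exact Or.inl g
    · exact Or.inr (g.mono' le_rfl (by omega))
  · rcases hA.bd k hkl with g | ⟨j, -, hj, g⟩
    · have := hF.1
      rw [he] at this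
      linarith
    · have hl : 0 ≤ lam := (abs_nonneg _).trans hF.2.2
      have := ft_far h hi hA.pos (by linarith) hk hLb hF (by omega : j + 1 < i + 1) g
      linarith

/-- **a wide tube from the middle of a segment** -/
lemma step_W (h : IPath e r) (hi : i < r) {s : ℤ} (hc : c = pv e D i + s • e i) (hk : 0 ≤ kap) (hlam : 0 ≤ lam)
    (hs : 2 * B + lam < s)
    (hsD : s ≤ D) (hLb : Lb ≤ 2 * (D - s) + kap) (hD : 3 * B + lam + kap + 1 < D) (hA : AS e D B i c A) :
    BS e D B lam Lb i c A := by
  have hB0 := (hn_nonneg _).trans hA.pos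
  have hd := h.dir i hi
  have hce : ip (en A - c) (e i) ≤ B := (ip_le_hn _ hd).trans hA.pos
  refine ⟨hA.sa, hA.dir, hA.pos, fun k hkl => ?_, hA.st, fun k hkl hF => ?_, fun h0 => ?_⟩
  · rcases hA.bd k hkl with g | g
    · obtain ⟨j, -, hj, g1⟩ := hA.rg k hkl
      rcases Nat.lt_or_ge j i with g2 | g2
      · exact Or.inl ⟨j, by omega, g2, g1⟩
      · obtain rfl : j = i := by omega
        refine Or.inr ⟨g1, ?_⟩
        rw [show vx oo up A k - c = (vx oo up A k - en A) + (en A - c) by abel, ip_add_left]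
        linarith
    · exact Or.inl g
  · have hl : 0 ≤ lam := (abs_nonneg _).trans hF.2.2
    rcases hA.bd k hkl with g | ⟨j, -, hj, g⟩
    · linarith [hF.1]
    · rcases Nat.lt_or_ge (j + 1) i with g2 | g2
      · have h1 := ns_of (v := pv e D i) (s := s) (kap := kap) (B' := 2 * B + lam + kap + 1) hd (by linarith) hsD
          (by rw [← hc]; exact hA.pos) hF.1.le (by linarith [hF.2.1]) hk hF.2.2 le_rfl
        have h2 := sep_seg h g2 hi h1 g
        rw [sub_self] at h2
        have h3 : hn (0 : Pt) = 0 := by decide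
        rw [h3] at h2
        linarith
      · obtain rfl : i = j + 1 := by omega
        obtain ⟨t, ht0, ht1, ht2⟩ := g
        have hdj := h.dir j (by omega)
        -- the coordinate in the direction of the old segment
        have a1 : ip (vx oo up A k - pv e D (j + 1)) (e j) ≤ B := by
          rw [show vx oo up A k - pv e D (j + 1) = (vx oo up A k - (pv e D j + t • e j)) + (t - D) • e j by
            rw [pv_succ, sub_smul]
            abel, ip_add_left, ip_smul_self hdj]
          have := ip_le_hn (vx oo up A k - (pv e D j + t • e j)) hdj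
          linarith
        have a2 : vx oo up A k - pv e D (j + 1) = (vx oo up A k - en A) + (en A - c) + s • e (j + 1) := by
          rw [hc]
          abel
        have a3 : 1 ≤ ip (e (j + 1)) (e j) ∧ -lam ≤ 2 * ip (vx oo up A k - en A) (e j) := by
          rcases h.tur j hi with g3 | g3 | g3
          · rw [g3, ip_self_dir hdj]
            refine ⟨by norm_num, ?_⟩
            have := hF.1
            rw [g3] at this
            linarith
          · have e1 : e j = rotR (e (j + 1)) := by
              rw [g3]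
              simp only [rotR, rotL]
              ext <;> simp
            refine ⟨?_, ?_⟩
            · have key : ∀ d ∈ dirs, 1 ≤ ip d (rotR d) := by decide
              rw [e1]
              exact key _ hd
            · rw [e1]
              exact ip_R_lo hF.1.le hF.2.2
          · have e1 : e j = rotL (e (j + 1)) := by
              rw [g3]
              simp only [rotR, rotL]
              ext <;> simp
            refine ⟨?_, ?_⟩
            · have key : ∀ d ∈ dirs, 1 ≤ ip d (rotL d) := by decide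
              rw [e1]
              exact key _ hd
            · rw [e1]
              exact ip_L_lo hF.1.le hF.2.2
        rw [a2, ip_add_left, ip_add_left, ip_smul] at a1
        have a4 := neg_hn_le_ip (en A - c) hdj
        have a5 := hA.pos
        have a6 : s ≤ s * ip (e (j + 1)) (e j) := by nlinarith [a3.1]
        linarith [a3.2]
  · have g3 : e i = up := by
      rw [h0]
      exact h.one (by omega)
    have e1 : en A = (en A - c) + c := by abel
    rw [e1, ip_add_left, hc, ip_add_left]
    have e2 : pv e D i = 0 := by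
      rw [h0]
      unfold pv ps
      rw [range_zero, sum_empty, smul_zero]
    have e3 : ip (0 : Pt) up = 0 := by decide
    rw [e2, e3, ← g3, ip_smul_self hd]
    have := neg_hn_le_ip (en A - c) hd
    rw [hc, e2] at this
    have h5 := hA.pos
    rw [hc, e2] at h5
    linarith

/-! ### 4. Turns -/

/-- turns of the scale R to the right (b = false) or to the left (b = true): half plane words, all vertices behind the end
line in the new direction -/
structure TurnB (b : Bool) (R S : ℤ) (V : List Bool) : Prop where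
  sa : V ∈ SA
  pos : ∀ j, 1 ≤ j → j ≤ V.length → 0 < ip (vx oo up V j) up
  sz : ∀ j, j ≤ V.length → hn (vx oo up V j) ≤ S
  dir : de V = turn b up
  hgt : R < ip (en V) up
  front : ∀ j, j ≤ V.length → ip (vx oo up V j - en V) (de V) ≤ 0

/-- **one turn by 60 degrees** -/
lemma step_T (h : IPath e r) (hi : i + 1 < r) {b : Bool} (he : e (i + 1) = turn b (e i)) {R S : ℤ} (hk : 0 ≤ kap)
    (hLb : Lb ≤ 2 * D + kap) (hB' : B + S ≤ B') (hD : 3 * B' + lam + kap + 1 < D) (hlam0 : 0 ≤ lam)
    (hlam : lam ≤ 2 * R) (hA : AS e D B i (pv e D (i + 1)) A) (hV : TurnB b R S V) : BS e D B' lam Lb (i + 1) (pv e D (i + 1)) (A ++ V) := by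
  have hB0 := (hn_nonneg _).trans hA.pos
  have hS0 := (hn_nonneg _).trans (hV.sz 0 (Nat.zero_le _))
  have hd := h.dir i (by omega)
  have hd1 := h.dir (i + 1) hi
  have hBB : B ≤ B' := by linarith
  have y1 : ∀ j, ip (mulE (rt A) (vx oo up V j)) (e i) = ip (vx oo up V j) up := fun j => by rw [← hA.dir, ip_rt]
  have y3 : ∀ j, en A + mulE (rt A) (vx oo up V j) - en A = mulE (rt A) (vx oo up V j) := fun j => by abel
  have y4 : ∀ j, j ≤ V.length → hn (en A + mulE (rt A) (vx oo up V j) - pv e D (i + 1)) ≤ B' := by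
    intro j hj
    rw [show en A + mulE (rt A) (vx oo up V j) - pv e D (i + 1) = (en A - pv e D (i + 1)) + mulE (rt A) (vx oo up V j) by
      abel]
    refine (hn_add _ _).trans ?_
    rw [hn_mulE (nrm_rt A)]
    linarith [hA.pos, hV.sz j hj]
  have hdir : de (A ++ V) = e (i + 1) := by
    rw [de_app, hV.dir, mulE_turn, rt_up, hA.dir, he]
  have hen : en (A ++ V) = en A + mulE (rt A) (vx oo up V V.length) := en_app A V
  have yN : ∀ j, j ≤ V.length → NS (pv e D (i + 1)) (e (i + 1)) D B' (en A + mulE (rt A) (vx oo up V j)) := by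
    intro j hj
    have hlamD : 0 ≤ D := by
      by_contra hc
      push Not at hc
      have : lam < 0 := by linarith
      obtain ⟨j', hj', -, t, ht0, ht1, -⟩ := hA.rg 0 (Nat.zero_le _)
      linarith
    exact ⟨0, le_rfl, hlamD, by rw [zero_smul, add_zero]; exact y4 j hj⟩
  refine ⟨?_, hdir, ?_, ?_, ?_, ?_, fun h0 => by omega⟩
  · refine sa_app hA.sa hV.sa fun k hk j hj hjl he' => ?_
    have h1 : 0 < ip (vx oo up A k - en A) (e i) := by
      rw [he', y3, y1]
      exact hV.pos j hj hjl
    rcases hA.bd k hk with g | ⟨j', -, hj', g⟩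
    · linarith
    · have h2 := sep_pt h (by omega : j' + 1 < i + 1) hi.le (y4 j hjl) g
      rw [← he', sub_self] at h2
      have h3 : hn (0 : Pt) = 0 := by decide
      rw [h3] at h2
      linarith
  · rw [hen]
    exact y4 _ le_rfl
  · refine all_app (P := fun x => NSs e D B' 0 (i + 1) x ∨ (NS (pv e D (i + 1)) (e (i + 1)) D B' x ∧
      ip (x - pv e D (i + 1)) (e (i + 1)) ≤ B')) (fun k hk => Or.inl ((hA.rg k hk).mono hBB)) fun j hj hjl => Or.inr
      ⟨yN j hjl, (ip_le_hn _ hd1).trans (y4 j hjl)⟩
  · intro k hk hkl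
    rcases Nat.lt_or_ge A.length k with g | g
    · obtain ⟨j, rfl⟩ : ∃ j, k = A.length + j := ⟨k - A.length, by omega⟩
      rw [List.length_append] at hkl
      rw [vx_app]
      exact Or.inr ⟨i + 1, by omega, by omega, yN j (by omega)⟩
    · rw [vx_append (by omega)]
      rcases hA.st k hk g with g1 | g1
      · exact Or.inl g1
      · exact Or.inr ((g1.mono hBB).mono' le_rfl (by omega))
  · refine all_app (P := fun x => ¬ FT (en (A ++ V)) (e (i + 1)) lam Lb x) (fun k hkl hF => ?_) fun j hj hjl hF => ?_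
    · -- the point is in front of the line of A
      have h1 : 0 < ip (vx oo up A k - en A) (e i) := by
        have e1 : vx oo up A k - en A = (vx oo up A k - en (A ++ V)) + mulE (rt A) (vx oo up V V.length) := by
          rw [hen]
          abel
        rw [e1, ip_add_left, y1]
        have h2 : R < ip (vx oo up V V.length) up := hV.hgt
        have h3 : -lam ≤ 2 * ip (vx oo up A k - en (A ++ V)) (e i) := by
          cases b
          · have e2 : e i = rotL (e (i + 1)) := by
              rw [he]
              simp only [turn, Bool.false_eq_true, if_false, rotR, rotL]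
              ext <;> simp
            rw [e2]
            exact ip_L_lo hF.1.le hF.2.2
          · have e2 : e i = rotR (e (i + 1)) := by
              rw [he]
              simp only [turn, if_true, rotR, rotL]
              ext <;> simp
            rw [e2]
            exact ip_R_lo hF.1.le hF.2.2
        linarith
      rcases hA.bd k hkl with g | ⟨j', -, hj', g⟩
      · linarith
      · have hD0 : 0 ≤ D := by
          obtain ⟨t, ht0, ht1, -⟩ := g
          linarith
        have h5 := ft_far h hi (B := B') (by rw [hen]; exact y4 _ le_rfl) hD0 hk hLb hF (by omega : j' + 1 < i + 1)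
          (g.mono hBB)
        linarith
    · have h1 := hV.front j hjl
      have h2 := hF.1
      rw [show en A + mulE (rt A) (vx oo up V j) - en (A ++ V) = mulE (rt A) (vx oo up V j - en V) by
        rw [mulE_sub, en_app]
        abel, ← hdir, de_app, ip_mulE, nrm_rt, one_mul] at h2
      linarith

/-! ### 5. Two cuts of the same class -/

lemma dir_same {A Z : List Bool} (hd : de (A ++ Z) = de A) : de Z = up := by
  rw [de_app, ← rt_up A] at hd
  exact mulE_inj (nrm_rt A) hd

/-- **two cuts in front of straight parts differ by a bridge** -/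
lemma zS {A Z V : List Bool} (hA : BS e D B lam Lb i c A) (hA' : BS e D B lam Lb i c (A ++ Z)) (hV : Z ++ V ∈ BU)
    (hlat : ∀ j, j ≤ (Z ++ V).length → |6 * lat (Z ++ V) j| ≤ lam) (hLb : 3 * (hgt (Z ++ V) : ℤ) ≤ Lb) : Z ∈ BU := by
  obtain ⟨v1, v2, v3, v4⟩ := BU_facts hV
  have hdz : de Z = up := dir_same (by rw [hA.dir, hA'.dir])
  have e0 : ∀ j, j ≤ Z.length → vx oo up (Z ++ V) j = vx oo up Z j := fun j hj => vx_append (by omega)
  have e0l : ∀ j, j ≤ Z.length → lat (Z ++ V) j = lat Z j := fun j hj => by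
    rw [TIP.lat_one, TIP.lat_one, e0 j hj]
  have hlen : (Z ++ V).length = Z.length + V.length := List.length_append
  have hup : ∀ j, j ≤ Z.length → ip (vx oo up Z j) up ≤ ip (en Z) up := by
    intro j hj
    by_contra hcc
    push Not at hcc
    refine hA'.ft (A.length + j) (by rw [List.length_append]; omega) ⟨?_, ?_, ?_⟩
    · rw [vx_app, en_app, show en A + mulE (rt A) (vx oo up Z j) - (en A + mulE (rt A) (en Z)) =
        mulE (rt A) (vx oo up Z j) - mulE (rt A) (en Z) by abel, ip_sub_left, ← hA.dir, ip_rt, ip_rt]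
      linarith
    · rw [vx_app, en_app, show en A + mulE (rt A) (vx oo up Z j) - (en A + mulE (rt A) (en Z)) =
        mulE (rt A) (vx oo up Z j) - mulE (rt A) (en Z) by abel, ip_sub_left, ← hA.dir, ip_rt, ip_rt]
      have h1 : ip (vx oo up Z j) up ≤ 3 * hgt (Z ++ V) := by
        rcases Nat.eq_zero_or_pos j with hz | hp
        · rw [hz]
          have : ip (vx oo up Z 0) up = 0 := lev_zero Z
          rw [this]
          positivity
        · have := (v4 j hp (by omega)).2
          rwa [e0 j hj] at this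
      have h2 : 0 ≤ ip (en Z) up := by
        rcases Nat.eq_zero_or_pos Z.length with hz | hp
        · have : ip (en Z) up = 0 := by
            unfold en
            rw [hz]
            exact lev_zero Z
          rw [this]
        · have := (v4 Z.length hp (by omega)).1
          rw [e0 _ le_rfl] at this
          exact this.le
      linarith
    · rw [vx_app, en_app, show en A + mulE (rt A) (vx oo up Z j) - (en A + mulE (rt A) (en Z)) =
        mulE (rt A) (vx oo up Z j) + -mulE (rt A) (en Z) by abel, Lt_add, ← hA.dir, Lt_rt]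
      have e1 : Lt (de A) (-mulE (rt A) (en Z)) = -(3 * lat Z Z.length) := by
        have : -mulE (rt A) (en Z) = (-1 : ℤ) • mulE (rt A) (en Z) := by simp
        rw [← Lt_up Z Z.length]
        unfold Lt
        rw [ip_neg_left, ip_neg_left]
        have h3 := Lt_rt A (en Z)
        unfold Lt at h3
        have e4 : en Z = vx oo up Z Z.length := rfl
        rw [← e4]
        linarith
      rw [e1, Lt_up]
      have h1 := hlat j (by omega)
      have h2 := hlat Z.length (by omega)
      rw [e0l j hj] at h1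
      rw [e0l _ le_rfl] at h2
      rw [abs_le] at h1 h2 ⊢
      constructor <;> linarith [h1.1, h1.2, h2.1, h2.2]
  have hlevZ : ∃ n : ℕ, lev Z Z.length = 3 * n := by
    have hm := lev_mod Z Z.length
    have h2 : 0 ≤ lev Z Z.length := by
      have := hup 0 (Nat.zero_le _)
      have h0 : ip (vx oo up Z 0) up = 0 := lev_zero Z
      rw [h0] at this
      exact this
    have he : Even Z.length := by
      by_contra hne
      have h3 := cl_dx up Z Z.length
      rw [if_neg hne] at h3
      have h4 : dx up Z Z.length = up := hdz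
      rw [h4] at h3
      revert h3
      decide
    rw [if_pos he] at hm
    exact ⟨(lev Z Z.length / 3).toNat, by omega⟩
  obtain ⟨n, hn⟩ := hlevZ
  refine ⟨n, mem_Brd.2 ⟨fun j hj hjl => ⟨?_, ?_⟩, fun a b hab hb he => ?_, hdz, hn⟩⟩
  · have := (v4 j hj (by omega)).1
    rw [e0 j hjl] at this
    exact this
  · have := hup j hjl
    have e5 : ip (en Z) up = lev Z Z.length := rfl
    rw [e5, hn] at this
    exact this
  · refine v1.inj a b hab (by omega) ?_
    rw [e0 a (by omega), e0 b hb]
    exact he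

/-- **two cuts in front of turns differ by a bridge** -/
lemma zT {A Z V : List Bool} (h : IPath e r) (hi : i < r) {n : ℕ} (hA : AS e D B i (pv e D (i + 1)) A)
    (hA' : AS e D B i (pv e D (i + 1)) (A ++ Z)) (hD : 2 * (n : ℤ) + 2 * B ≤ D) (hV : Z ++ V ∈ Hp n) : Z ∈ BU := by
  refine (zbu n A Z V (fun k hk h0 => ?_) hV (by rw [hA.dir, hA'.dir])).1
  rw [hA'.dir] at h0
  rcases hA'.bd k hk with g | ⟨j, -, hj, g⟩
  · linarith
  · have h1 := sep_pt h (by omega : j + 1 < i + 1) (by omega) hA'.pos g
    rw [hn_sub_comm] at h1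
    push_cast
    linarith

end AR

end HexObs
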