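import Pool.Agent.HexObs.Gf

/-!
# ARM2: gluing with free cuts by the second moment (helper51)

* **`glue`** : `AA` = words that end at a cut, `VV A` = the ends that may follow `A`, two cuts of one word differ by a word of
  `ZZ`; if all the masses of the ends are comparable with `v` then the mass of the words `A ++ V` is at least
  `gf AA * v / (8 C gf ZZ)`.
-/

set_option autoImplicit false

namespace HexObs

namespace AR

open Finset

open scoped ENNReal

open Classical in
lemma gf_ite (S : Set (List Bool)) : gf S = ∑' t : List Bool, if t ∈ S then wE t else 0 := by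
  unfold gf
  rw [tsum_subtype S wE]
  refine tsum_congr fun t => ?_
  by_cases h : t ∈ S
  · rw [Set.indicator_of_mem h, if_pos h]
  · rw [Set.indicator_of_notMem h, if_neg h]

/-- the sum over all the cuts -/
lemma cut_sum (f : List Bool → List Bool → ℝ≥0∞) :
    ∑' A : List Bool, ∑' Y : List Bool, f A Y =
      ∑' t : List Bool, ∑ k ∈ range (t.length + 1), f (t.take k) (t.drop k) := by
  classical
  have e1 : ∀ t : List Bool, ∑ k ∈ range (t.length + 1), f (t.take k) (t.drop k) =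
      ∑' k : ℕ, if k ≤ t.length then f (t.take k) (t.drop k) else 0 := by
    intro t
    rw [tsum_eq_sum (s := range (t.length + 1)) (fun k hk => if_neg (by rw [mem_range] at hk; omega))]
    exact sum_congr rfl fun k hk => (if_pos (by rw [mem_range] at hk; omega)).symm
  have e2 : ∑' t : List Bool, ∑ k ∈ range (t.length + 1), f (t.take k) (t.drop k) =
      ∑' t : List Bool, ∑' k : ℕ, (fun t k => if k ≤ t.length then f (t.take k) (t.drop k) else 0) t k :=
    tsum_congr e1
  rw [e2, ← ENNReal.tsum_prod, ← ENNReal.tsum_prod]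
  symm
  refine tsum_eq_tsum_of_ne_zero_bij (fun p => (p.1.1 ++ p.1.2, p.1.1.length)) ?_ ?_ ?_
  · rintro ⟨⟨A, Y⟩, h1⟩ ⟨⟨A', Y'⟩, h2⟩ h
    simp only [Prod.mk.injEq] at h
    obtain ⟨h3, h4⟩ := h
    obtain ⟨h5, h6⟩ := List.append_inj h3 h4
    exact Subtype.ext (Prod.ext h5 h6)
  · rintro ⟨t, k⟩ h
    rw [Function.mem_support] at h
    by_cases hk : k ≤ t.length
    · refine ⟨⟨(t.take k, t.drop k), ?_⟩, ?_⟩
      · rw [Function.mem_support]
        intro h0
        refine h ?_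
        show (if k ≤ t.length then f (t.take k) (t.drop k) else 0) = 0
        rw [if_pos hk]
        exact h0
      · show (t.take k ++ t.drop k, (t.take k).length) = (t, k)
        rw [List.take_append_drop, List.length_take, min_eq_left hk]
    · exact absurd (if_neg hk) h
  · rintro ⟨⟨A, Y⟩, h⟩
    show (if A.length ≤ (A ++ Y).length then f ((A ++ Y).take A.length) ((A ++ Y).drop A.length) else 0) = f A Y
    rw [if_pos (by rw [List.length_append]; omega), List.take_left' rfl, List.drop_left' rfl]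

/-- the products -/
def Pr (AA : Set (List Bool)) (VV : List Bool → Set (List Bool)) : Set (List Bool) :=
  {t | ∃ A ∈ AA, ∃ V ∈ VV A, t = A ++ V}

open Classical in
/-- the cuts of a product -/
noncomputable def Kt (AA : Set (List Bool)) (VV : List Bool → Set (List Bool)) (t : List Bool) : Finset ℕ :=
  (range (t.length + 1)).filter fun k => t.take k ∈ AA ∧ t.drop k ∈ VV (t.take k)

lemma mem_Kt {AA : Set (List Bool)} {VV : List Bool → Set (List Bool)} {t : List Bool} {k : ℕ} :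
    k ∈ Kt AA VV t ↔ k ≤ t.length ∧ t.take k ∈ AA ∧ t.drop k ∈ VV (t.take k) := by
  classical
  unfold Kt
  rw [mem_filter, mem_range]
  constructor
  · rintro ⟨h1, h2⟩
    exact ⟨by omega, h2⟩
  · rintro ⟨h1, h2⟩
    exact ⟨by omega, h2⟩

/-- the square of a number and the ordered pairs -/
lemma sq_le_ord (S : Finset ℕ) : (S.card : ℝ≥0∞) ^ 2 ≤ 2 * ∑ k ∈ S, ((S.filter fun k' => k ≤ k').card : ℝ≥0∞) := by
  classical
  have h1 : S.card ^ 2 ≤ 2 * ∑ k ∈ S, (S.filter fun k' => k ≤ k').card := by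
    have e1 : S.card ^ 2 = ∑ k ∈ S, ∑ k' ∈ S, 1 := by
      simp [sq]
    have e2 : ∀ k ∈ S, ∑ k' ∈ S, 1 ≤ (S.filter fun k' => k ≤ k').card + (S.filter fun k' => k' ≤ k).card := by
      intro k _
      rw [← card_eq_sum_ones]
      refine le_trans (card_le_card fun k' hk' => ?_) (card_union_le _ _)
      rw [mem_union, mem_filter, mem_filter]
      rcases le_total k k' with h | h
      · exact Or.inl ⟨hk', h⟩
      · exact Or.inr ⟨hk', h⟩
    have e3 : ∑ k ∈ S, (S.filter fun k' => k' ≤ k).card = ∑ k ∈ S, (S.filter fun k' => k ≤ k').card := by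
      simp_rw [card_filter]
      rw [sum_comm]
    calc S.card ^ 2 = ∑ k ∈ S, ∑ k' ∈ S, 1 := e1
      _ ≤ ∑ k ∈ S, ((S.filter fun k' => k ≤ k').card + (S.filter fun k' => k' ≤ k).card) := sum_le_sum e2
      _ = _ := by rw [sum_add_distrib, e3]; ring
  exact_mod_cast h1

variable {AA ZZ : Set (List Bool)} {VV : List Bool → Set (List Bool)} {v C K : ℝ≥0∞}

open Classical in
/-- the first moment -/
lemma sum_one : ∑' A : List Bool, (if A ∈ AA then wE A * gf (VV A) else 0) =
    ∑' t : List Bool, wE t * ((Kt AA VV t).card : ℝ≥0∞) := by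
  have e1 : ∀ A : List Bool, (if A ∈ AA then wE A * gf (VV A) else 0) =
      ∑' V : List Bool, if A ∈ AA ∧ V ∈ VV A then wE A * wE V else 0 := by
    intro A
    by_cases h : A ∈ AA
    · rw [if_pos h, gf_ite, ← ENNReal.tsum_mul_left]
      refine tsum_congr fun V => ?_
      by_cases hV : V ∈ VV A
      · rw [if_pos hV, if_pos ⟨h, hV⟩]
      · rw [if_neg hV, if_neg (fun h' => hV h'.2), mul_zero]
    · rw [if_neg h]
      symm
      rw [ENNReal.tsum_eq_zero]
      exact fun V => if_neg fun h' => h h'.1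
  rw [tsum_congr e1, cut_sum]
  refine tsum_congr fun t => ?_
  rw [mul_comm, ← nsmul_eq_mul, ← sum_const]
  unfold Kt
  rw [sum_filter]
  refine sum_congr rfl fun k hk => ?_
  by_cases h : t.take k ∈ AA ∧ t.drop k ∈ VV (t.take k)
  · rw [if_pos h, if_pos h, ← wE_append, List.take_append_drop]
  · rw [if_neg h, if_neg h]

open Classical in
/-- the second moment -/
lemma sum_two (h2 : ∀ A ∈ AA, gf (VV A) ≤ C * v)
    (h3 : ∀ A ∈ AA, ∀ A' ∈ AA, ∀ V ∈ VV A, ∀ V' ∈ VV A', A ++ V = A' ++ V' → A.length ≤ A'.length →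
      ∃ Z ∈ ZZ, A' = A ++ Z) (h4 : gf ZZ ≤ K) :
    ∑' t : List Bool, wE t * ((Kt AA VV t).card : ℝ≥0∞) ^ 2 ≤ 2 * (gf AA * (K * (C * v))) := by
  have h5 : ∀ t : List Bool, wE t * ((Kt AA VV t).card : ℝ≥0∞) ^ 2 ≤
      2 * ∑ k ∈ range (t.length + 1), (if t.take k ∈ AA then wE (t.take k) * (wE (t.drop k) *
        (((range ((t.drop k).length + 1)).filter fun j => (t.drop k).take j ∈ ZZ ∧ t.take k ++ (t.drop k).take j ∈ AA ∧
          (t.drop k).drop j ∈ VV (t.take k ++ (t.drop k).take j)).card : ℝ≥0∞)) else 0) := by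
    intro t
    refine (mul_le_mul' le_rfl (sq_le_ord _)).trans ?_
    rw [← mul_assoc, mul_comm (wE t) 2, mul_assoc, mul_sum]
    refine mul_le_mul' le_rfl ?_
    refine le_trans ?_ (sum_le_sum_of_subset (filter_subset (fun k => t.take k ∈ AA ∧ t.drop k ∈ VV (t.take k)) _))
    refine sum_le_sum fun k hk => ?_
    obtain ⟨hk1, hk2, hk3⟩ := mem_Kt.1 hk
    rw [if_pos hk2, ← mul_assoc, ← wE_append, List.take_append_drop]
    refine mul_le_mul' le_rfl ?_
    norm_cast
    refine card_le_card_of_injOn (fun k' => k' - k) ?_ ?_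
    · intro k' hk'
      rw [mem_coe, mem_filter] at hk'
      obtain ⟨hk4, hk5⟩ := hk'
      obtain ⟨hk6, hk7, hk8⟩ := mem_Kt.1 hk4
      obtain ⟨Z, hZ, he⟩ := h3 _ hk2 _ hk7 _ hk3 _ hk8 (by rw [List.take_append_drop, List.take_append_drop])
        (by rw [List.length_take, List.length_take]; omega)
      have e1 : t.take k' = t.take k ++ (t.drop k).take (k' - k) := by
        rw [← List.take_add, show k + (k' - k) = k' by omega]
      have e2 : t.drop k' = (t.drop k).drop (k' - k) := by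
        rw [List.drop_drop, show k + (k' - k) = k' by omega]
      show k' - k ∈ (_ : Set ℕ)
      rw [mem_coe, mem_filter, mem_range, List.length_drop]
      have e3 : Z = (t.drop k).take (k' - k) := List.append_cancel_left (he.symm.trans e1)
      refine ⟨by omega, by rw [← e3]; exact hZ, by rw [← e1]; exact hk7, ?_⟩
      rw [← e1, ← e2]
      exact hk8
    · intro a ha b hb he
      rw [mem_coe, mem_filter] at ha hb
      simp only at he
      have := ha.2
      have := hb.2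
      omega
  refine (ENNReal.tsum_le_tsum h5).trans ?_
  rw [ENNReal.tsum_mul_left]
  refine mul_le_mul' le_rfl ?_
  rw [← cut_sum (fun A Y => if A ∈ AA then wE A * (wE Y *
        (((range (Y.length + 1)).filter fun j => Y.take j ∈ ZZ ∧ A ++ Y.take j ∈ AA ∧
          Y.drop j ∈ VV (A ++ Y.take j)).card : ℝ≥0∞)) else 0), gf_ite AA, ← ENNReal.tsum_mul_right]
  refine ENNReal.tsum_le_tsum fun A => ?_
  by_cases hA : A ∈ AA
  · simp only [if_pos hA]
    rw [ENNReal.tsum_mul_left]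
    refine mul_le_mul' le_rfl ?_
    have h6 : ∀ Y : List Bool, wE Y * (((range (Y.length + 1)).filter fun j => Y.take j ∈ ZZ ∧ A ++ Y.take j ∈ AA ∧
          Y.drop j ∈ VV (A ++ Y.take j)).card : ℝ≥0∞) =
        ∑ j ∈ range (Y.length + 1), (if Y.take j ∈ ZZ ∧ A ++ Y.take j ∈ AA ∧ Y.drop j ∈ VV (A ++ Y.take j) then
          wE (Y.take j) * wE (Y.drop j) else 0) := by
      intro Y
      rw [mul_comm, ← nsmul_eq_mul, ← sum_const, sum_filter]
      refine sum_congr rfl fun j _ => ?_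
      rw [← wE_append, List.take_append_drop]
    rw [tsum_congr h6, ← cut_sum (fun Z V => if Z ∈ ZZ ∧ A ++ Z ∈ AA ∧ V ∈ VV (A ++ Z) then wE Z * wE V else 0)]
    refine le_trans ?_ (mul_le_mul' h4 le_rfl)
    rw [gf_ite ZZ, ← ENNReal.tsum_mul_right]
    refine ENNReal.tsum_le_tsum fun Z => ?_
    by_cases hZ : Z ∈ ZZ ∧ A ++ Z ∈ AA
    · rw [if_pos hZ.1]
      refine le_trans ?_ (mul_le_mul' le_rfl (h2 _ hZ.2))
      rw [gf_ite, ← ENNReal.tsum_mul_left]
      refine ENNReal.tsum_le_tsum fun V => ?_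
      by_cases hV : V ∈ VV (A ++ Z)
      · rw [if_pos hV, if_pos ⟨hZ.1, hZ.2, hV⟩]
      · rw [if_neg hV, if_neg (fun h' => hV h'.2.2), mul_zero]
    · refine le_trans (le_of_eq ?_) (zero_le (a := _))
      rw [ENNReal.tsum_eq_zero]
      exact fun V => if_neg fun h' => hZ ⟨h'.1, h'.2.1⟩
  · simp only [if_neg hA]
    rw [tsum_zero]
    exact zero_le

/-- **gluing with free cuts** -/
theorem glue (h1 : ∀ A ∈ AA, v ≤ gf (VV A)) (h2 : ∀ A ∈ AA, gf (VV A) ≤ C * v)
    (h3 : ∀ A ∈ AA, ∀ A' ∈ AA, ∀ V ∈ VV A, ∀ V' ∈ VV A', A ++ V = A' ++ V' → A.length ≤ A'.length →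
      ∃ Z ∈ ZZ, A' = A ++ Z) (h4 : gf ZZ ≤ K) (hA : gf AA ≠ ∞) (hv : v ≠ ∞) (hC : C ≠ 0) (hC' : C ≠ ∞)
    (hK : K ≠ 0) (hK' : K ≠ ∞) : gf AA * v ≤ 8 * (C * K) * gf (Pr AA VV) := by
  classical
  obtain ⟨S, hS⟩ : ∃ S, S = ∑' t : List Bool, wE t * ((Kt AA VV t).card : ℝ≥0∞) := ⟨_, rfl⟩
  have hS1 : gf AA * v ≤ S := by
    rw [hS, ← sum_one, gf_ite AA, ← ENNReal.tsum_mul_right]
    refine ENNReal.tsum_le_tsum fun A => ?_
    by_cases h : A ∈ AA
    · rw [if_pos h, if_pos h]
      exact mul_le_mul' le_rfl (h1 A h)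
    · rw [if_neg h, if_neg h, zero_mul]
  have hS2 : S ≤ gf AA * (C * v) := by
    rw [hS, ← sum_one, gf_ite AA, ← ENNReal.tsum_mul_right]
    refine ENNReal.tsum_le_tsum fun A => ?_
    by_cases h : A ∈ AA
    · rw [if_pos h, if_pos h]
      exact mul_le_mul' le_rfl (h2 A h)
    · rw [if_neg h, if_neg h, zero_mul]
  have hSt : S ≠ ∞ := ne_top_of_le_ne_top (ENNReal.mul_ne_top hA (ENNReal.mul_ne_top hC' hv)) hS2
  have hD0 : C * K ≠ 0 := mul_ne_zero hC hK
  have hDt : C * K ≠ ∞ := ENNReal.mul_ne_top hC' hK'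
  obtain ⟨D, hD⟩ : ∃ D, D = C * K := ⟨_, rfl⟩
  rw [← hD] at hD0 hDt ⊢
  have h5 : ∑' t : List Bool, wE t * ((Kt AA VV t).card : ℝ≥0∞) ^ 2 ≤ 2 * (D * S) := by
    refine (sum_two h2 h3 h4).trans (mul_le_mul' le_rfl ?_)
    calc gf AA * (K * (C * v)) = D * (gf AA * v) := by rw [hD]; ring
      _ ≤ _ := mul_le_mul' le_rfl hS1
  have h6 : ∀ N : ℕ, 4 * D * (N : ℝ≥0∞) ≤ (4 * D) ^ 2 * (if 0 < N then 1 else 0) + (N : ℝ≥0∞) ^ 2 := by
    intro N
    rcases Nat.eq_zero_or_pos N with h | h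
    · rw [h]
      simp
    · rw [if_pos h, mul_one]
      rcases le_total (N : ℝ≥0∞) (4 * D) with h' | h'
      · refine le_trans ?_ le_self_add
        rw [sq]
        exact mul_le_mul' le_rfl h'
      · refine le_trans ?_ le_add_self
        rw [sq]
        exact mul_le_mul' h' le_rfl
  have h7 : ∑' t : List Bool, wE t * (if 0 < (Kt AA VV t).card then (1 : ℝ≥0∞) else 0) ≤ gf (Pr AA VV) := by
    rw [gf_ite]
    refine ENNReal.tsum_le_tsum fun t => ?_
    by_cases h : 0 < (Kt AA VV t).card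
    · obtain ⟨k, hk⟩ := card_pos.1 h
      obtain ⟨hk1, hk2, hk3⟩ := mem_Kt.1 hk
      rw [if_pos h, if_pos ⟨_, hk2, _, hk3, (List.take_append_drop _ _).symm⟩, mul_one]
    · rw [if_neg h, mul_zero]
      exact zero_le
  have h8 : 4 * D * S ≤ (4 * D) ^ 2 * gf (Pr AA VV) + 2 * (D * S) := by
    calc 4 * D * S = ∑' t : List Bool, wE t * (4 * D * ((Kt AA VV t).card : ℝ≥0∞)) := by
          rw [hS, ← ENNReal.tsum_mul_left]
          exact tsum_congr fun t => by ring
      _ ≤ ∑' t : List Bool, ((4 * D) ^ 2 * (wE t * (if 0 < (Kt AA VV t).card then (1 : ℝ≥0∞) else 0)) +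
          wE t * ((Kt AA VV t).card : ℝ≥0∞) ^ 2) := by
          refine ENNReal.tsum_le_tsum fun t => ?_
          refine (mul_le_mul' le_rfl (h6 _)).trans (le_of_eq ?_)
          ring
      _ ≤ _ := by
          rw [ENNReal.tsum_add, ENNReal.tsum_mul_left]
          exact add_le_add (mul_le_mul' le_rfl h7) h5
  have h9 : 2 * (D * S) ≤ (4 * D) ^ 2 * gf (Pr AA VV) := by
    have e1 : 4 * D * S = 2 * (D * S) + 2 * (D * S) := by ring
    rw [e1] at h8
    exact (ENNReal.add_le_add_iff_right (ENNReal.mul_ne_top (by norm_num) (ENNReal.mul_ne_top hDt hSt))).1 h8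
  have h10 : (2 * D) * S ≤ (2 * D) * (8 * D * gf (Pr AA VV)) := by
    calc (2 * D) * S = 2 * (D * S) := by ring
      _ ≤ _ := h9
      _ = _ := by ring
  exact hS1.trans ((ENNReal.mul_le_mul_iff_right (mul_ne_zero (by norm_num) hD0) (ENNReal.mul_ne_top (by norm_num) hDt)).1 h10)

/-! ### Minimal cuts -/

/-- the minimal cuts -/
def Mi (AA BB : Set (List Bool)) : Set (List Bool) := {A | A ∈ AA ∧ ∀ A1 ∈ AA, ∀ Z ∈ BB, A = A1 ++ Z → Z = []}

/-- the differences of two cuts -/
def Df (AA BB : Set (List Bool)) : Set (List Bool) := {Z | Z ∈ BB ∧ ∃ A ∈ AA, A ++ Z ∈ AA}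

variable {BB : Set (List Bool)}

lemma mi_mass (hB0 : [] ∈ BB) (hB : ∀ Z1 ∈ BB, ∀ Z2 ∈ BB, Z1 ++ Z2 ∈ BB) :
    gf AA ≤ gf (Mi AA BB) * gf (Df AA BB) := by
  classical
  have key : ∀ A ∈ AA, ∃ A1 Z, A1 ∈ Mi AA BB ∧ Z ∈ Df AA BB ∧ A = A1 ++ Z := by
    intro A hA
    have h1 : ∃ n, ∃ A1 ∈ AA, ∃ Z ∈ BB, A = A1 ++ Z ∧ A1.length = n := ⟨_, A, hA, [], hB0, (List.append_nil A).symm, rfl⟩
    obtain ⟨A1, hA1, Z, hZ, he, hn⟩ := Nat.find_spec h1
    refine ⟨A1, Z, ⟨hA1, fun A2 hA2 Z2 hZ2 he2 => ?_⟩, ⟨hZ, A1, hA1, by rw [← he]; exact hA⟩, he⟩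
    by_contra h0
    have h2 : A2.length < Nat.find h1 := by
      rw [← hn, he2, List.length_append]
      have : 0 < Z2.length := List.length_pos_iff.2 h0
      omega
    refine Nat.find_min h1 h2 ⟨A2, hA2, Z2 ++ Z, hB _ hZ2 _ hZ, ?_, rfl⟩
    rw [← List.append_assoc, ← he2]
    exact he
  choose! f g hfg using key
  have h := gf_le_pair (P := AA) (Q := Mi AA BB) (R := Df AA BB) 1 f g (fun t ht => (hfg t ht).1)
    (fun t ht => (hfg t ht).2.1) (fun s hs t ht h1 h2 => by rw [(hfg s hs).2.2, (hfg t ht).2.2, h1, h2])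
    (fun t ht => by
      rw [one_mul, ← wE_append, ← (hfg t ht).2.2])
  rwa [one_mul] at h

/-- **gluing with minimal cuts**: no upper bound for the masses of the ends -/
theorem glueM (hB0 : [] ∈ BB) (hB : ∀ Z1 ∈ BB, ∀ Z2 ∈ BB, Z1 ++ Z2 ∈ BB) (h1 : ∀ A ∈ AA, v ≤ gf (VV A))
    (h3 : ∀ A ∈ AA, ∀ A' ∈ AA, ∀ V ∈ VV A, ∀ V' ∈ VV A', A ++ V = A' ++ V' → A.length ≤ A'.length →
      ∃ Z ∈ BB, A' = A ++ Z) : gf AA * v ≤ gf (Df AA BB) * gf (Pr AA VV) := by
  classical
  have h2 : gf (Mi AA BB) * v ≤ gf (Pr AA VV) := by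
    calc gf (Mi AA BB) * v ≤ ∑' A : List Bool, (if A ∈ Mi AA BB then wE A * gf (VV A) else 0) := by
          rw [gf_ite, ← ENNReal.tsum_mul_right]
          refine ENNReal.tsum_le_tsum fun A => ?_
          by_cases h : A ∈ Mi AA BB
          · rw [if_pos h, if_pos h]
            exact mul_le_mul' le_rfl (h1 A h.1)
          · rw [if_neg h, if_neg h, zero_mul]
      _ = ∑' t : List Bool, wE t * ((Kt (Mi AA BB) VV t).card : ℝ≥0∞) := sum_one
      _ ≤ gf (Pr AA VV) := by
          rw [gf_ite]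
          refine ENNReal.tsum_le_tsum fun t => ?_
          rcases Nat.eq_zero_or_pos (Kt (Mi AA BB) VV t).card with h | h
          · rw [h, Nat.cast_zero, mul_zero]
            exact zero_le
          · have h4 : (Kt (Mi AA BB) VV t).card ≤ 1 := by
              have key : ∀ a ∈ Kt (Mi AA BB) VV t, ∀ b ∈ Kt (Mi AA BB) VV t, a ≤ b → a = b := by
                intro a ha b hb hab
                obtain ⟨ha1, ha2, ha3⟩ := mem_Kt.1 ha
                obtain ⟨hb1, hb2, hb3⟩ := mem_Kt.1 hb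
                obtain ⟨Z, hZ, he⟩ := h3 _ ha2.1 _ hb2.1 _ ha3 _ hb3
                  (by rw [List.take_append_drop, List.take_append_drop])
                  (by rw [List.length_take, List.length_take]; omega)
                have h5 := hb2.2 _ ha2.1 Z hZ he
                have h6 := congrArg List.length he
                rw [h5, List.append_nil, List.length_take, List.length_take] at h6
                omega
              rw [card_le_one]
              intro a ha b hb
              rcases le_total a b with h | h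
              · exact key a ha b hb h
              · exact (key b hb a ha h).symm
            have h5 : (Kt (Mi AA BB) VV t).card = 1 := by omega
            obtain ⟨k, hk⟩ := card_pos.1 h
            obtain ⟨hk1, hk2, hk3⟩ := mem_Kt.1 hk
            rw [h5, Nat.cast_one, mul_one, if_pos ⟨_, hk2.1, _, hk3, (List.take_append_drop _ _).symm⟩]
  calc gf AA * v ≤ gf (Mi AA BB) * gf (Df AA BB) * v := mul_le_mul' (mi_mass hB0 hB) le_rfl
    _ = gf (Df AA BB) * (gf (Mi AA BB) * v) := by ring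
    _ ≤ _ := mul_le_mul' le_rfl h2

end AR

end HexObs
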