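import Pool.Agent.ARM2.Glue
import Pool.Agent.ARM2.PathG
import Pool.Agent.POL.MassM
import Pool.Agent.TPC.StSum

/-!
# ARM2: words along a coarse path, masses of one step (helper51)
-/

set_option autoImplicit false

namespace HexObs

namespace AR

open Finset TIW TS SDN POL

open scoped ENNReal

variable {e : ℕ → Pt} {r i : ℕ} {D B B' lam Lb kap mu : ℤ} {c : Pt}

/-! ### 1. The differences of two cuts -/

/-- the mass of the differences of two cuts with tips in one place -/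
lemma df_mass {AA : Set (List Bool)} {d c : Pt} {n : ℕ} (h : ∀ A ∈ AA, de A = d ∧ hn (en A - c) ≤ n) :
    gf (Df AA BU) ≤ ENNReal.ofReal (UU n) := by
  refine le_trans (gf_mono ?_) (TIP.gf_low n)
  rintro Z ⟨hZ, A, hA, hAZ⟩
  refine ⟨hZ, ?_⟩
  obtain ⟨h1, h2⟩ := h A hA
  obtain ⟨h3, h4⟩ := h _ hAZ
  have h5 := (BU_facts hZ).2.2.1
  have h6 : en (A ++ Z) - en A = mulE (rt A) (en Z) := by
    rw [en_app]
    abel
  have h7 := ip_rt A (en Z)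
  rw [← h6, h5] at h7
  have h8 := ip_le_hn (en (A ++ Z) - en A) (de_mem A)
  have h9 := hn_tri (en (A ++ Z)) c (en A)
  rw [hn_sub_comm c] at h9
  omega

/-- **mass of one straight part** -/
lemma mass_S {AA : Set (List Bool)} {VV : List Bool → Set (List Bool)} {v : ℝ≥0∞}
    (hA : ∀ A ∈ AA, BS e D B lam Lb i c A) (hV : ∀ A ∈ AA, ∀ V ∈ VV A, V ∈ BU ∧
      (∀ j, j ≤ V.length → |6 * lat V j| ≤ lam) ∧ 3 * (hgt V : ℤ) ≤ Lb) (hv : ∀ A ∈ AA, v ≤ gf (VV A)) :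
    gf AA * v ≤ gf (Df AA BU) * gf (Pr AA VV) := by
  refine glueM TIP.FreeA.BU_nil (fun _ h _ h' => TIP.FreeA.BU_app h h') hv fun A hA1 A' hA2 V hV1 V' hV2 he hl => ?_
  obtain ⟨Z, rfl⟩ : ∃ Z, A' = A ++ Z := by
    have h1 : A <+: A' ++ V' := ⟨V, he⟩
    have h2 : A' <+: A' ++ V' := List.prefix_append _ _
    obtain ⟨Z, hZ⟩ := List.prefix_of_prefix_length_le h1 h2 hl
    exact ⟨Z, hZ.symm⟩
  rw [List.append_assoc] at he
  have he' := List.append_cancel_left he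
  obtain ⟨g1, g2, g3⟩ := hV A hA1 V hV1
  rw [he'] at g1 g2 g3
  exact ⟨Z, zS (hA _ hA1) (hA _ hA2) g1 g2 g3, rfl⟩

/-- **mass of one turn** -/
lemma mass_T {AA VV : Set (List Bool)} (h : IPath e r) (hi : i < r) {n : ℕ}
    (hA : ∀ A ∈ AA, AS e D B i (pv e D (i + 1)) A) (hV : VV ⊆ Hp n) (hD : 2 * (n : ℤ) + 2 * B ≤ D) :
    gf AA * gf VV ≤ gf (Df AA BU) * gf (Pr AA fun _ => VV) := by
  refine glueM TIP.FreeA.BU_nil (fun _ h _ h' => TIP.FreeA.BU_app h h') (fun _ _ => le_rfl) fun A hA1 A' hA2 V hV1 V' hV2 he hl => ?_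
  obtain ⟨Z, rfl⟩ : ∃ Z, A' = A ++ Z := by
    have h1 : A <+: A' ++ V' := ⟨V, he⟩
    have h2 : A' <+: A' ++ V' := List.prefix_append _ _
    obtain ⟨Z, hZ⟩ := List.prefix_of_prefix_length_le h1 h2 hl
    exact ⟨Z, hZ.symm⟩
  rw [List.append_assoc] at he
  have he' := List.append_cancel_left he
  have g1 := hV hV1
  rw [he'] at g1
  exact ⟨Z, zT h hi (hA _ hA1) (hA _ hA2) hD g1, rfl⟩

/-! ### 2. Straight parts -/

/-- the mean number of letters at the scale k -/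
noncomputable abbrev mm (k : ℕ) : ℝ := PW.mZ (2 ^ k)

/-- straight parts of the scale l with a given height and few letters -/
def VS (l : ℕ) (ε : ℝ) (t : ℤ) : Set (List Bool) :=
  {V | V ∈ BU ∧ (∀ j, j ≤ V.length → |6 * lat V j| ≤ 2 ^ l) ∧ |3 * (hgt V : ℤ) - t| ≤ 2 ^ l ∧ (V.length : ℝ) ≤ ε * mm l}

lemma vs_mass (H : ℕ) {ε : ℝ} (hε : 0 < ε) : ∃ (c : ℝ) (l0 : ℕ), 0 < c ∧ ∀ (l : ℕ) (t : ℤ), l0 ≤ l → 0 ≤ t →
    t ≤ 3 * (H * 2 ^ l) → ENNReal.ofReal (c * Ub l) ≤ gf (VS l ε t) := by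
  obtain ⟨c, k0, hc, h⟩ := tdW_M H ε (1 / 6) hε (by norm_num)
  refine ⟨c, max k0 2, hc, fun l t hl h0 ht => ?_⟩
  have hl0 : k0 ≤ l := (le_max_left _ _).trans hl
  have hl2 : 2 ≤ l := (le_max_right _ _).trans hl
  have h4 : (4 : ℤ) ≤ 2 ^ l := by
    have : (2 : ℤ) ^ 2 ≤ 2 ^ l := pow_le_pow_right₀ (by norm_num) hl2
    linarith
  obtain ⟨n, hn⟩ : ∃ n : ℕ, n = (t / 3).toNat := ⟨_, rfl⟩
  have hn1 : 3 * (n : ℤ) ≤ t := by omega
  have hn2 : t < 3 * (n : ℤ) + 3 := by omega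
  have hn3 : n ≤ H * 2 ^ l := by
    have : (n : ℤ) ≤ H * 2 ^ l := by linarith
    exact_mod_cast this
  refine (h l n hl0 hn3).trans (gf_mono ?_)
  rintro V ⟨g1, g2, g3, g4, g5⟩
  refine ⟨g1, fun j hj => ?_, ?_, g5⟩
  · have h5 := g4 j hj
    have h6 : ((|6 * lat V j| : ℤ) : ℝ) ≤ ((2 ^ l : ℤ) : ℝ) := by
      push_cast
      rw [abs_mul, abs_of_pos (by norm_num : (0 : ℝ) < 6)]
      linarith
    exact_mod_cast h6
  · have h5 : (hgt V : ℝ) ≤ n + 1 / 6 * 2 ^ l := g3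
    have h6 : 6 * (hgt V : ℤ) ≤ 6 * n + 2 ^ l := by
      have : (6 : ℝ) * hgt V ≤ 6 * n + 2 ^ l := by linarith
      exact_mod_cast this
    rw [abs_le]
    constructor
    · have : (n : ℤ) ≤ hgt V := by exact_mod_cast g2
      linarith
    · linarith

/-! ### 3. Real form -/

lemma of_step {x y u K : ℝ} (hK : 0 < K) (hx : 0 ≤ x) (hu : 0 ≤ u) {a v d p : ℝ≥0∞} (h : a * v ≤ d * p)
    (ha : ENNReal.ofReal (x * K) ≤ a) (hv : ENNReal.ofReal u ≤ v) (hd : d ≤ ENNReal.ofReal K) (hy : y ≤ x * u) :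
    ENNReal.ofReal y ≤ p := by
  have h1 : ENNReal.ofReal K * ENNReal.ofReal (x * u) ≤ ENNReal.ofReal K * p := by
    calc ENNReal.ofReal K * ENNReal.ofReal (x * u) = ENNReal.ofReal (x * K) * ENNReal.ofReal u := by
          rw [← ENNReal.ofReal_mul hK.le, ← ENNReal.ofReal_mul (by positivity)]
          congr 1
          ring
      _ ≤ a * v := mul_le_mul' ha hv
      _ ≤ d * p := h
      _ ≤ _ := mul_le_mul' hd le_rfl
  refine (ENNReal.ofReal_le_ofReal hy).trans ?_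
  exact (ENNReal.mul_le_mul_iff_right (by simpa using hK) ENNReal.ofReal_ne_top).1 h1

/-- the bridges lower than b 2 ^ l -/
lemma UU_scale (b : ℕ) : ∃ C : ℝ, 1 ≤ C ∧ ∀ l : ℕ, UU (b * 2 ^ l) ≤ C * Ub l := by
  obtain ⟨j, hj⟩ : ∃ j : ℕ, b ≤ 2 ^ j := ⟨b, Nat.lt_two_pow_self.le⟩
  refine ⟨2 ^ j, one_le_pow₀ (by norm_num), fun l => ?_⟩
  refine le_trans ?_ (TPC.Ub_pow l j)
  refine Num2Aux.UU_mono ?_
  rw [pow_add, mul_comm (2 ^ l)]
  exact Nat.mul_le_mul_right _ hj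

end AR

end HexObs
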