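import Pool.Agent.ARM2.Path
import Pool.Agent.ARM.DefsG

/-!
# ARM2: the serpentine (helper51)

`snk h M` : columns of height h, M times up and down, the last column goes upwards for ever; period 2 h + 4:
up ^ h, R1, R2, down ^ h, R2, R1 with R1 = (1, 0), R2 = (1, -1). The first (2 h + 4) M + s steps form an induced path.
-/

set_option autoImplicit false

namespace HexObs

namespace AR

open Finset TIW

/-- one period -/
def snP (h s : ℕ) : Pt :=
  if s < h then up else if s = h then (1, 0) else if s = h + 1 then (1, -1) else if s < 2 * h + 2 then (0, -1) else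
    if s = 2 * h + 2 then (1, -1) else (1, 0)

/-- **the serpentine** -/
def snk (h M i : ℕ) : Pt := if i < (2 * h + 4) * M then snP h (i % (2 * h + 4)) else up

/-- position inside a period -/
def snX (h s : ℕ) : ℤ := if s ≤ h then 0 else if s = h + 1 then 1 else if s ≤ 2 * h + 2 then 2 else if s = 2 * h + 3 then 3 else 4

/-- position inside a period -/
def snY (h s : ℕ) : ℤ := if s ≤ h then s else if s = h + 1 then h else if s ≤ 2 * h + 2 then 2 * h + 1 - s else -2

lemma snP_mem (h s : ℕ) : snP h s ∈ dirs := by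
  have h1 : up ∈ dirs := upd'
  have h2 : ((1, 0) : Pt) ∈ dirs := by decide
  have h3 : ((1, -1) : Pt) ∈ dirs := by decide
  have h4 : ((0, -1) : Pt) ∈ dirs := by decide
  unfold snP
  split_ifs <;> assumption

lemma snP_step {h s : ℕ} (hs : s < 2 * h + 4) : snP h s = (snX h (s + 1) - snX h s, snY h (s + 1) - snY h s) := by
  unfold snP snX snY up
  split_ifs <;> first | omega | (ext <;> push_cast <;> omega) | (ext <;> simp)

lemma sum_snP {h s : ℕ} (hs : s ≤ 2 * h + 4) : ∑ a ∈ range s, snP h a = (snX h s, snY h s) := by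
  induction s with
  | zero =>
    simp [snX, snY]
    rfl
  | succ s ih =>
    rw [sum_range_succ, ih (by omega), snP_step (by omega)]
    ext <;> simp

lemma ps_add (e : ℕ → Pt) (n s : ℕ) : ps e (n + s) = ps e n + ∑ a ∈ range s, e (n + a) := by
  unfold ps
  rw [sum_range_add]

lemma snk_per {h M m s : ℕ} (hm : m < M) (hs : s < 2 * h + 4) : snk h M ((2 * h + 4) * m + s) = snP h s := by
  unfold snk
  rw [if_pos, Nat.mul_add_mod, Nat.mod_eq_of_lt hs]
  calc (2 * h + 4) * m + s < (2 * h + 4) * m + (2 * h + 4) := by omega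
    _ = (2 * h + 4) * (m + 1) := by ring
    _ ≤ _ := Nat.mul_le_mul_left _ hm

lemma snk_up {h M s : ℕ} : snk h M ((2 * h + 4) * M + s) = up := by
  unfold snk
  rw [if_neg (by omega)]

lemma ps_base {h M m : ℕ} (hm : m ≤ M) : ps (snk h M) ((2 * h + 4) * m) = (4 * (m : ℤ), -(2 * (m : ℤ))) := by
  induction m with
  | zero =>
    simp [ps]
    rfl
  | succ m ih =>
    rw [show (2 * h + 4) * (m + 1) = (2 * h + 4) * m + (2 * h + 4) by ring, ps_add, ih (by omega),
      sum_congr rfl fun a ha => snk_per (by omega) (mem_range.1 ha), sum_snP le_rfl]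
    have h1 : snX h (2 * h + 4) = 4 := by
      unfold snX
      rw [if_neg (by omega), if_neg (by omega), if_neg (by omega), if_neg (by omega)]
    have h2 : snY h (2 * h + 4) = -2 := by
      unfold snY
      rw [if_neg (by omega), if_neg (by omega), if_neg (by omega)]
    rw [h1, h2]
    ext
    · push_cast
      simp only [Prod.fst_add]
      ring
    · push_cast
      simp only [Prod.snd_add]
      ring

/-- **positions before the last column** -/
lemma snk_ps {h M m s : ℕ} (hm : m < M) (hs : s ≤ 2 * h + 4) :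
    ps (snk h M) ((2 * h + 4) * m + s) = (4 * (m : ℤ) + snX h s, -(2 * (m : ℤ)) + snY h s) := by
  rw [ps_add, ps_base hm.le, sum_congr rfl fun a ha => snk_per hm (by have := mem_range.1 ha; omega), sum_snP hs]
  rfl

/-- **positions on the last column** -/
lemma snk_ps' {h M s : ℕ} : ps (snk h M) ((2 * h + 4) * M + s) = (4 * (M : ℤ), -(2 * (M : ℤ)) + s) := by
  rw [ps_add, ps_base le_rfl, sum_congr rfl fun a _ => snk_up]
  rw [sum_const, card_range]
  ext
  · simp [up]
  · simp [up]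

lemma nrm_far {x y : ℤ} (h : 2 ≤ x) : 3 ≤ nrm (x, y) := by
  have : nrm (x, y) = x * x + x * y + y * y := by
    simp only [nrm]
    ring
  rw [this]
  nlinarith [sq_nonneg (x + 2 * y), sq_nonneg (2 * y + x)]

lemma nrm_one {y : ℤ} (h : 1 ≤ y ∨ y ≤ -2) : 3 ≤ nrm (1, y) := by
  have : nrm (1, y) = 1 + y + y * y := by
    simp only [nrm]
    ring
  rw [this]
  rcases h with h | h <;> nlinarith

lemma nrm_zero' {y : ℤ} (h : 2 ≤ y ∨ y ≤ -2) : 3 ≤ nrm (0, y) := by
  have : nrm (0, y) = y * y := by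
    simp only [nrm]
    ring
  rw [this]
  rcases h with h | h <;> nlinarith

lemma snk_mem (h M i : ℕ) : snk h M i ∈ dirs := by
  unfold snk
  split_ifs
  · exact snP_mem _ _
  · exact upd'

lemma snP_tur {h s : ℕ} (hh : 1 ≤ h) (hs : s + 1 < 2 * h + 4) :
    snP h (s + 1) = snP h s ∨ snP h (s + 1) = rotL (snP h s) ∨ snP h (s + 1) = rotR (snP h s) := by
  have d1 : rotR up = (1, 0) := by decide
  have d2 : rotR (1, 0) = ((1, -1) : Pt) := by decide
  have d3 : rotR (1, -1) = ((0, -1) : Pt) := by decide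
  have d4 : rotL (0, -1) = ((1, -1) : Pt) := by decide
  have d5 : rotL (1, -1) = ((1, 0) : Pt) := by decide
  unfold snP
  rcases lt_trichotomy (s + 1) h with h1 | h1 | h1
  · rw [if_pos h1, if_pos (by omega)]
    exact Or.inl rfl
  · rw [if_neg (by omega), if_pos h1, if_pos (by omega), d1]
    exact Or.inr (Or.inr rfl)
  rcases lt_trichotomy s (h + 1) with h2 | h2 | h2
  · obtain rfl : s = h := by omega
    rw [if_neg (by omega), if_neg (by omega), if_pos rfl, if_neg (by omega), if_pos rfl, d2]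
    exact Or.inr (Or.inr rfl)
  · subst h2
    rw [if_neg (by omega), if_neg (by omega), if_neg (by omega), if_pos (by omega), if_neg (by omega), if_neg (by omega),
      if_pos rfl, d3]
    exact Or.inr (Or.inr rfl)
  rw [if_neg (by omega), if_neg (by omega), if_neg (by omega), if_neg (by omega : ¬s < h), if_neg (by omega : ¬s = h),
    if_neg (by omega : ¬s = h + 1)]
  rcases lt_trichotomy (s + 1) (2 * h + 2) with h3 | h3 | h3
  · rw [if_pos h3, if_pos (by omega)]
    exact Or.inl rfl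
  · rw [if_neg (by omega), if_pos h3, if_pos (by omega), d4]
    exact Or.inr (Or.inl rfl)
  · rw [if_neg (by omega), if_neg (by omega), if_neg (by omega), if_pos (by omega), d5]
    exact Or.inr (Or.inl rfl)

/-- division with remainder, the last column being m = M -/
lemma split_i {h M i : ℕ} (hi : i ≤ (2 * h + 4) * M + (h + 2)) :
    ∃ m s, i = (2 * h + 4) * m + s ∧ ((m < M ∧ s < 2 * h + 4) ∨ (m = M ∧ s ≤ h + 2)) := by
  refine ⟨i / (2 * h + 4), i % (2 * h + 4), (Nat.div_add_mod i _).symm, ?_⟩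
  have h1 : i % (2 * h + 4) < 2 * h + 4 := Nat.mod_lt _ (by omega)
  have h2 := Nat.div_add_mod i (2 * h + 4)
  rcases lt_trichotomy (i / (2 * h + 4)) M with h3 | h3 | h3
  · exact Or.inl ⟨h3, h1⟩
  · refine Or.inr ⟨h3, ?_⟩
    rw [h3] at h2
    omega
  · exfalso
    have h4 : (2 * h + 4) * (M + 1) ≤ (2 * h + 4) * (i / (2 * h + 4)) := Nat.mul_le_mul_left _ h3
    have h5 : (2 * h + 4) * (M + 1) = (2 * h + 4) * M + (2 * h + 4) := by ring
    omega

lemma snk_zero {h M : ℕ} (hh : 1 ≤ h) : snk h M 0 = up := by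
  unfold snk
  split_ifs with h1
  · unfold snP
    rw [Nat.zero_mod, if_pos (by omega)]
  · rfl

lemma snk_tur {h M i : ℕ} (hh : 1 ≤ h) (hi : i + 1 < (2 * h + 4) * M + (h + 2)) :
    snk h M (i + 1) = snk h M i ∨ snk h M (i + 1) = rotL (snk h M i) ∨ snk h M (i + 1) = rotR (snk h M i) := by
  obtain ⟨m, s, rfl, h1 | h1⟩ := split_i (h := h) (M := M) (show i ≤ (2 * h + 4) * M + (h + 2) by omega)
  · rcases Nat.lt_or_ge (s + 1) (2 * h + 4) with h2 | h2
    · rw [add_assoc, snk_per h1.1 h2, snk_per h1.1 h1.2]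
      exact snP_tur hh h2
    · obtain rfl : s = 2 * h + 3 := by omega
      right
      left
      have e1 : snk h M ((2 * h + 4) * m + (2 * h + 3) + 1) = up := by
        rw [show (2 * h + 4) * m + (2 * h + 3) + 1 = (2 * h + 4) * (m + 1) + 0 by ring]
        rcases Nat.lt_or_ge (m + 1) M with h3 | h3
        · rw [snk_per h3 (by omega)]
          unfold snP
          rw [if_pos (by omega)]
        · obtain rfl : M = m + 1 := by omega
          exact snk_up
      rw [e1, snk_per h1.1 h1.2]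
      unfold snP
      rw [if_neg (by omega), if_neg (by omega), if_neg (by omega), if_neg (by omega), if_neg (by omega)]
      decide
  · left
    rw [h1.1, add_assoc, snk_up, snk_up]

lemma snXY {h s : ℕ} (hs : s < 2 * h + 4) : (snX h s = 0 ∧ snY h s = s ∧ s ≤ h) ∨ (snX h s = 1 ∧ snY h s = h ∧ s = h + 1) ∨
    (snX h s = 2 ∧ snY h s = 2 * h + 1 - s ∧ h + 2 ≤ s ∧ s ≤ 2 * h + 2) ∨ (snX h s = 3 ∧ snY h s = -2 ∧ s = 2 * h + 3) := by
  unfold snX snY
  split_ifs <;> omega

/-- the position, in one form -/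
lemma snk_pos {h M i : ℕ} (hi : i ≤ (2 * h + 4) * M + (h + 2)) : ∃ (m s : ℕ) (a b : ℤ), i = (2 * h + 4) * m + s ∧ m ≤ M ∧
    ps (snk h M) i = (4 * (m : ℤ) + a, -(2 * (m : ℤ)) + b) ∧
      ((a = 0 ∧ b = s ∧ (s ≤ h ∨ (m = M ∧ s ≤ h + 2))) ∨ (m < M ∧ a = 1 ∧ b = h ∧ s = h + 1) ∨
        (m < M ∧ a = 2 ∧ b = 2 * h + 1 - s ∧ h + 2 ≤ s ∧ s ≤ 2 * h + 2) ∨ (m < M ∧ a = 3 ∧ b = -2 ∧ s = 2 * h + 3)) := by
  obtain ⟨m, s, rfl, h1 | h1⟩ := split_i hi
  · refine ⟨m, s, snX h s, snY h s, rfl, h1.1.le, snk_ps h1.1 h1.2.le, ?_⟩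
    have h3 := h1.1
    rcases snXY (h := h) h1.2 with h2 | h2 | h2 | h2
    · exact Or.inl ⟨h2.1, h2.2.1, Or.inl h2.2.2⟩
    · exact Or.inr (Or.inl ⟨h3, h2⟩)
    · exact Or.inr (Or.inr (Or.inl ⟨h3, h2⟩))
    · exact Or.inr (Or.inr (Or.inr ⟨h3, h2⟩))
  · refine ⟨m, s, 0, s, rfl, h1.1.le, ?_, Or.inl ⟨rfl, rfl, Or.inr h1⟩⟩
    rw [h1.1, snk_ps', add_zero]

lemma mul_lt' {P m m' s s' : ℕ} (h : P * m + s < P * m' + s') (hs : s' < P) : m ≤ m' := by
  by_contra hc
  have h1 : P * (m' + 1) ≤ P * m := Nat.mul_le_mul_left _ (by omega)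
  have h2 : P * (m' + 1) = P * m' + P := by ring
  omega

lemma snk_ind {h M i j : ℕ} (hij : i + 1 < j) (hj : j ≤ (2 * h + 4) * M + (h + 2)) :
    3 ≤ nrm (ps (snk h M) j - ps (snk h M) i) := by
  obtain ⟨m, s, a, b, e1, m1, p1, q1⟩ := snk_pos (show i ≤ (2 * h + 4) * M + (h + 2) by omega)
  obtain ⟨m', s', a', b', e2, m2, p2, q2⟩ := snk_pos hj
  have hs' : s' < 2 * h + 4 := by omega
  have hmm : m ≤ m' := mul_lt' (P := 2 * h + 4) (s := s) (by rw [← e1, ← e2]; omega) hs'
  rw [p1, p2, Prod.mk_sub_mk]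
  have hmm' : (m : ℤ) ≤ m' := by exact_mod_cast hmm
  rcases Nat.lt_or_ge m m' with h1 | h1
  · have h1' : (m : ℤ) + 1 ≤ m' := by exact_mod_cast h1
    by_cases h2 : 2 ≤ 4 * (m' : ℤ) + a' - (4 * m + a)
    · exact nrm_far h2
    · -- m' = m + 1, a = 3, a' = 0
      have h3 : m' = m + 1 := by omega
      have e3 : (2 * h + 4) * (m + 1) = (2 * h + 4) * m + (2 * h + 4) := by ring
      rw [h3, e3] at e2
      have h4 : 4 * (m' : ℤ) + a' - (4 * m + a) = 1 := by omega
      rw [h4]
      refine nrm_one (Or.inl ?_)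
      omega
  · obtain rfl : m = m' := by omega
    by_cases h2 : 2 ≤ 4 * (m : ℤ) + a' - (4 * m + a)
    · exact nrm_far h2
    · by_cases h3 : 4 * (m : ℤ) + a' - (4 * m + a) = 1
      · rw [h3]
        refine nrm_one ?_
        omega
      · have h4 : 4 * (m : ℤ) + a' - (4 * m + a) = 0 := by omega
        rw [h4]
        refine nrm_zero' ?_
        omega

/-- **the serpentine is an induced path** -/
theorem snk_path {h M : ℕ} (hh : 1 ≤ h) : IPath (snk h M) ((2 * h + 4) * M + (h + 2)) :=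
  ⟨fun i _ => snk_mem h M i, fun _ => snk_zero hh, fun _ hi => snk_tur hh hi, fun _ _ hij hj => snk_ind hij hj⟩

/-- the box of the serpentine -/
lemma snk_box {h M i : ℕ} (hi : i ≤ (2 * h + 4) * M + (h + 2)) : 0 ≤ (ps (snk h M) i).1 ∧ (ps (snk h M) i).1 ≤ 4 * M ∧
    -1 ≤ ip (ps (snk h M) i) up ∧ ip (ps (snk h M) i) up ≤ 2 * h + 4 ∧
      (i ≤ (2 * h + 4) * M + h → ip (ps (snk h M) i) up ≤ 2 * h + 1) := by
  obtain ⟨m, s, a, b, e1, m1, p1, q1⟩ := snk_pos hi
  have hm' : (m : ℤ) ≤ M := by exact_mod_cast m1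
  have hip : ∀ x y : ℤ, ip (x, y) up = x + 2 * y := fun x y => by
    simp only [ip, up]
    ring
  rw [p1, hip]
  refine ⟨?_, ?_, ?_, ?_, fun hi' => ?_⟩
  · simp only
    omega
  · simp only
    rcases q1 with q | q | q | q <;> omega
  · rcases q1 with q | q | q | q <;> omega
  · rcases q1 with q | q | q | q <;> omega
  · rcases q1 with ⟨rfl, rfl, q | ⟨rfl, q⟩⟩ | q | q | q <;> omega

/-- straight places: away from the corners two consecutive steps are equal -/
lemma snk_str {h M i : ℕ} (hi : ∀ m : ℕ, i + 1 ≠ (2 * h + 4) * m + h ∧ i ≠ (2 * h + 4) * m + h ∧ i ≠ (2 * h + 4) * m + (h + 1) ∧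
    i ≠ (2 * h + 4) * m + (2 * h + 1) ∧ i ≠ (2 * h + 4) * m + (2 * h + 2) ∧ i ≠ (2 * h + 4) * m + (2 * h + 3)) :
    snk h M (i + 1) = snk h M i := by
  rcases Nat.lt_or_ge i ((2 * h + 4) * M) with h0 | h0
  · obtain ⟨m, s, rfl, h1 | h1⟩ := split_i (show i ≤ (2 * h + 4) * M + (h + 2) by omega)
    · obtain ⟨i1, i2, i3, i4, i5, i6⟩ := hi m
      have h2 : s + 1 < 2 * h + 4 := by omega
      rw [add_assoc, snk_per h1.1 h2, snk_per h1.1 h1.2]
      unfold snP
      rcases Nat.lt_or_ge s h with h3 | h3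
      · rw [if_pos (by omega), if_pos h3]
      · rw [if_neg (by omega), if_neg (by omega), if_neg (by omega), if_pos (by omega), if_neg (by omega), if_neg (by omega),
          if_neg (by omega), if_pos (by omega)]
    · rw [h1.1] at h0
      omega
  · unfold snk
    rw [if_neg (by omega), if_neg (by omega)]

end AR

end HexObs
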