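import Pool.Agent.ARM2.TurnM
import Pool.Agent.ARM.DefsG
import Pool.Agent.JNT.NarM

/-!
# ARM2: the chain of the steps along a coarse path (helper51)
-/

set_option autoImplicit false

namespace HexObs

namespace AR

open Finset TIW TS SDN POL

open scoped ENNReal

variable {e : ℕ → Pt} {r i l : ℕ} {D B B' lam Lb X : ℤ} {c : Pt}

lemma AS.mono {A : List Bool} (h : AS e D B i c A) (hB : B ≤ B') : AS e D B' i c A := by
  refine ⟨h.sa, h.dir, h.pos.trans hB, fun k hk => (h.rg k hk).mono hB, fun k h1 h2 => ?_, fun k hk => ?_⟩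
  · rcases h.st k h1 h2 with g | g
    · exact Or.inl g
    · exact Or.inr (g.mono hB)
  · rcases h.bd k hk with g | g
    · exact Or.inl g
    · exact Or.inr (g.mono hB)

/-- straight parts of length t1 along the segment i -/
def VB (e : ℕ → Pt) (D t1 : ℤ) (i l : ℕ) (ε : ℝ) (A : List Bool) : Set (List Bool) :=
  VS l ε (ip (pv e D i + t1 • e i - en A) (e i))

lemma tgt_bd' (h : IPath e r) (hi : i < r) {t1 : ℤ} {A : List Bool} (hA : hn (en A - pv e D i) ≤ B) :
    2 * t1 - B ≤ ip (pv e D i + t1 • e i - en A) (e i) ∧ ip (pv e D i + t1 • e i - en A) (e i) ≤ 2 * t1 + B := by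
  have hd := h.dir i hi
  rw [show pv e D i + t1 • e i - en A = t1 • e i - (en A - pv e D i) by abel, ip_sub_left, ip_smul_self hd]
  have h1 := ip_le_hn (en A - pv e D i) hd
  have h2 := neg_hn_le_ip (en A - pv e D i) hd
  constructor <;> linarith

/-- classes -/
lemma cl_SB {AA : Set (List Bool)} {ε : ℝ} (h : IPath e r) (hi : i < r) {t1 : ℤ}
    (hAA : ∀ A ∈ AA, BS e D B (2 ^ l) (2 * D + X) i (pv e D i) A)
    (hX : B + 2 ^ l ≤ X) (hB' : 3 * B + 2 * 2 ^ l + 1 ≤ B') (hD : B + B' ≤ 2 * t1) (ht0 : 0 ≤ t1) (ht : t1 ≤ D) :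
    ∀ Q ∈ Pr AA (VB e D t1 i l ε), AS e D B' i (pv e D i + t1 • e i) Q := by
  rintro Q ⟨A, hA, V, ⟨hV1, hV2, hV3, -⟩, rfl⟩
  have hB := hAA A hA
  have h1 := tgt_bd' (t1 := t1) h hi hB.pos
  have h3 : ∀ j, j ≤ V.length → |3 * lat V j| ≤ 2 ^ l := by
    intro j hj
    have := hV2 j hj
    rw [abs_le] at this ⊢
    constructor <;> linarith
  refine step_S h hi (s := 0) (t1 := t1) (by rw [zero_smul, add_zero]) le_rfl ht0 (by linarith) hB hV1 h3
    (mu := 2 ^ l) (h3 _ le_rfl) hV3 ?_ le_rfl (by linarith) (by linarith)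
  rw [abs_le] at hV3
  linarith

/-- masses -/
lemma ms_SB {AA : Set (List Bool)} {ε : ℝ} (h : IPath e r) (hi : i < r) {t1 : ℤ}
    (hAA : ∀ A ∈ AA, BS e D B (2 ^ l) (2 * D + X) i (pv e D i) A)
    (hX : B + 2 ^ l ≤ X) {H : ℕ} (hD : 2 * t1 + B ≤ 3 * (H * 2 ^ l)) (hDB : B ≤ 2 * t1) (ht : t1 ≤ D) {c : ℝ}
    (hm : ∀ t : ℤ, 0 ≤ t → t ≤ 3 * (H * 2 ^ l) → ENNReal.ofReal c ≤ gf (VS l ε t)) :
    gf AA * ENNReal.ofReal c ≤ gf (Df AA BU) * gf (Pr AA (VB e D t1 i l ε)) := by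
  refine mass_S hAA (fun A hA V hV => ⟨hV.1, hV.2.1, ?_⟩) fun A hA => ?_
  · have h1 := tgt_bd' (t1 := t1) h hi (hAA A hA).pos
    have h2 := hV.2.2.1
    rw [abs_le] at h2
    linarith
  · have h1 := tgt_bd' (t1 := t1) h hi (hAA A hA).pos
    exact hm _ (by linarith) (by linarith)

/-- the tolerances, unit 2 ^ l -/
def bq : ℕ → ℕ
  | 0 => 0
  | i + 1 => 3 * bq i + 515

lemma bq_mono {i j : ℕ} (h : i ≤ j) : bq i ≤ bq j := by
  induction j with
  | zero => obtain rfl : i = 0 := by omega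
            exact le_rfl
  | succ j ih =>
    rcases Nat.lt_or_ge i (j + 1) with h1 | h1
    · refine (ih (by omega)).trans ?_
      show bq j ≤ 3 * bq j + 515
      omega
    · obtain rfl : i = j + 1 := by omega
      exact le_rfl

/-- **the chain** -/
theorem chain (h : IPath e r) {N H : ℕ} {S : Set (List Bool)} {A0 cT cS Cb ρ : ℝ} (hN : bq r ≤ N)
    (hX : X = (N + 1) * 2 ^ l) (hD : (8 * N + 1100) * 2 ^ l ≤ D) (hH : D ≤ H * 2 ^ l) (hS : Turn l S)
    (hSl : ∀ V ∈ S, (V.length : ℝ) ≤ A0 * mm l) (hA0 : 0 ≤ A0) (hcT : 0 < cT) (hcS : 0 < cS) (hCb : 1 ≤ Cb)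
    (hSm : ENNReal.ofReal (cT * Ub l) ≤ gf S)
    (hm : ∀ t : ℤ, 0 ≤ t → t ≤ 3 * (H * 2 ^ l) → ENNReal.ofReal (cS * Ub l) ≤ gf (VS l 1 t))
    (hb : ∀ l, UU (N * 2 ^ l) ≤ Cb * Ub l) (hρ : 0 < ρ) (hρ1 : ρ * Cb ≤ cS) (hρ2 : ρ * Cb * Cb ≤ cS * cT) :
    ∀ i, i < r → ∃ (AA : Set (List Bool)) (K : ℝ), 0 < K ∧
      (∀ A ∈ AA, BS e D (bq i * 2 ^ l) (2 ^ l) (2 * D + X) i (pv e D i) A ∧ (A.length : ℝ) ≤ i * ((A0 + 1) * mm l)) ∧
      gf (Df AA BU) ≤ ENNReal.ofReal K ∧ ENNReal.ofReal (ρ ^ i * K) ≤ gf AA := by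
  have hR0 : (1 : ℤ) ≤ 2 ^ l := one_le_pow₀ (by norm_num)
  have hU : 0 < Ub l := Ub_pos l
  have hCb0 : 0 < Cb := by linarith
  have hmm : 0 < mm l := mm_pos l
  have hR9 : (2 : ℤ) ^ (l + 9) = 512 * 2 ^ l := by ring
  intro i
  induction i with
  | zero =>
    intro hr
    refine ⟨{[]}, 1, one_pos, fun A hA => ?_, ?_, ?_⟩
    · rw [Set.mem_singleton_iff] at hA
      rw [hA]
      refine ⟨?_, by simp⟩
      have := cl_nil (l := l) (D := D) (X := X) h hr (by nlinarith)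
      simpa [bq] using this
    · rw [ENNReal.ofReal_one]
      exact df_nil
    · rw [gf_nil]
      simp
  | succ i ih =>
    intro hi
    obtain ⟨AA, K, hK, hAA, hDf, hgf⟩ := ih (by omega)
    obtain ⟨R, hR⟩ : ∃ R : ℤ, R = 2 ^ l := ⟨_, rfl⟩
    have hbqN' : bq (i + 1) ≤ N := (bq_mono hi.le).trans hN
    have hbq' : bq (i + 1) = 3 * bq i + 515 := rfl
    generalize bq (i + 1) = N1 at hbqN' hbq' ⊢
    have hbqN : (N1 : ℤ) ≤ N := by exact_mod_cast hbqN'
    have hbq : (N1 : ℤ) = 3 * bq i + 515 := by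
      rw [hbq']
      push_cast
      ring
    have hb0 : (0 : ℤ) ≤ bq i := Int.natCast_nonneg _
    rw [← hR] at hX hD hR0 hR9
    have hbN : (N1 : ℤ) * R ≤ N * R := mul_le_mul_of_nonneg_right hbqN (by linarith)
    have e1 : (N1 : ℤ) * R = 3 * (bq i * R) + 515 * R := by
      rw [hbq]
      ring
    have e0 : 0 ≤ (bq i : ℤ) * R := mul_nonneg hb0 (by linarith)
    have hX' : X = N * R + R := by
      rw [hX]
      ring
    have hD' : 8 * (N * R) + 1100 * R ≤ D := by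
      refine le_trans (le_of_eq ?_) hD
      ring
    have hBS : ∀ A ∈ AA, BS e D (bq i * 2 ^ l) (2 ^ l) (2 * D + X) i (pv e D i) A := fun A hA => (hAA A hA).1
    have hDH : D ≤ 3 * (H * 2 ^ l) - 2 * D := by linarith
    -- the straight part
    have c1 := cl_S (ε := 1) (B' := 3 * (bq i * R) + 3 * R) h (by omega) hBS (by rw [← hR]; linarith) (by rw [← hR]; linarith)
      (by rw [← hR]; linarith) (by linarith)
    have m1 := ms_S (ε := 1) (c := cS * Ub l) (H := H) h (by omega : i < r) hBS (by rw [← hR]; linarith)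
      (by rw [← hR] at hDH ⊢; linarith) (by rw [← hR]; linarith) hm
    have g1 := of_step hK (pow_nonneg hρ.le i) (by positivity : 0 ≤ cS * Ub l) m1 hgf le_rfl hDf le_rfl
    have l1 : ∀ Q ∈ Pr AA (VA e D i l 1), (Q.length : ℝ) ≤ i * ((A0 + 1) * mm l) + mm l := by
      rintro Q ⟨A, hA, V, hV, rfl⟩
      rw [List.length_append]
      push_cast
      have h1 := (hAA A hA).2
      have h2 := hV.2.2.2
      linarith
    obtain ⟨AA1, hAA1⟩ : ∃ AA1, AA1 = Pr AA (VA e D i l 1) := ⟨_, rfl⟩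
    rw [← hAA1] at c1 m1 g1 l1
    have c1' : ∀ A ∈ AA1, AS e D (N1 * 2 ^ l) i (pv e D (i + 1)) A := fun A hA =>
      (c1 A hA).mono (by rw [← hR]; linarith)
    have d1 : gf (Df AA1 BU) ≤ ENNReal.ofReal (Cb * Ub l) :=
      df_num (d := e i) (c := pv e D (i + 1)) (b := N1) hb hbqN' fun A hA =>
        ⟨(c1' A hA).dir, (c1' A hA).pos⟩
    -- the corner
    have turn_case : ∀ b : Bool, e (i + 1) = turn b (e i) → ∃ (AA : Set (List Bool)) (K : ℝ), 0 < K ∧
        (∀ A ∈ AA, BS e D (N1 * 2 ^ l) (2 ^ l) (2 * D + X) (i + 1) (pv e D (i + 1)) A ∧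
          (A.length : ℝ) ≤ ((i + 1 : ℕ) : ℝ) * ((A0 + 1) * mm l)) ∧
        gf (Df AA BU) ≤ ENNReal.ofReal K ∧ ENNReal.ofReal (ρ ^ (i + 1) * K) ≤ gf AA := by
      intro b he
      have c2 := cl_T (b := b) (B' := N1 * 2 ^ l) (X := X) (VV := TW b S) h hi he hS subset_rfl c1
        (by rw [hX']; nlinarith) (by rw [hR9, ← hR]; linarith) (by rw [← hR]; linarith)
      have m2 := ms_T (b := b) (VV := TW b S) h (by omega : i < r) hS subset_rfl c1 (by rw [hR9]; linarith)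
      refine ⟨Pr AA1 fun _ => TW b S, Cb * Ub l, by positivity, fun Q hQ => ⟨c2 Q hQ, ?_⟩, ?_, ?_⟩
      · obtain ⟨A, hA, V, hV, rfl⟩ := hQ
        rw [List.length_append]
        push_cast
        have h1 := l1 A hA
        have h2 : (V.length : ℝ) ≤ A0 * mm l := by
          cases b
          · exact hSl V hV
          · have h3 := hSl (V.map not) hV
            rwa [List.length_map] at h3
        linarith
      · exact df_num (d := e (i + 1)) (c := pv e D (i + 1)) (b := N1) hb hbqN' fun A hA =>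
          ⟨(c2 A hA).dir, (c2 A hA).pos⟩
      · refine of_step (K := Cb * Ub l) (x := ρ ^ i * cS / Cb) (u := cT * Ub l) (by positivity) (by positivity)
          (by positivity) m2 ?_ (by rw [tw_mass]; exact hSm) d1 ?_
        · refine le_trans (ENNReal.ofReal_le_ofReal (le_of_eq ?_)) g1
          field_simp
        · have h1 : 0 < ρ ^ i := pow_pos hρ i
          rw [pow_succ, div_mul_eq_mul_div, le_div_iff₀ hCb0]
          calc ρ ^ i * ρ * (Cb * Ub l) * Cb = ρ ^ i * Ub l * (ρ * Cb * Cb) := by ring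
            _ ≤ ρ ^ i * Ub l * (cS * cT) := mul_le_mul_of_nonneg_left hρ2 (by positivity)
            _ = _ := by ring
    rcases h.tur i hi with he | he | he
    · refine ⟨AA1, Cb * Ub l, by positivity, fun Q hQ => ⟨?_, ?_⟩, d1, ?_⟩
      · exact cl_N h hi he c1' (by rw [hX']; nlinarith) (by rw [← hR]; linarith) Q hQ
      · have h1 := l1 Q hQ
        push_cast
        nlinarith [mul_nonneg hA0 hmm.le]
      · refine le_trans (ENNReal.ofReal_le_ofReal ?_) g1
        have h1 : 0 < ρ ^ i := pow_pos hρ i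
        calc ρ ^ (i + 1) * (Cb * Ub l) = ρ ^ i * Ub l * (ρ * Cb) := by ring
          _ ≤ ρ ^ i * Ub l * cS := mul_le_mul_of_nonneg_left hρ1 (by positivity)
          _ = _ := by ring
    · exact turn_case true he
    · exact turn_case false he

end AR

end HexObs
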