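import Pool.Agent.ARM2.Mass
import Pool.Agent.TIW.Hpm
import Pool.Agent.TPC.LBu
import Pool.Agent.TPC.Pat

/-!
# ARM2: turns to both sides, steps in numbers (helper51)
-/

set_option autoImplicit false

namespace HexObs

namespace AR

open Finset TIW TS SDN POL

open scoped ENNReal

/-! ### 1. Mirror images -/

lemma ip_lm (p q : Pt) : ip (TPC.lm p) (TPC.lm q) = ip p q := by
  simp only [TPC.lm, ip]
  ring

lemma lm_sub (p q : Pt) : TPC.lm (p - q) = TPC.lm p - TPC.lm q := by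
  simp only [TPC.lm, Prod.fst_sub, Prod.snd_sub, Prod.mk_sub_mk]
  congr 1 <;> ring

lemma hn_lm (p : Pt) : hn (TPC.lm p) = hn p := by
  have key : ∀ q : Pt, hn (TPC.lm q) ≤ hn q := by
    intro q
    refine hn_le fun d hd => ?_
    have h1 : TPC.lm d ∈ dirs := by
      revert d
      decide
    have h2 : ip (TPC.lm q) d = ip q (TPC.lm d) := by
      rw [← ip_lm q, TPC.lm_lm]
    rw [h2]
    exact ip_le_hn _ h1
  refine le_antisymm (key p) ?_
  have := key (TPC.lm p)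
  rwa [TPC.lm_lm] at this

/-- turns to the right (b = false) and their mirror images -/
def TW (b : Bool) (S : Set (List Bool)) : Set (List Bool) := {V | (if b then V.map not else V) ∈ S}

lemma tw_mass (b : Bool) (S : Set (List Bool)) : gf (TW b S) = gf S := by
  cases b
  · rfl
  · exact TPC.PatA.gf_not S

lemma tw_facts {b : Bool} {l : ℕ} {S : Set (List Bool)} (hS : Turn l S) {V : List Bool} (hV : V ∈ TW b S) :
    TurnB b (2 ^ (l + 1)) (2 ^ (l + 9)) V ∧ V ∈ Hp (2 ^ (l + 9)) := by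
  have hHp : ∀ W : List Bool, W ∈ Hp (2 ^ (l + 9)) → W ∈ SA ∧ (∀ j, 1 ≤ j → j ≤ W.length → 0 < ip (vx oo up W j) up) ∧
      ∀ j, j ≤ W.length → hn (vx oo up W j) ≤ 2 ^ (l + 9) := by
    intro W hW
    refine ⟨⟨fun _ _ _ => Set.mem_univ _, hW.1.inj⟩, fun j h1 h2 => hW.1.mem j h1 h2, fun j hj => ?_⟩
    have := hW.2 j hj
    push_cast at this
    exact this.le
  cases b
  · have hV' : V ∈ S := hV
    have h1 := hS.hp hV'
    obtain ⟨g1, g2, g3⟩ := hHp V h1
    exact ⟨⟨g1, g2, g3, hS.dir V hV', hS.hgt V hV', hS.front V hV'⟩, h1⟩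
  · have hV' : V.map not ∈ S := hV
    obtain ⟨W, hW⟩ : ∃ W, W = V.map not := ⟨_, rfl⟩
    rw [← hW] at hV'
    have hVW : V = W.map not := by
      rw [hW, map_not_not]
    have h1 := hS.hp hV'
    obtain ⟨g1, g2, g3⟩ := hHp W h1
    have hl : V.length = W.length := by rw [hVW, List.length_map]
    have hx : ∀ j, j ≤ W.length → vx oo up V j = TPC.lm (vx oo up W j) := fun j hj => by
      rw [hVW]
      exact TPC.vx_not W (by omega)
    have hen : en V = TPC.lm (en W) := by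
      unfold en
      rw [hl]
      exact hx _ le_rfl
    have hde : de V = TPC.lm (de W) := by
      unfold de
      rw [hl, hVW]
      exact TPC.dx_not W le_rfl
    have hup : TPC.lm up = up := by decide
    have hp : ∀ p : Pt, ip (TPC.lm p) up = ip p up := fun p => by
      have := ip_lm p up
      rwa [hup] at this
    have hpos : ∀ j, 1 ≤ j → j ≤ V.length → 0 < ip (vx oo up V j) up := fun j hj hjl => by
      rw [hx j (by omega), hp]
      exact g2 j hj (by omega)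
    have hinj : ∀ a b, a < b → b ≤ V.length → vx oo up V a ≠ vx oo up V b := by
      intro a b hab hb he
      rw [hx a (by omega), hx b (by omega)] at he
      have := congrArg TPC.lm he
      rw [TPC.lm_lm, TPC.lm_lm] at this
      exact g1.inj a b hab (by omega) this
    refine ⟨⟨⟨fun _ _ _ => Set.mem_univ _, hinj⟩, hpos, fun j hj => ?_, ?_, ?_, fun j hj => ?_⟩, ⟨?_, hinj⟩, fun j hj => ?_⟩
    · rw [hx j (by omega), hn_lm]
      exact g3 j (by omega)
    · rw [hde, hS.dir W hV']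
      decide
    · rw [hen, hp]
      exact hS.hgt W hV'
    · rw [hde, hen, hx j (by omega), ← lm_sub, ip_lm]
      exact hS.front W hV' j (by omega)
    · intro j hj hjl
      exact hpos j hj hjl
    · rw [hx j (by omega), hn_lm]
      exact h1.2 j (by omega)

/-! ### 2. Steps in numbers -/

variable {e : ℕ → Pt} {r i l : ℕ} {D B B' X : ℤ} {AA : Set (List Bool)} {ε : ℝ}

/-- straight parts along the whole segment i -/
def VA (e : ℕ → Pt) (D : ℤ) (i l : ℕ) (ε : ℝ) (A : List Bool) : Set (List Bool) :=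
  VS l ε (ip (pv e D (i + 1) - en A) (e i))

lemma tgt_bd (h : IPath e r) (hi : i < r) {A : List Bool} (hA : hn (en A - pv e D i) ≤ B) :
    2 * D - B ≤ ip (pv e D (i + 1) - en A) (e i) ∧ ip (pv e D (i + 1) - en A) (e i) ≤ 2 * D + B := by
  have hd := h.dir i hi
  rw [show pv e D (i + 1) - en A = D • e i - (en A - pv e D i) by rw [pv_succ]; abel, ip_sub_left, ip_smul_self hd]
  have h1 := ip_le_hn (en A - pv e D i) hd
  have h2 := neg_hn_le_ip (en A - pv e D i) hd
  constructor <;> linarith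

/-- classes -/
lemma cl_S (h : IPath e r) (hi : i < r) (hAA : ∀ A ∈ AA, BS e D B (2 ^ l) (2 * D + X) i (pv e D i) A)
    (hX : B + 2 ^ l ≤ X) (hB' : 3 * B + 2 * 2 ^ l + 1 ≤ B') (hD : B + B' ≤ 2 * D) (hD0 : 0 ≤ D) :
    ∀ Q ∈ Pr AA (VA e D i l ε), AS e D B' i (pv e D (i + 1)) Q := by
  rintro Q ⟨A, hA, V, ⟨hV1, hV2, hV3, -⟩, rfl⟩
  have hB := hAA A hA
  have h1 := tgt_bd h hi hB.pos
  rw [pv_succ] at h1 hV3 ⊢
  have h3 : ∀ j, j ≤ V.length → |3 * lat V j| ≤ 2 ^ l := by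
    intro j hj
    have := hV2 j hj
    rw [abs_le] at this ⊢
    constructor <;> linarith
  refine step_S h hi (s := 0) (t1 := D) (by rw [zero_smul, add_zero]) le_rfl hD0 (by linarith) hB hV1 h3
    (mu := 2 ^ l) (h3 _ le_rfl) hV3 ?_ le_rfl (by linarith) (by linarith)
  rw [abs_le] at hV3
  linarith

/-- masses -/
lemma ms_S (h : IPath e r) (hi : i < r) (hAA : ∀ A ∈ AA, BS e D B (2 ^ l) (2 * D + X) i (pv e D i) A)
    (hX : B + 2 ^ l ≤ X) {H : ℕ} (hD : 2 * D + B ≤ 3 * (H * 2 ^ l)) (hDB : B ≤ 2 * D) {c : ℝ}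
    (hm : ∀ t : ℤ, 0 ≤ t → t ≤ 3 * (H * 2 ^ l) → ENNReal.ofReal c ≤ gf (VS l ε t)) :
    gf AA * ENNReal.ofReal c ≤ gf (Df AA BU) * gf (Pr AA (VA e D i l ε)) := by
  refine mass_S hAA (fun A hA V hV => ⟨hV.1, hV.2.1, ?_⟩) fun A hA => ?_
  · have h1 := tgt_bd h hi (hAA A hA).pos
    have h2 := hV.2.2.1
    rw [abs_le] at h2
    linarith
  · have h1 := tgt_bd h hi (hAA A hA).pos
    exact hm _ (by linarith) (by linarith)

/-- classes -/
lemma cl_T (h : IPath e r) (hi : i + 1 < r) {b : Bool} (he : e (i + 1) = turn b (e i)) {S VV : Set (List Bool)}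
    (hS : Turn l S) (hVV : VV ⊆ TW b S) (hAA : ∀ A ∈ AA, AS e D B i (pv e D (i + 1)) A) (hX : 0 ≤ X)
    (hB' : B + 2 ^ (l + 9) ≤ B') (hD : 3 * B' + 2 ^ l + X + 1 < D) :
    ∀ Q ∈ Pr AA (fun _ => VV), BS e D B' (2 ^ l) (2 * D + X) (i + 1) (pv e D (i + 1)) Q := by
  rintro Q ⟨A, hA, V, hV, rfl⟩
  have h2 : (0 : ℤ) < 2 ^ l := by positivity
  refine step_T h hi he (R := 2 ^ (l + 1)) (S := 2 ^ (l + 9)) hX le_rfl hB' (by linarith) h2.le ?_ (hAA A hA)
    (tw_facts hS (hVV hV)).1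
  rw [pow_succ]
  linarith

/-- masses -/
lemma ms_T (h : IPath e r) (hi : i < r) {b : Bool} {S VV : Set (List Bool)} (hS : Turn l S) (hVV : VV ⊆ TW b S)
    (hAA : ∀ A ∈ AA, AS e D B i (pv e D (i + 1)) A) (hD : 2 * 2 ^ (l + 9) + 2 * B ≤ D) :
    gf AA * gf VV ≤ gf (Df AA BU) * gf (Pr AA fun _ => VV) := by
  refine mass_T h hi hAA (fun V hV => (tw_facts hS (hVV hV)).2) ?_
  push_cast
  exact hD

/-- no turn -/
lemma cl_N (h : IPath e r) (hi : i + 1 < r) (he : e (i + 1) = e i) (hAA : ∀ A ∈ AA, AS e D B i (pv e D (i + 1)) A)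
    (hX : 0 ≤ X) (hD : 3 * B + 2 ^ l + X + 1 < D) :
    ∀ Q ∈ AA, BS e D B (2 ^ l) (2 * D + X) (i + 1) (pv e D (i + 1)) Q := fun Q hQ =>
  step_N h hi he hX le_rfl (by linarith) (hAA Q hQ)

/-- the empty word -/
lemma cl_nil (h : IPath e r) (hr : 0 < r) (hD : 0 ≤ D) : BS e D 0 (2 ^ l) (2 * D + X) 0 (pv e D 0) [] := by
  have e0 : pv e D 0 = 0 := by
    unfold pv ps
    rw [range_zero, sum_empty, smul_zero]
  have e1 : en [] = 0 := rfl
  have e2 : hn (0 : Pt) = 0 := by decide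
  have e3 : vx oo up [] 0 = 0 := rfl
  refine ⟨⟨fun _ _ _ => Set.mem_univ _, fun a b hab hb => ?_⟩, ?_, ?_, fun k hk => ?_, fun k h1 h2 => ?_, fun k hk hF => ?_,
    fun _ => ?_⟩
  · simp only [List.length_nil] at hb
    omega
  · rw [h.one hr]
    rfl
  · rw [e0, e1, sub_self, e2]
  · have hk0 : k = 0 := by simpa using hk
    rw [hk0, e3, e0]
    refine Or.inr ⟨⟨0, le_rfl, hD, ?_⟩, ?_⟩
    · rw [zero_smul, add_zero, sub_self, e2]
    · rw [sub_self]
      have : ip (0 : Pt) (e 0) = 0 := by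
        simp [ip]
      rw [this]
  · simp only [List.length_nil] at h2
    omega
  · have hk0 : k = 0 := by simpa using hk
    rw [hk0, e3, e1] at hF
    have h1 := hF.1
    rw [sub_self] at h1
    have : ip (0 : Pt) (e 0) = 0 := by
      simp [ip]
    linarith
  · rw [e1]
    have : ip (0 : Pt) up = 0 := by decide
    rw [this]

lemma gf_single (t : List Bool) : gf {t} = wE t := by
  rw [gf_ite]
  refine (tsum_eq_single t fun s hs => ?_).trans ?_
  · exact if_neg fun h => hs h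
  · exact if_pos (Set.mem_singleton t)

lemma gf_nil : gf {([] : List Bool)} = 1 := by
  rw [gf_single]
  simp [wE]

lemma df_nil : gf (Df {([] : List Bool)} BU) ≤ 1 := by
  rw [← gf_nil]
  refine gf_mono ?_
  rintro Z ⟨-, A, hA, hAZ⟩
  rw [Set.mem_singleton_iff] at hA hAZ ⊢
  rw [hA, List.nil_append] at hAZ
  exact hAZ

/-- the mass of the differences, in numbers -/
lemma df_num {AA : Set (List Bool)} {d c : Pt} {b n : ℕ} {C : ℝ} (hC : ∀ l, UU (n * 2 ^ l) ≤ C * Ub l) (hb : b ≤ n)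
    (h : ∀ A ∈ AA, de A = d ∧ hn (en A - c) ≤ b * 2 ^ l) : gf (Df AA BU) ≤ ENNReal.ofReal (C * Ub l) := by
  refine (df_mass (d := d) (c := c) (n := b * 2 ^ l) fun A hA => ?_).trans (ENNReal.ofReal_le_ofReal ?_)
  · push_cast
    exact h A hA
  · exact (Num2Aux.UU_mono (Nat.mul_le_mul_right _ hb)).trans (hC l)

/-- ratios -/
lemma of_ratio {C c u : ℝ} (hc : 0 < c) (hu : 0 < u) (hC : 0 ≤ C) {a v d p : ℝ≥0∞} (h : a * v ≤ d * p)
    (hv : ENNReal.ofReal (c * u) ≤ v) (hd : d ≤ ENNReal.ofReal (C * u)) : a ≤ ENNReal.ofReal (C / c) * p := by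
  have h0 : ENNReal.ofReal (c * u) ≠ 0 := by
    rw [Ne, ENNReal.ofReal_eq_zero, not_le]
    positivity
  have h1 : ENNReal.ofReal (c * u) * a ≤ ENNReal.ofReal (c * u) * (ENNReal.ofReal (C / c) * p) := by
    calc ENNReal.ofReal (c * u) * a = a * ENNReal.ofReal (c * u) := mul_comm _ _
      _ ≤ a * v := mul_le_mul' le_rfl hv
      _ ≤ d * p := h
      _ ≤ ENNReal.ofReal (C * u) * p := mul_le_mul' hd le_rfl
      _ = ENNReal.ofReal (c * u) * (ENNReal.ofReal (C / c) * p) := by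
          rw [← mul_assoc, ← ENNReal.ofReal_mul (by positivity)]
          congr 2
          field_simp
  exact (ENNReal.mul_le_mul_iff_right h0 ENNReal.ofReal_ne_top).1 h1

end AR

end HexObs
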